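import Pool.Agent.H739K.Defs
import Pool.Agent.H976R2.KLip

set_option autoImplicit false

namespace Pool.Agent.H739K

open Finset Pool.Agent.H976R2 Pool.Agent.H976R2.Lip Pool.Agent.H924P

namespace AREAx

/-- edge from `p` to `q` above the cell `c` -/
def Q (p q c : ℤ × ℤ) : Prop := ((p.1 = c.1 ∧ q.1 = c.1 + 1) ∨ (p.1 = c.1 + 1 ∧ q.1 = c.1)) ∧
  c.2 < p.2

instance (p q c : ℤ × ℤ) : Decidable (Q p q c) := by unfold Q; infer_instance

def ed (p q c : ℤ × ℤ) : ℕ := if Q p q c then 1 else 0

/-- number of edges of the word above the cell, starting from `p` -/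
def cw (c : ℤ × ℤ) : ℤ × ℤ → List Dir → ℕ
  | _, [] => 0
  | p, (d :: w) => ed p (p + dv d) c + cw c (p + dv d) w

def disp (w : List Dir) : ℤ × ℤ := (wX w, wY w)

theorem disp_nil : disp [] = 0 := rfl
theorem disp_cons (d : Dir) (w : List Dir) : disp (d :: w) = dv d + disp w := by
  unfold disp dv
  simp

theorem cw_append (c : ℤ × ℤ) (a b : List Dir) : ∀ p, cw c p (a ++ b) =
    cw c p a + cw c (p + disp a) b := by
  induction a with
  | nil => intro p; simp [cw, disp_nil]
  | cons d a ih =>
    intro p
    simp only [List.cons_append, cw]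
    rw [ih, disp_cons, ← add_assoc, ← add_assoc]

theorem cw_sum (c : ℤ × ℤ) (w : List Dir) : ∀ p, cw c p w =
    ∑ j ∈ range w.length, ed (p + PP w j) (p + PP w (j + 1)) c := by
  induction w with
  | nil => intro p; simp [cw]
  | cons d w ih =>
    intro p
    rw [List.length_cons, Finset.sum_range_succ']
    simp only [cw]
    rw [ih, add_comm]
    congr 1
    · apply Finset.sum_congr rfl
      intro j _
      have h1 : ∀ k, PP (d :: w) (k + 1) = dv d + PP w k := by
        intro k
        unfold PP dv
        simp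
      rw [h1, h1, add_assoc, add_assoc]
    · have h0 : PP (d :: w) 0 = 0 := by unfold PP; simp
      have h1 : PP (d :: w) (0 + 1) = dv d := by
        unfold PP dv
        simp
      rw [h0, h1, add_zero]

theorem sum_zmod (n : ℕ) (G : Fin (n + 1) → Fin (n + 1) → ℕ) :
    ∑ k : Fin (n + 1), G k (k + 1) =
      ∑ j : Fin n, G (Fin.castSucc j) (Fin.succ j) + G (Fin.last n) 0 := by
  rw [Fin.sum_univ_castSucc]
  congr 1
  · apply Finset.sum_congr rfl
    intro j _
    have h3 : ((Fin.castSucc j : Fin (n + 1)) + 1) = Fin.succ j := by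
      ext
      simp
    rw [h3]
  · have h3 : (Fin.last n) + 1 = 0 := by simp
    rw [h3]

/-- the loop as a function on `Fin` -/
def lf (w : List Dir) (k : Fin (w.length + 1)) : ℤ × ℤ := PP w k.val

theorem card_above (w : List Dir) (c : ℤ × ℤ) :
    Nat.card {k : ZMod (w.length + 1) // Above (w.length + 1) (lp (w.length + 1) w) c.1 c.2 k} =
      cw c 0 w + ed (disp w) 0 c := by
  classical
  have e1 : Nat.card {k : ZMod (w.length + 1) //
      Above (w.length + 1) (lp (w.length + 1) w) c.1 c.2 k} =
      ∑ k : ZMod (w.length + 1),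
        ed (lp (w.length + 1) w k) (lp (w.length + 1) w (k + 1)) c := by
    rw [Nat.card_eq_fintype_card, Fintype.card_subtype, Finset.card_filter]
    apply Finset.sum_congr rfl
    intro k _
    unfold ed
    by_cases h : Q (lp (w.length + 1) w k) (lp (w.length + 1) w (k + 1)) c
    · rw [if_pos h, if_pos (show Above (w.length + 1) (lp (w.length + 1) w) c.1 c.2 k from h)]
    · rw [if_neg h, if_neg (show ¬ Above (w.length + 1) (lp (w.length + 1) w) c.1 c.2 k from h)]
  have e2 : ∑ k : ZMod (w.length + 1),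
        ed (lp (w.length + 1) w k) (lp (w.length + 1) w (k + 1)) c =
      ∑ k : Fin (w.length + 1), ed (lf w k) (lf w (k + 1)) c := rfl
  rw [e1, e2, sum_zmod w.length (fun k l => ed (lf w k) (lf w l) c), cw_sum, Finset.sum_range]
  congr 1
  · apply Finset.sum_congr rfl
    intro j _
    rw [zero_add, zero_add]
    rfl
  · have h1 : lf w (Fin.last w.length) = disp w := by
      unfold lf PP disp
      simp
    have h2 : lf w 0 = 0 := by
      unfold lf PP
      simp
    rw [h1, h2]

theorem encl_iff (w : List Dir) (c : ℤ × ℤ) :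
    Encl (w.length + 1) (lp (w.length + 1) w) c ↔ Odd (cw c 0 w + ed (disp w) 0 c) := by
  unfold Encl
  rw [card_above]

/-- local comparison -/
theorem local_par (P c : ℤ × ℤ) (d e : Dir) (h : perp e d)
    (hc : c ≠ (min P.1 (P.1 + dx e + dx d), min P.2 (P.2 + dy e + dy d))) :
    (ed P (P + dv e) c + (ed (P + dv e) (P + dv e + dv d) c +
      ed (P + dv e + dv d) (P + dv d) c)) % 2 = ed P (P + dv d) c % 2 := by
  obtain ⟨x, y⟩ := P
  obtain ⟨a, b⟩ := c
  have hc' : ¬ (a = min x (x + dx e + dx d) ∧ b = min y (y + dy e + dy d)) := by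
    intro hh
    apply hc
    rw [hh.1, hh.2]
  clear hc
  cases e <;> cases d <;> simp [perp, dx, dy] at h <;>
    simp only [ed, Q, dv, dx, dy, Prod.mk_add_mk, Prod.fst_add, Prod.snd_add] at hc' ⊢ <;>
    split_ifs <;> omega

theorem encl_same (w : List Dir) (i : ℕ) (e : Dir) (hi : i < w.length) (he : perp e (lt w i))
    (c : ℤ × ℤ) (hc : c ≠ (min (PP w i).1 ((PP w i).1 + dx e + dx (lt w i)),
      min (PP w i).2 ((PP w i).2 + dy e + dy (lt w i)))) :
    Encl ((ins w i e).length + 1) (lp ((ins w i e).length + 1) (ins w i e)) c ↔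
      Encl (w.length + 1) (lp (w.length + 1) w) c := by
  rw [encl_iff, encl_iff]
  have hs := split_at w i hi
  set d := lt w i with hd
  have hins : ins w i e = w.take i ++ (e :: d :: opp e :: w.drop (i + 1)) := rfl
  have hdisp : disp (ins w i e) = disp w := by
    rw [hins]
    conv_rhs => rw [hs]
    unfold disp
    simp only [wX_append, wY_append, wX_cons, wY_cons, dx_opp, dy_opp, Prod.mk.injEq]
    constructor <;> ring
  have hP : (0 : ℤ × ℤ) + disp (w.take i) = PP w i := by rw [zero_add]; rfl
  have h1 : cw c 0 (ins w i e) = cw c 0 (w.take i) + (ed (PP w i) (PP w i + dv e) c +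
      (ed (PP w i + dv e) (PP w i + dv e + dv d) c +
      (ed (PP w i + dv e + dv d) (PP w i + dv d) c + cw c (PP w i + dv d) (w.drop (i + 1))))) := by
    rw [hins, cw_append, hP]
    simp only [cw]
    have h2 : PP w i + dv e + dv d + dv (opp e) = PP w i + dv d := by
      unfold dv
      rw [dx_opp, dy_opp]
      ext
      · simp only [Prod.fst_add]; ring
      · simp only [Prod.snd_add]; ring
    rw [h2]
  have h2 : cw c 0 w = cw c 0 (w.take i) + (ed (PP w i) (PP w i + dv d) c +
      cw c (PP w i + dv d) (w.drop (i + 1))) := by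
    conv_lhs => rw [hs]
    rw [cw_append, hP]
    simp only [cw]
  have h3 := local_par (PP w i) c d e he hc
  rw [hdisp, h1, h2, Nat.odd_iff, Nat.odd_iff]
  omega

theorem ncard_close {α : Type*} (A B : Set α) (c : α) (h : A ⊆ insert c B) (h' : B ⊆ insert c A) :
    A.ncard ≤ B.ncard + 1 := by
  by_cases hB : B.Finite
  · exact (Set.ncard_le_ncard h (hB.insert c)).trans (Set.ncard_insert_le c B)
  · have hA : ¬ A.Finite := fun hA => hB ((hA.insert c).subset h')
    have : A.ncard = 0 := Set.Infinite.ncard hA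
    omega

end AREAx

theorem AREA_proof : S_area := by
  intro w i e h3 hw hsq hadm
  rw [mem_adm hw] at hadm
  obtain ⟨hi, hp, _, _⟩ := hadm
  set c0 : ℤ × ℤ := (min (PP w i).1 ((PP w i).1 + dx e + dx (lt w i)),
      min (PP w i).2 ((PP w i).2 + dy e + dy (lt w i))) with hc0
  have hsame := fun c hc => AREAx.encl_same w i e hi hp c hc
  have hA : ar (ins w i e) = {c | Encl ((ins w i e).length + 1)
      (lp ((ins w i e).length + 1) (ins w i e)) c}.ncard := rfl
  have hB : ar w = {c | Encl (w.length + 1) (lp (w.length + 1) w) c}.ncard := rfl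
  rw [hA, hB]
  have h1 : {c | Encl ((ins w i e).length + 1) (lp ((ins w i e).length + 1) (ins w i e)) c} ⊆
      insert c0 {c | Encl (w.length + 1) (lp (w.length + 1) w) c} := by
    intro c hc
    by_cases h : c = c0
    · rw [h]; exact Set.mem_insert _ _
    · exact Set.mem_insert_of_mem _ ((hsame c h).mp hc)
  have h2 : {c | Encl (w.length + 1) (lp (w.length + 1) w) c} ⊆
      insert c0 {c | Encl ((ins w i e).length + 1) (lp ((ins w i e).length + 1) (ins w i e)) c} := by
    intro c hc
    by_cases h : c = c0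
    · rw [h]; exact Set.mem_insert _ _
    · exact Set.mem_insert_of_mem _ ((hsame c h).mpr hc)
  exact ⟨AREAx.ncard_close _ _ c0 h1 h2, AREAx.ncard_close _ _ c0 h2 h1⟩

end Pool.Agent.H739K
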