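import Pool.Agent.H739K.Defs

/-!
# Growth of the number of words of polygons
-/

set_option autoImplicit false

namespace Pool.Agent.H739K

open Finset Pool.Agent.H976R2 Pool.Agent.H924P Filter
open scoped Classical

namespace BNDx

theorem card_SW (n : ℕ) : H981.cr' n = ((SW n).card : ℝ) := by
  rw [H981.cr'_eq]
  have : H981.C n = (SW n).card := by
    rw [← ncard_saw n]
    unfold H981.C
    rw [← Nat.card_coe_set_eq]
    rfl
  exact_mod_cast this

theorem mu_ge : 2.43 ≤ H981.mu := by
  by_contra hcon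
  push Not at hcon
  obtain ⟨c, hc, hlow⟩ := Pool.Agent.H976R2.Low.SW_card_lower
  have hmu := H981.mu_pos
  set r : ℝ := (H981.mu + 2.43) / 2 with hr
  have hr1 : H981.mu < r := by rw [hr]; linarith
  have hr2 : r < 2.43 := by rw [hr]; linarith
  have hr0 : 0 < r := hmu.trans hr1
  have h1 := H981.eventually_le hr1
  have hq0 : 0 ≤ r / 2.43 := by positivity
  have hq1 : r / 2.43 < 1 := by rw [div_lt_one (by norm_num)]; exact hr2
  have h2 := tendsto_pow_atTop_nhds_zero_of_lt_one hq0 hq1
  have h3 := h2.eventually (gt_mem_nhds hc)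
  obtain ⟨n, hn1, hn2⟩ := (h1.and h3).exists
  rw [card_SW] at hn1
  have h4 := (hlow n).trans hn1
  rw [div_pow, div_lt_iff₀ (by positivity)] at hn2
  linarith

end BNDx

open BNDx in
theorem BND_proof (hconv : S_conv) : S_bnd := by
  refine ⟨mu_ge, ?_⟩
  obtain ⟨K, hK, h⟩ := H981.PP_bounds9
  have hmu := mu_ge
  have hmu1 : (1 : ℝ) ≤ H981.mu := by linarith
  have hmu0 : (0 : ℝ) < H981.mu := by linarith
  refine ⟨K + 3 + H981.mu, by positivity, fun n hn hodd => ?_⟩
  obtain ⟨N, hN, hnN⟩ : ∃ N : ℕ, 2 ≤ N ∧ n = 2 * N - 1 := ⟨(n + 1) / 2, by omega, by omega⟩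
  obtain ⟨hlo, hup⟩ := h N hN
  have hcard : ((KP n).card : ℝ) = 4 * (N : ℝ) * H981.PP N := by
    have h1 := (hconv N hN).2.1
    rw [hnN, ← h1]
    obtain ⟨M, rfl⟩ : ∃ M, N = M + 1 := ⟨N - 1, by omega⟩
    rw [← card_loops M, ← Nat.card_coe_set_eq]
    rfl
  have hnR : (3 : ℝ) ≤ n := by exact_mod_cast hn
  have hNR : (2 : ℝ) ≤ N := by exact_mod_cast hN
  have hNn : (N : ℝ) ≤ n := by
    have : N ≤ n := by omega
    exact_mod_cast this
  have hN2 : 4 * (N : ℝ) ≤ 4 * n := by linarith
  have hlogn : 1 ≤ Real.log n := by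
    rw [Real.le_log_iff_exp_le (by linarith)]
    have := Real.exp_one_lt_d9
    linarith
  have hlogN : 0 ≤ Real.log N := Real.log_nonneg (by linarith)
  have hlogNn : Real.log N ≤ Real.log n := Real.log_le_log (by linarith) hNn
  set T := Real.log n ^ 9 with hT
  have hT1 : 1 ≤ T := one_le_pow₀ hlogn
  have hTlog : Real.log n ≤ T := by
    calc Real.log n = Real.log n ^ 1 := (pow_one _).symm
      _ ≤ T := pow_le_pow_right₀ hlogn (by norm_num)
  have hNT : Real.log N ^ 9 ≤ T := pow_le_pow_left₀ hlogN hlogNn 9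
  have hpow : H981.mu ^ (2 * N) = H981.mu ^ n * H981.mu := by
    rw [← pow_succ]
    congr 1
    omega
  have hpn : 0 < H981.mu ^ n := pow_pos hmu0 n
  rw [hcard]
  constructor
  · have e1 : H981.mu ^ n * Real.exp (-((K + 3 + H981.mu) * T)) ≤
        H981.mu ^ (2 * N) * Real.exp (-(K * Real.log N ^ 9)) := by
      rw [hpow]
      have a1 : H981.mu ^ n ≤ H981.mu ^ n * H981.mu := le_mul_of_one_le_right hpn.le hmu1
      have a2 : Real.exp (-((K + 3 + H981.mu) * T)) ≤ Real.exp (-(K * Real.log N ^ 9)) := by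
        rw [Real.exp_le_exp]
        have : K * Real.log N ^ 9 ≤ K * T := mul_le_mul_of_nonneg_left hNT hK
        nlinarith
      exact mul_le_mul a1 a2 (Real.exp_pos _).le (by positivity)
    have e2 := e1.trans hlo
    have e3 : 0 ≤ H981.PP N := le_trans (by positivity) e2
    calc H981.mu ^ n * Real.exp (-((K + 3 + H981.mu) * T)) ≤ H981.PP N := e2
      _ ≤ 4 * (N : ℝ) * H981.PP N := le_mul_of_one_le_left e3 (by linarith)
  · have b1 : 4 * (N : ℝ) ≤ Real.exp (3 * T) := by
      have c1 : (4 : ℝ) * n ≤ Real.exp 2 * Real.exp (Real.log n) := by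
        rw [Real.exp_log (by linarith)]
        have : (4 : ℝ) ≤ Real.exp 2 := by
          have h5 : Real.exp 2 = Real.exp 1 ^ 2 := by rw [← Real.exp_nat_mul]; norm_num
          have h6 := Real.exp_one_gt_d9
          rw [h5]
          nlinarith
        exact mul_le_mul_of_nonneg_right this (by linarith)
      rw [← Real.exp_add] at c1
      refine hN2.trans (c1.trans ?_)
      rw [Real.exp_le_exp]
      linarith
    have b2 : H981.mu ≤ Real.exp (H981.mu * T) := by
      have c2 : H981.mu * 1 ≤ H981.mu * T := mul_le_mul_of_nonneg_left hT1 hmu0.le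
      have c3 := Real.add_one_le_exp (H981.mu * T)
      linarith
    have b3 : Real.exp (K * Real.log N ^ 9) ≤ Real.exp (K * T) := by
      rw [Real.exp_le_exp]
      exact mul_le_mul_of_nonneg_left hNT hK
    calc 4 * (N : ℝ) * H981.PP N ≤
          4 * (N : ℝ) * (H981.mu ^ (2 * N) * Real.exp (K * Real.log N ^ 9)) :=
          mul_le_mul_of_nonneg_left hup (by positivity)
      _ = 4 * (N : ℝ) * (H981.mu ^ n * H981.mu * Real.exp (K * Real.log N ^ 9)) := by rw [hpow]
      _ ≤ Real.exp (3 * T) * (H981.mu ^ n * Real.exp (H981.mu * T) * Real.exp (K * T)) := by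
          gcongr
      _ = H981.mu ^ n * Real.exp ((K + 3 + H981.mu) * T) := by
          rw [show (K + 3 + H981.mu) * T = 3 * T + (H981.mu * T + K * T) by ring, Real.exp_add,
            Real.exp_add]
          ring

end Pool.Agent.H739K
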