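import Pool.Agent.H739K.Defs
import Pool.Agent.H976R2.Paths

set_option autoImplicit false

namespace Pool.Agent.H739K

open Finset Pool.Agent.H976R2 Pool.Agent.H924P
open scoped Classical

namespace CONV

lemma isLoop_iff (n : ℕ) (f : Fin (n + 1) → ℤ × ℤ) :
    IsLoop (n + 1) f ↔ IsSAW n f ∧ |(f (Fin.last n)).1| + |(f (Fin.last n)).2| = 1 := by
  constructor
  · rintro ⟨h0, hinj, hs⟩
    have h0' : f 0 = (0, 0) := h0
    refine ⟨⟨h0', fun i => ?_, hinj⟩, ?_⟩
    · have h1 := hs i.castSucc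
      have e : (i.castSucc : Fin (n + 1)) + 1 = i.succ := Fin.coeSucc_eq_succ
      have h2 : |(f ((i.castSucc : Fin (n + 1)) + 1)).1 - (f i.castSucc).1| +
        |(f ((i.castSucc : Fin (n + 1)) + 1)).2 - (f i.castSucc).2| = 1 := h1
      rw [e] at h2
      exact h2
    · have h1 := hs (Fin.last n)
      have e : (Fin.last n : Fin (n + 1)) + 1 = 0 := Fin.last_add_one n
      have h2 : |(f ((Fin.last n : Fin (n + 1)) + 1)).1 - (f (Fin.last n)).1| +
        |(f ((Fin.last n : Fin (n + 1)) + 1)).2 - (f (Fin.last n)).2| = 1 := h1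
      rw [e, h0'] at h2
      simpa using h2
  · rintro ⟨⟨h0, hs, hinj⟩, hc⟩
    refine ⟨h0, hinj, ?_⟩
    have key : ∀ i : Fin (n + 1), |(f (i + 1)).1 - (f i).1| + |(f (i + 1)).2 - (f i).2| = 1 := by
      intro i
      induction i using Fin.lastCases with
      | last =>
        rw [Fin.last_add_one n, h0]
        simpa using hc
      | cast i =>
        rw [Fin.coeSucc_eq_succ]
        exact hs i
    exact key

lemma sq_iff (a b : ℤ) : ((a : ℝ) ^ 2 + (b : ℝ) ^ 2 = 1) ↔ |a| + |b| = 1 := by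
  have h : ((a : ℝ) ^ 2 + (b : ℝ) ^ 2 = 1) ↔ a ^ 2 + b ^ 2 = 1 := by
    constructor
    · intro h
      exact_mod_cast h
    · intro h
      exact_mod_cast h
  rw [h]
  constructor
  · intro h
    have ha : |a| ≤ 1 := by
      rw [← sq_le_one_iff_abs_le_one]
      nlinarith [sq_nonneg b]
    have hb : |b| ≤ 1 := by
      rw [← sq_le_one_iff_abs_le_one]
      nlinarith [sq_nonneg a]
    obtain ⟨a1, a2⟩ := abs_le.1 ha
    obtain ⟨b1, b2⟩ := abs_le.1 hb
    interval_cases a <;> interval_cases b <;> simp_all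
  · intro h
    have ha : |a| ≤ 1 := by have := abs_nonneg b; linarith
    have hb : |b| ≤ 1 := by have := abs_nonneg a; linarith
    obtain ⟨a1, a2⟩ := abs_le.1 ha
    obtain ⟨b1, b2⟩ := abs_le.1 hb
    interval_cases a <;> interval_cases b <;> simp_all

lemma image_eq (n : ℕ) : pth n '' (KP n : Set (List Dir)) = {f | IsLoop (n + 1) f} := by
  ext f
  constructor
  · rintro ⟨w, hw, rfl⟩
    rw [Finset.mem_coe, KP, Finset.mem_filter] at hw
    refine (isLoop_iff n _).2 ⟨pth_saw hw.1, ?_⟩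
    rw [pth_last hw.1]
    exact (sq_iff _ _).1 hw.2
  · intro h
    obtain ⟨h1, h2⟩ := (isLoop_iff n f).1 h
    refine ⟨wordOf n f, ?_, pth_wordOf h1⟩
    rw [Finset.mem_coe, KP, Finset.mem_filter]
    refine ⟨wordOf_mem h1, ?_⟩
    have h3 := pth_last (wordOf_mem h1)
    rw [pth_wordOf h1] at h3
    rw [h3] at h2
    exact (sq_iff _ _).2 h2

lemma injOn (n : ℕ) : Set.InjOn (pth n) (KP n : Set (List Dir)) :=
  (pth_injOn n).mono (by
    intro w hw
    rw [Finset.mem_coe, KP, Finset.mem_filter] at hw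
    exact hw.1)

end CONV

open CONV in
theorem CONV_proof : S_conv := by
  intro N hN
  obtain ⟨n, hn⟩ : ∃ n, 2 * N = n + 1 := ⟨2 * N - 1, by omega⟩
  rw [hn]
  have e : n + 1 - 1 = n := rfl
  rw [e]
  refine ⟨?_, ?_, ?_⟩
  · intro F
    have h1 : ∑ᶠ f ∈ {f : ZMod (n + 1) → ℤ × ℤ | IsLoop (n + 1) f}, F f =
        ∑ᶠ f ∈ pth n '' (KP n : Set (List Dir)), F f := by
      rw [image_eq]
      rfl
    rw [h1, finsum_mem_image (injOn n), finsum_mem_coe_finset]
    rfl
  · have h1 : {f : ZMod (n + 1) → ℤ × ℤ | IsLoop (n + 1) f} =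
        pth n '' (KP n : Set (List Dir)) := by
      rw [image_eq]
    rw [h1]
    exact ((injOn n).ncard_image).trans (Set.ncard_coe_finset _)
  · intro w hw
    have h1 : pth n w ∈ {f | IsLoop (n + 1) f} := by
      rw [← image_eq]
      exact ⟨w, hw, rfl⟩
    exact h1

end Pool.Agent.H739K
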