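import Pool.Agent.H739K.Goals

/-!
# Ratio of the polygon counts
-/

set_option autoImplicit false

namespace Pool.Agent.H739K

open Finset Pool.Agent.H976R2 Pool.Agent.H924P
open scoped Classical

lemma nice_one (m : ℕ) : Nice 0 m (fun _ => 1) := by
  refine ⟨fun _ _ _ _ _ => le_rfl, fun _ _ _ _ _ => ?_, fun _ _ _ _ _ => ?_⟩
  · have h : (1 : ℝ) ≤ (m : ℝ) + 5 := by
      have : (0 : ℝ) ≤ m := Nat.cast_nonneg _
      linarith
    have h2 : (1 : ℝ) ≤ ((m : ℝ) + 5) ^ 3 := one_le_pow₀ h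
    linarith
  · simp

lemma rt_le_rN {N : ℕ} (hN : 2 ≤ N) : rt (2 * N - 1) ≤ 32 * rN N := by
  have hNr : (2 : ℝ) ≤ N := by exact_mod_cast hN
  have hlog : 0 ≤ Real.log N := Real.log_nonneg (by linarith)
  have hc : ((2 * N - 1 : ℕ) : ℝ) = 2 * N - 1 := by
    rw [Nat.cast_sub (by omega)]
    push_cast
    ring
  unfold rt rN
  rw [hc]
  have h1 : Real.log (2 * N - 1) ≤ 2 * Real.log N := by
    rw [show (2 : ℝ) * Real.log N = Real.log ((N : ℝ) ^ 2) by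
      rw [Real.log_pow]; push_cast; ring]
    apply Real.log_le_log (by linarith)
    nlinarith [sq_nonneg ((N : ℝ) - 1)]
  have h0 : 0 ≤ Real.log (2 * (N : ℝ) - 1) := Real.log_nonneg (by linarith)
  have h2 : (Real.log (2 * N - 1)) ^ 9 / (2 * (N : ℝ) - 1) ≤
      (32 : ℝ) ^ 2 * ((Real.log N) ^ 9 / N) := by
    have h3 : (Real.log (2 * N - 1)) ^ 9 ≤ (2 * Real.log N) ^ 9 := pow_le_pow_left₀ h0 h1 9
    have h4 : (Real.log (2 * N - 1)) ^ 9 / (2 * (N : ℝ) - 1) ≤ (2 * Real.log N) ^ 9 / N := by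
      apply div_le_div₀ (by positivity) h3 (by linarith) (by linarith)
    refine h4.trans ?_
    rw [mul_pow, mul_div_assoc]
    have : 0 ≤ (Real.log N) ^ 9 / (N : ℝ) := by positivity
    nlinarith
  calc Real.sqrt ((Real.log (2 * N - 1)) ^ 9 / (2 * (N : ℝ) - 1))
      ≤ Real.sqrt ((32 : ℝ) ^ 2 * ((Real.log N) ^ 9 / N)) := Real.sqrt_le_sqrt h2
    _ = 32 * Real.sqrt ((Real.log N) ^ 9 / N) := by
        rw [Real.sqrt_mul (by positivity), Real.sqrt_sq (by norm_num)]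

lemma inv_le_rN {N : ℕ} (hN : 2 ≤ N) : 1 / ((N : ℝ) + 1) ≤ 6 * rN N := by
  have hNr : (2 : ℝ) ≤ N := by exact_mod_cast hN
  unfold rN
  have hl : (0.69 : ℝ) ≤ Real.log N := by
    have h1 : Real.log 2 ≤ Real.log N := Real.log_le_log (by norm_num) hNr
    have h2 := Real.log_two_gt_d9
    linarith
  have h9 : (0.69 : ℝ) ^ 9 ≤ (Real.log N) ^ 9 := pow_le_pow_left₀ (by norm_num) hl 9
  have hN0 : (0 : ℝ) < N := by linarith
  have h3 : (1 / (6 * ((N : ℝ) + 1))) ^ 2 ≤ (Real.log N) ^ 9 / N := by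
    rw [le_div_iff₀ hN0, div_pow, one_pow, mul_pow]
    rw [div_mul_eq_mul_div, one_mul, div_le_iff₀ (by positivity)]
    have h5 : (N : ℝ) ≤ ((N : ℝ) + 1) ^ 2 := by nlinarith
    have h6 : (1 : ℝ) ≤ (Real.log N) ^ 9 * 6 ^ 2 := by
      have : (1 : ℝ) ≤ (0.69 : ℝ) ^ 9 * 6 ^ 2 := by norm_num
      nlinarith
    have h7 : 0 ≤ ((N : ℝ) + 1) ^ 2 := by positivity
    nlinarith
  have h4 : 1 / (6 * ((N : ℝ) + 1)) ≤ Real.sqrt ((Real.log N) ^ 9 / N) :=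
    Real.le_sqrt_of_sq_le h3
  have h8 : 1 / ((N : ℝ) + 1) = 6 * (1 / (6 * ((N : ℝ) + 1))) := by
    field_simp
  rw [h8]
  linarith

lemma card_KP_eq (hc : S_conv) {N : ℕ} (hN : 2 ≤ N) :
    ((KP (2 * N - 1)).card : ℝ) = 4 * (N : ℝ) * H981.PP N := by
  obtain ⟨n, rfl⟩ : ∃ n, N = n + 1 := ⟨N - 1, by omega⟩
  have h1 := card_loops n
  have h2 := (hc (n + 1) hN).2.1
  rw [← h2]
  have h3 : Nat.card {f : ZMod (2 * (n + 1)) → ℤ × ℤ // IsLoop (2 * (n + 1)) f} =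
      {f : ZMod (2 * (n + 1)) → ℤ × ℤ | IsLoop (2 * (n + 1)) f}.ncard :=
    Nat.card_coe_set_eq _
  rw [h3] at h1
  exact h1

lemma PP_pos' {N : ℕ} (hN : 2 ≤ N) : 0 < H981.PP N := by
  obtain ⟨n, rfl⟩ : ∃ n, N = n + 1 := ⟨N - 1, by omega⟩
  have h1 := loops_pos (n := n) (by omega)
  rw [card_loops] at h1
  by_contra h
  push Not at h
  have h2 : (0 : ℝ) < 4 * ((n + 1 : ℕ) : ℝ) := by positivity
  have h3 : 4 * ((n + 1 : ℕ) : ℝ) * H981.PP (n + 1) ≤ 0 :=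
    mul_nonpos_of_nonneg_of_nonpos h2.le h
  linarith

theorem F1_proof (h : S_main) (_hb : S_bnd) (hc : S_conv) : S_F1 := by
  obtain ⟨C, hC⟩ := h 0 le_rfl
  refine ⟨H981.mu ^ 2 * (32 * |C| + 6), ?_⟩
  intro N hN
  have hmu := H981.mu_pos
  have h1 := hC (2 * N - 1) (fun _ => 1) (by omega) (by omega) (fun m _ _ _ => nice_one m)
  have e1 : 2 * N - 1 + 2 = 2 * (N + 1) - 1 := by omega
  have e2 : ∀ n, mm (fun _ => 1) n = ((KP n).card : ℝ) := by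
    intro n
    unfold mm
    simp
  rw [e2, e2, e1, card_KP_eq hc hN, card_KP_eq hc (by omega : 2 ≤ N + 1)] at h1
  have hp := PP_pos' hN
  have hp' := PP_pos' (by omega : 2 ≤ N + 1)
  have hNr : (2 : ℝ) ≤ N := by exact_mod_cast hN
  have hr : rt (2 * N - 1) ≤ 32 * rN N := rt_le_rN hN
  have hi := inv_le_rN hN
  have hrt : 0 ≤ rt (2 * N - 1) := Real.sqrt_nonneg _
  have h2 : C * rt (2 * N - 1) ≤ |C| * (32 * rN N) :=
    (mul_le_mul_of_nonneg_right (le_abs_self C) hrt).trans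
      (mul_le_mul_of_nonneg_left hr (abs_nonneg C))
  set x := H981.PP (N + 1) / H981.PP N with hx
  have e3 : 4 * ((N + 1 : ℕ) : ℝ) * H981.PP (N + 1) / (H981.mu ^ 2 * (4 * (N : ℝ) * H981.PP N)) =
      x / H981.mu ^ 2 * (((N : ℝ) + 1) / N) := by
    rw [hx]
    push_cast
    field_simp
  rw [e3] at h1
  have h3 := h1.trans h2
  -- x / mu^2 = (N/(N+1)) * r
  have e4 : x - H981.mu ^ 2 = H981.mu ^ 2 * (((N : ℝ) / (N + 1)) *
      (x / H981.mu ^ 2 * (((N : ℝ) + 1) / N) - 1) - 1 / ((N : ℝ) + 1)) := by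
    field_simp
    ring
  rw [e4, abs_mul, abs_of_pos (by positivity : 0 < H981.mu ^ 2), mul_assoc]
  refine mul_le_mul_of_nonneg_left ?_ (by positivity)
  have h4 : |((N : ℝ) / (N + 1)) * (x / H981.mu ^ 2 * (((N : ℝ) + 1) / N) - 1)| ≤
      |C| * (32 * rN N) := by
    rw [abs_mul, abs_of_nonneg (by positivity : 0 ≤ (N : ℝ) / (N + 1))]
    have h5 : (N : ℝ) / (N + 1) ≤ 1 := by
      rw [div_le_one (by linarith)]
      linarith
    have h6 := abs_nonneg (x / H981.mu ^ 2 * (((N : ℝ) + 1) / N) - 1)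
    nlinarith
  have h7 : |1 / ((N : ℝ) + 1)| ≤ 6 * rN N := by
    rw [abs_of_nonneg (by positivity)]
    exact hi
  have h8 := abs_sub (((N : ℝ) / (N + 1)) * (x / H981.mu ^ 2 * (((N : ℝ) + 1) / N) - 1))
    (1 / ((N : ℝ) + 1))
  nlinarith

end Pool.Agent.H739K
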