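import Pool.Agent.H739K.Goals

/-!
# The mean area is at least a quarter of the perimeter
-/

set_option autoImplicit false

namespace Pool.Agent.H739K

open Finset Pool.Agent.H976R2 Pool.Agent.H924P
open scoped Classical

/-- horizontal plus vertical steps -/
lemma hor_add_ver {m : ℕ} [NeZero m] {f : ZMod m → ℤ × ℤ} (hf : IsLoop m f) :
    Nat.card {k : ZMod m // (f (k + 1)).2 = (f k).2} +
      Nat.card {k : ZMod m // (f (k + 1)).1 = (f k).1} = m := by
  have h1 : ∀ k : ZMod m, ((f (k + 1)).2 = (f k).2) ↔ ¬ ((f (k + 1)).1 = (f k).1) := by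
    intro k
    have h := hf.2.2 k
    constructor
    · intro h2 h3
      rw [h2, h3] at h
      simp at h
    · intro h2
      have h3 : 1 ≤ |(f (k + 1)).1 - (f k).1| := by
        rcases lt_or_gt_of_ne h2 with h4 | h4
        · rw [abs_of_neg (by omega)]; omega
        · rw [abs_of_pos (by omega)]; omega
      have h4 : |(f (k + 1)).2 - (f k).2| = 0 := by
        have := abs_nonneg ((f (k + 1)).2 - (f k).2)
        omega
      rw [abs_eq_zero] at h4
      omega
  rw [Nat.card_eq_fintype_card, Nat.card_eq_fintype_card, Fintype.card_subtype,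
    Fintype.card_subtype]
  have h2 : (Finset.univ.filter fun k : ZMod m => (f (k + 1)).2 = (f k).2) =
      Finset.univ.filter fun k : ZMod m => ¬ ((f (k + 1)).1 = (f k).1) := by
    ext k
    simp only [Finset.mem_filter, Finset.mem_univ, true_and]
    exact h1 k
  rw [h2, add_comm, Finset.card_filter_add_card_filter_not, Finset.card_univ, ZMod.card]

theorem F2a_proof (hh : S_hor) (hs : S_swap) : S_F2a := by
  intro N hN
  have hm : NeZero (2 * N) := ⟨by omega⟩
  have hfin := finite_loops (2 * N)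
  set S := hfin.toFinset with hS
  have hmem : ∀ f, f ∈ S ↔ IsLoop (2 * N) f := fun f => by
    rw [hS, Set.Finite.mem_toFinset]; rfl
  have hsum : ∀ F : (ZMod (2 * N) → ℤ × ℤ) → ℝ,
      ∑ᶠ f ∈ {f : ZMod (2 * N) → ℤ × ℤ | IsLoop (2 * N) f}, F f = ∑ f ∈ S, F f := by
    intro F
    exact finsum_mem_eq_finite_toFinset_sum F hfin
  have hcard : ({f : ZMod (2 * N) → ℤ × ℤ | IsLoop (2 * N) f}.ncard : ℝ) = (S.card : ℝ) := by
    rw [Set.ncard_eq_toFinset_card _ hfin]
  have hpos : (0 : ℝ) < S.card := by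
    obtain ⟨n, rfl⟩ : ∃ n, N = n + 1 := ⟨N - 1, by omega⟩
    have h1 := loops_pos (n := n) (by omega)
    have h2 : Nat.card {f : ZMod (2 * (n + 1)) → ℤ × ℤ // IsLoop (2 * (n + 1)) f} = S.card :=
      Nat.subtype_card S hmem
    rw [h2] at h1
    exact h1
  unfold MA me
  rw [hsum, hcard, le_div_iff₀ hpos]
  -- horizontal steps
  let hc : (ZMod (2 * N) → ℤ × ℤ) → ℝ := fun f =>
    (Nat.card {k : ZMod (2 * N) // (f (k + 1)).2 = (f k).2} : ℝ)
  have h1 := hs (2 * N) (by omega) hc
  rw [hsum, hsum] at h1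
  have h2 : ∑ f ∈ S, hc f + ∑ f ∈ S, hc (fun k => ((f k).2, (f k).1)) = ∑ f ∈ S, (2 * N : ℝ) := by
    rw [← Finset.sum_add_distrib]
    refine Finset.sum_congr rfl fun f hf => ?_
    have h3 := hor_add_ver ((hmem f).1 hf)
    simp only [hc]
    exact_mod_cast h3
  rw [h1, Finset.sum_const, nsmul_eq_mul] at h2
  have h3 : ∑ f ∈ S, hc f ≤ ∑ f ∈ S, 2 * (area (2 * N) f : ℝ) := by
    refine Finset.sum_le_sum fun f hf => ?_
    have h4 := hh (2 * N) f (by omega) ((hmem f).1 hf)
    simp only [hc]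
    exact_mod_cast h4
  rw [← Finset.mul_sum] at h3
  nlinarith

end Pool.Agent.H739K
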