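import Pool.Agent.H739K.Defs

/-!
# The number of horizontal edges of a loop is at most twice the enclosed area
-/

set_option autoImplicit false

namespace Pool.Agent.H739K

open Finset Pool.Agent.H976R2 Pool.Agent.H924P
open scoped Classical

namespace HORaux

/-- the edge `k` joins the columns `a` and `a + 1` -/
def Cr (m : ℕ) (f : ZMod m → ℤ × ℤ) (a : ℤ) (k : ZMod m) : Prop :=
  ((f k).1 = a ∧ (f (k + 1)).1 = a + 1) ∨ ((f k).1 = a + 1 ∧ (f (k + 1)).1 = a)

variable {m : ℕ} {f : ZMod m → ℤ × ℤ}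

theorem Cr.flat (hs : ∀ i : ZMod m, |(f (i+1)).1 - (f i).1| + |(f (i+1)).2 - (f i).2| = 1)
    {a : ℤ} {k : ZMod m} (h : Cr m f a k) : (f (k + 1)).2 = (f k).2 := by
  have h1 := hs k
  have h2 : |(f (k+1)).1 - (f k).1| = 1 := by
    rcases h with ⟨h3, h4⟩ | ⟨h3, h4⟩
    · rw [h3, h4]
      simp
    · rw [h3, h4]
      simp
  rw [h2] at h1
  have h3 : |(f (k+1)).2 - (f k).2| = 0 := by linarith
  rw [abs_eq_zero] at h3
  linarith

theorem Cr.uniq (hm : 4 ≤ m) (hinj : Function.Injective f)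
    (hs : ∀ i : ZMod m, |(f (i+1)).1 - (f i).1| + |(f (i+1)).2 - (f i).2| = 1)
    {a : ℤ} {j k : ZMod m} (hj : Cr m f a j) (hk : Cr m f a k) (h : (f j).2 = (f k).2) :
    j = k := by
  have h2 : (2 : ZMod m) ≠ 0 := by
    intro h
    have h3 : (m : ℕ) ∣ 2 := (ZMod.natCast_eq_zero_iff 2 m).mp (by exact_mod_cast h)
    have := Nat.le_of_dvd (by norm_num) h3
    omega
  have hj2 := hj.flat hs
  have hk2 := hk.flat hs
  rcases hj with ⟨h3, h4⟩ | ⟨h3, h4⟩ <;> rcases hk with ⟨h5, h6⟩ | ⟨h5, h6⟩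
  · exact hinj (Prod.ext (h3.trans h5.symm) h)
  · exfalso
    have e1 : j = k + 1 := hinj (Prod.ext (h3.trans h6.symm) (h.trans hk2.symm))
    have e2 : j + 1 = k := hinj (Prod.ext (h4.trans h5.symm) (hj2.trans h))
    apply h2
    have : k + 1 + 1 = k := by rw [← e1]; exact e2
    have h7 : k + 2 = k + 0 := by
      calc k + 2 = k + 1 + 1 := by ring
        _ = k + 0 := by rw [this, add_zero]
    exact add_left_cancel h7
  · exfalso
    have e1 : j = k + 1 := hinj (Prod.ext (h3.trans h6.symm) (h.trans hk2.symm))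
    have e2 : j + 1 = k := hinj (Prod.ext (h4.trans h5.symm) (hj2.trans h))
    apply h2
    have : k + 1 + 1 = k := by rw [← e1]; exact e2
    have h7 : k + 2 = k + 0 := by
      calc k + 2 = k + 1 + 1 := by ring
        _ = k + 0 := by rw [this, add_zero]
    exact add_left_cancel h7
  · exact hinj (Prod.ext (h3.trans h5.symm) h)

theorem card_above [NeZero m] (hm : 4 ≤ m) (hinj : Function.Injective f)
    (hs : ∀ i : ZMod m, |(f (i+1)).1 - (f i).1| + |(f (i+1)).2 - (f i).2| = 1)
    {a b : ℤ} {k : ZMod m} (hk : Cr m f a k) (hb : (f k).2 = b) :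
    Nat.card {j : ZMod m // Above m f a (b - 1) j} =
      Nat.card {j : ZMod m // Above m f a b j} + 1 := by
  rw [Nat.card_eq_fintype_card, Nat.card_eq_fintype_card, Fintype.card_subtype,
    Fintype.card_subtype]
  have h1 : (univ.filter fun j : ZMod m => Above m f a (b - 1) j) =
      insert k (univ.filter fun j : ZMod m => Above m f a b j) := by
    ext j
    simp only [mem_filter, mem_univ, true_and, mem_insert]
    constructor
    · rintro ⟨h2, h3⟩
      by_cases h4 : (f j).2 = b
      · left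
        exact Cr.uniq hm hinj hs h2 hk (h4.trans hb.symm)
      · right
        exact ⟨h2, by omega⟩
    · rintro (rfl | ⟨h2, h3⟩)
      · exact ⟨hk, by omega⟩
      · exact ⟨h2, by omega⟩
  rw [h1, card_insert_of_notMem]
  simp only [mem_filter, mem_univ, true_and]
  rintro ⟨_, h3⟩
  omega

theorem encl_iff [NeZero m] (hm : 4 ≤ m) (hinj : Function.Injective f)
    (hs : ∀ i : ZMod m, |(f (i+1)).1 - (f i).1| + |(f (i+1)).2 - (f i).2| = 1)
    {a b : ℤ} {k : ZMod m} (hk : Cr m f a k) (hb : (f k).2 = b) :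
    Encl m f (a, b - 1) ↔ ¬ Encl m f (a, b) := by
  unfold Encl
  rw [card_above hm hinj hs hk hb, Nat.odd_add_one]

theorem finite_encl [NeZero m]
    (hs : ∀ i : ZMod m, |(f (i+1)).1 - (f i).1| + |(f (i+1)).2 - (f i).2| = 1) :
    Finite {c : ℤ × ℤ // Encl m f c} := by
  set L : ℤ := ∑ i, (|(f i).1| + |(f i).2|) with hL
  have h1 : ∀ i, |(f i).1| + |(f i).2| ≤ L := fun i =>
    Finset.single_le_sum (f := fun i => |(f i).1| + |(f i).2|)
      (fun j _ => add_nonneg (abs_nonneg _) (abs_nonneg _)) (Finset.mem_univ i)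
  have hx : ∀ i, |(f i).1| ≤ L := fun i => by
    have := h1 i
    have := abs_nonneg (f i).2
    linarith
  have hy : ∀ i, |(f i).2| ≤ L := fun i => by
    have := h1 i
    have := abs_nonneg (f i).1
    linarith
  have h2 : {c : ℤ × ℤ | Encl m f c} ⊆ (Set.Ico (-L) L) ×ˢ (Set.Ico (-L) L) := by
    intro c hc
    exact encl_box hs hx hy hc
  exact ((Set.finite_Ico (-L) L).prod (Set.finite_Ico (-L) L)).subset h2

end HORaux

open HORaux in
theorem HOR_proof : S_hor := by
  intro m f hm hf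
  haveI : NeZero m := ⟨by omega⟩
  obtain ⟨-, hinj, hs⟩ := hf
  haveI := finite_encl (f := f) hs
  let a : ZMod m → ℤ := fun k => min (f k).1 (f (k + 1)).1
  have hcr : ∀ k : ZMod m, (f (k + 1)).2 = (f k).2 → Cr m f (a k) k := by
    intro k hk
    have h1 := hs k
    rw [hk, sub_self, abs_zero, add_zero] at h1
    simp only [a]
    rcases abs_eq (by norm_num : (0 : ℤ) ≤ 1) |>.mp h1 with h2 | h2
    · left
      rw [min_eq_left (by omega)]
      exact ⟨rfl, by omega⟩
    · right
      rw [min_eq_right (by omega)]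
      exact ⟨by omega, rfl⟩
  have hA : area m f = Nat.card {c : ℤ × ℤ // Encl m f c} := rfl
  let Φ : {k : ZMod m // (f (k + 1)).2 = (f k).2} → {c : ℤ × ℤ // Encl m f c} × Bool :=
    fun k => if h : Encl m f (a k.1, (f k.1).2) then (⟨(a k.1, (f k.1).2), h⟩, true)
      else (⟨(a k.1, (f k.1).2 - 1), (encl_iff hm hinj hs (hcr k.1 k.2) rfl).mpr h⟩, false)
  have hΦ : Function.Injective Φ := by
    rintro ⟨k, hk⟩ ⟨j, hj⟩ h
    apply Subtype.ext
    simp only [Φ] at h
    have key : a k = a j → (f k).2 = (f j).2 → k = j := by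
      intro h1 h2
      have h3 := hcr k hk
      rw [h1] at h3
      exact Cr.uniq hm hinj hs h3 (hcr j hj) h2
    split_ifs at h with h1 h2 h2
    · have h3 := congrArg (fun p => p.1.1) h
      simp only [Prod.mk.injEq] at h3
      exact key h3.1 h3.2
    · simp at h
    · simp at h
    · have h3 := congrArg (fun p => p.1.1) h
      simp only [Prod.mk.injEq] at h3
      exact key h3.1 (by omega)
  have h1 := Nat.card_le_card_of_injective Φ hΦ
  rw [Nat.card_prod, Nat.card_eq_fintype_card (α := Bool), Fintype.card_bool] at h1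
  rw [hA]
  linarith

end Pool.Agent.H739K
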