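import Pool.Agent.H739K.Defs

/-!
# The ratio theorem for nice weights from the three ingredients
-/

set_option autoImplicit false

namespace Pool.Agent.H739K

open Finset Pool.Agent.H976R2 Pool.Agent.H924P
open scoped Classical

private theorem main_log {m : ℕ} (hm : 3 ≤ m) : 1 ≤ Real.log m := by
  have h3 : (3 : ℝ) ≤ m := by exact_mod_cast hm
  rw [Real.le_log_iff_exp_le (by linarith)]
  have := Real.exp_one_lt_d9
  linarith

private theorem main_pow_one {x : ℝ} (hx : 1 ≤ x) : x ≤ x ^ 9 := by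
  have h1 : (1 : ℝ) ≤ x ^ 8 := one_le_pow₀ hx
  have h2 : x ^ 9 = x * x ^ 8 := by ring
  rw [h2]
  nlinarith

private theorem main_cube {m : ℕ} (hm : 3 ≤ m) :
    100 * ((m : ℝ) + 5) ^ 3 ≤ Real.exp (11 * (Real.log m) ^ 9) := by
  have h3 : (3 : ℝ) ≤ m := by exact_mod_cast hm
  have hm0 : (0 : ℝ) < m := by linarith
  have h1 : 100 * ((m : ℝ) + 5) ^ 3 ≤ 2700 * (m : ℝ) ^ 3 := by
    have h4 : (m : ℝ) + 5 ≤ 3 * m := by linarith
    have h5 : ((m : ℝ) + 5) ^ 3 ≤ (3 * (m : ℝ)) ^ 3 := pow_le_pow_left₀ (by linarith) h4 3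
    nlinarith
  have h8 : (2700 : ℝ) ≤ Real.exp 8 := by
    have e1 : Real.exp 8 = Real.exp 1 ^ 8 := by
      rw [← Real.exp_nat_mul]; norm_num
    rw [e1]
    have e2 : (2.718 : ℝ) ≤ Real.exp 1 := by
      have := Real.exp_one_gt_d9
      linarith
    have e3 : (2.718 : ℝ) ^ 8 ≤ Real.exp 1 ^ 8 := pow_le_pow_left₀ (by norm_num) e2 8
    refine le_trans ?_ e3
    norm_num
  have h6 : (m : ℝ) ^ 3 = Real.exp (3 * Real.log m) := by
    have : Real.exp (3 * Real.log m) = Real.exp (Real.log m) ^ 3 := by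
      rw [← Real.exp_nat_mul]; norm_num
    rw [this, Real.exp_log hm0]
  have h7 : 2700 * (m : ℝ) ^ 3 ≤ Real.exp (8 + 3 * Real.log m) := by
    rw [Real.exp_add, ← h6]
    exact mul_le_mul_of_nonneg_right h8 (by positivity)
  refine h1.trans (h7.trans (Real.exp_le_exp.2 ?_))
  have hl := main_log hm
  have hl9 := main_pow_one hl
  linarith

private theorem main_mem {n : ℕ} {w : List Dir} (hw : w ∈ KP n) :
    w.length = n ∧ Saw w ∧ sq w = 1 := by
  unfold KP at hw
  rw [mem_filter, mem_SW] at hw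
  exact ⟨hw.1.1, hw.1.2, hw.2⟩

theorem MAIN_proof (h1 : S_rate) (h2 : S_bnd) (h3 : S_ratio) : S_main := by
  intro L hL
  obtain ⟨D, hD, hratio⟩ := h3 L hL
  obtain ⟨hmu, K0, hK0, hbnd⟩ := h2
  have hmu1 : (1 : ℝ) ≤ H981.mu := by linarith
  have hmu0 : (0 : ℝ) < H981.mu := by linarith
  obtain ⟨C, hC⟩ := h1 (K0 + 11) D (by linarith) hD
  refine ⟨C, fun n φ hn hodd hnice => ?_⟩
  -- the window consists of odd numbers at least 3
  have hwin : ∀ m : ℕ, n ≤ 2 * m → m % 2 = n % 2 → 3 ≤ m ∧ m % 2 = 1 := by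
    intro m hm1 hm2
    omega
  have hcard : ∀ m : ℕ, n ≤ 2 * m → m ≤ 2 * n → m % 2 = n % 2 →
      ((KP m).card : ℝ) ≤ mm φ m ∧ mm φ m ≤ 100 * ((m : ℝ) + 5) ^ 3 * ((KP m).card : ℝ) := by
    intro m hm1 hm2 hm3
    obtain ⟨h3m, hmodd⟩ := hwin m hm1 hm3
    have hN := hnice m h3m hm1 hm2
    constructor
    · unfold mm
      have : ((KP m).card : ℝ) = ∑ w ∈ KP m, (1 : ℝ) := by simp
      rw [this]
      refine Finset.sum_le_sum fun w hw => ?_
      obtain ⟨hl, hs, hq⟩ := main_mem hw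
      exact hN.one_le w (by omega) (by omega) hs hq
    · unfold mm
      have : 100 * ((m : ℝ) + 5) ^ 3 * ((KP m).card : ℝ) =
          ∑ w ∈ KP m, 100 * ((m : ℝ) + 5) ^ 3 := by
        rw [Finset.sum_const, nsmul_eq_mul]; ring
      rw [this]
      refine Finset.sum_le_sum fun w hw => ?_
      obtain ⟨hl, hs, hq⟩ := main_mem hw
      exact hN.le w (by omega) (by omega) hs hq
  have key := hC n (fun m => mm φ m / H981.mu ^ m) hn ?_ ?_
  · have e1 : mm φ (n + 2) / (H981.mu ^ 2 * mm φ n) - 1 =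
        (fun m => mm φ m / H981.mu ^ m) (n + 2) / (fun m => mm φ m / H981.mu ^ m) n - 1 := by
      have hp : (0 : ℝ) < H981.mu ^ n := by positivity
      simp only
      rw [pow_add]
      by_cases h0 : mm φ n = 0
      · rw [h0]; simp
      · field_simp
    rw [e1]
    exact key
  · intro m hm1 hm2 hm3
    obtain ⟨h3m, hmodd⟩ := hwin m hm1 hm3
    obtain ⟨c1, c2⟩ := hcard m hm1 hm2 hm3
    obtain ⟨d1, d2⟩ := hbnd m h3m hmodd
    have hp : (0 : ℝ) < H981.mu ^ m := by positivity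
    have hl := main_log h3m
    have hl9 : 0 ≤ (Real.log m) ^ 9 := by positivity
    constructor
    · rw [le_div_iff₀ hp]
      have e1 : Real.exp (-((K0 + 11) * (Real.log m) ^ 9)) ≤
          Real.exp (-(K0 * (Real.log m) ^ 9)) := by
        apply Real.exp_le_exp.2
        nlinarith
      calc Real.exp (-((K0 + 11) * (Real.log m) ^ 9)) * H981.mu ^ m
          ≤ Real.exp (-(K0 * (Real.log m) ^ 9)) * H981.mu ^ m :=
            mul_le_mul_of_nonneg_right e1 hp.le
        _ = H981.mu ^ m * Real.exp (-(K0 * (Real.log m) ^ 9)) := by ring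
        _ ≤ ((KP m).card : ℝ) := d1
        _ ≤ mm φ m := c1
    · rw [div_le_iff₀ hp]
      have e2 := main_cube h3m
      have e3 : Real.exp ((K0 + 11) * (Real.log m) ^ 9) =
          Real.exp (11 * (Real.log m) ^ 9) * Real.exp (K0 * (Real.log m) ^ 9) := by
        rw [← Real.exp_add]; congr 1; ring
      have hc0 : (0 : ℝ) ≤ ((KP m).card : ℝ) := Nat.cast_nonneg _
      calc mm φ m ≤ 100 * ((m : ℝ) + 5) ^ 3 * ((KP m).card : ℝ) := c2
        _ ≤ Real.exp (11 * (Real.log m) ^ 9) * (H981.mu ^ m * Real.exp (K0 * (Real.log m) ^ 9)) :=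
            mul_le_mul e2 d2 hc0 (Real.exp_pos _).le
        _ = Real.exp ((K0 + 11) * (Real.log m) ^ 9) * H981.mu ^ m := by rw [e3]; ring
  · intro m hm1 hm2 hm3
    obtain ⟨h3m, hmodd⟩ := hwin m hm1 hm3
    have hr := hratio m φ h3m hmodd (hnice m h3m hm1 (by omega))
    have hp : (0 : ℝ) < H981.mu ^ m := by positivity
    have hm0 : (0 : ℝ) < m := by
      have : (3 : ℝ) ≤ m := by exact_mod_cast h3m
      linarith
    have hmu4 : (1 : ℝ) ≤ H981.mu ^ 4 := one_le_pow₀ hmu1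
    have e1 : (mm φ (m + 2) / H981.mu ^ (m + 2)) ^ 2 =
        mm φ (m + 2) ^ 2 / (H981.mu ^ m * H981.mu ^ m * H981.mu ^ 4) := by
      rw [div_pow, ← pow_mul]; congr 1; ring
    have e2 : mm φ m / H981.mu ^ m * (mm φ (m + 4) / H981.mu ^ (m + 4)) =
        mm φ m * mm φ (m + 4) / (H981.mu ^ m * H981.mu ^ m * H981.mu ^ 4) := by
      rw [div_mul_div_comm]; congr 1; ring
    have e3 : D / m * (mm φ m / H981.mu ^ m) ^ 2 =
        D / m * mm φ m ^ 2 * H981.mu ^ 4 / (H981.mu ^ m * H981.mu ^ m * H981.mu ^ 4) := by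
      field_simp
    rw [e1, e2, e3, ← add_div]
    apply div_le_div_of_nonneg_right _ (by positivity)
    refine hr.trans ?_
    have h5 : 0 ≤ D / m * mm φ m ^ 2 := by positivity
    nlinarith

end Pool.Agent.H739K
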