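import Pool.Agent.H739K.Defs

set_option autoImplicit false
set_option linter.unusedVariables false

/-!
# T1: Kesten's ratio lemma with the rate, local and uniform (real analysis)
-/

namespace Pool.Agent.H739K

namespace RATE

variable {b : ℕ → ℝ} {A D : ℝ}

lemma half_exp {x : ℝ} (h0 : 0 ≤ x) (h1 : x ≤ 1) : Real.exp (x / 2) ≤ 1 + x := by
  have h2 : Real.exp (x / 2) ≤ 1 / (1 - x / 2) := by
    have h3 := Real.add_one_le_exp (-(x / 2))
    have h4 : 0 < 1 - x / 2 := by linarith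
    rw [le_div_iff₀ h4]
    calc Real.exp (x / 2) * (1 - x / 2) ≤ Real.exp (x / 2) * Real.exp (-(x / 2)) := by
          apply mul_le_mul_of_nonneg_left _ (Real.exp_pos _).le
          linarith
      _ = 1 := by rw [← Real.exp_add]; simp
  refine h2.trans ?_
  rw [div_le_iff₀ (by linarith)]
  nlinarith

lemma r_step {n : ℕ} (h1 : 0 < b n) (h2 : 0 < b (n + 2))
    (h3 : b (n + 2) ^ 2 ≤ b n * b (n + 4) + D / n * b n ^ 2) :
    (b (n + 2) / b n) ^ 2 ≤ b (n + 2) / b n * (b (n + 4) / b (n + 2)) + D / n := by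
  have h4 : b (n + 2) / b n * (b (n + 4) / b (n + 2)) + D / n
      = (b n * b (n + 4) + D / n * b n ^ 2) / b n ^ 2 := by
    field_simp
  rw [h4, div_pow]
  exact div_le_div_of_nonneg_right h3 (by positivity)

lemma upper (hD : 1 ≤ D) {n : ℕ} (hn : 3 ≤ n)
    (hb : ∀ m : ℕ, n ≤ 2 * m → m ≤ 2 * n → m % 2 = n % 2 →
      Real.exp (-A) ≤ b m ∧ b m ≤ Real.exp A)
    (hstep : ∀ m : ℕ, n ≤ 2 * m → m + 4 ≤ 2 * n → m % 2 = n % 2 →
      b (m + 2) ^ 2 ≤ b m * b (m + 4) + D / m * b m ^ 2)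
    {δ : ℝ} (hδ : 0 < δ) (hδ1 : δ ≤ 1) (h : 1 + δ ≤ b (n + 2) / b n) :
    δ ^ 2 * n ≤ 8 * D * (8 * A + 1) := by
  have hn' : (3 : ℝ) ≤ n := by exact_mod_cast hn
  have hn0 : (0 : ℝ) < n := by linarith
  have hD0 : 0 < D := by linarith
  have hpos : ∀ m : ℕ, n ≤ 2 * m → m ≤ 2 * n → m % 2 = n % 2 → 0 < b m :=
    fun m h1 h2 h3 => lt_of_lt_of_le (Real.exp_pos _) (hb m h1 h2 h3).1
  obtain ⟨J, hJ⟩ : ∃ J : ℕ, J = ⌊δ * n / (8 * D)⌋₊ := ⟨_, rfl⟩
  have hJle : (J : ℝ) ≤ δ * n / (8 * D) := by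
    rw [hJ]; exact Nat.floor_le (by positivity)
  have hJge : δ * n / (8 * D) - 1 ≤ J := by
    rw [hJ]
    have := Nat.lt_floor_add_one (δ * n / (8 * D))
    linarith
  have hJle' : (J : ℝ) * (8 * D) ≤ δ * n := by
    rwa [le_div_iff₀ (by positivity)] at hJle
  have hJn : 8 * J ≤ n := by
    have h0 : (0 : ℝ) ≤ J := Nat.cast_nonneg J
    have : (8 : ℝ) * J ≤ n := by nlinarith
    exact_mod_cast this
  -- ratios stay large
  have key : ∀ j : ℕ, j ≤ J →
      1 + δ - j * D / n ≤ b (n + 2 * j + 2) / b (n + 2 * j) := by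
    intro j
    induction j with
    | zero => intro _; simpa using h
    | succ j ih =>
      intro hj
      have h1 := ih (by omega)
      have p1 := hpos (n + 2 * j) (by omega) (by omega) (by omega)
      have p2 := hpos (n + 2 * j + 2) (by omega) (by omega) (by omega)
      have h2 := r_step p1 p2 (hstep (n + 2 * j) (by omega) (by omega) (by omega))
      have h3 : n + 2 * (j + 1) = n + 2 * j + 2 := by ring
      rw [h3]
      have hjD : (j : ℝ) * D / n ≤ δ := by
        rw [div_le_iff₀ hn0]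
        have hj1 : (j : ℝ) ≤ J := by exact_mod_cast (by omega : j ≤ J)
        have hj2 : (j : ℝ) * D ≤ J * D := mul_le_mul_of_nonneg_right hj1 hD0.le
        have hj3 : (0 : ℝ) ≤ J * D := by positivity
        nlinarith
      set ρ := b (n + 2 * j + 2) / b (n + 2 * j) with hρ
      set ρ' := b (n + 2 * j + 2 + 2) / b (n + 2 * j + 2) with hρ'
      have h5 : 1 ≤ ρ := by linarith
      have h6 : D / ((n + 2 * j : ℕ) : ℝ) ≤ D / n := by
        apply div_le_div_of_nonneg_left hD0.le hn0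
        push_cast
        have : (0 : ℝ) ≤ j := Nat.cast_nonneg j
        linarith
      have h7 : ρ * ρ ≤ ρ * (ρ' + D / n) := by
        have h8 : D / n ≤ ρ * (D / n) := le_mul_of_one_le_left (by positivity) h5
        have h2' : ρ ^ 2 ≤ ρ * ρ' + D / ((n + 2 * j : ℕ) : ℝ) := h2
        nlinarith
      have h9 : ρ ≤ ρ' + D / n := le_of_mul_le_mul_left h7 (by linarith)
      have h10 : ((j + 1 : ℕ) : ℝ) * D / n = j * D / n + D / n := by push_cast; ring
      rw [h10]
      linarith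
  have keyJ : ∀ j : ℕ, j ≤ J → 1 + δ / 2 ≤ b (n + 2 * j + 2) / b (n + 2 * j) := by
    intro j hj
    have h1 : (j : ℝ) * D / n ≤ δ / 2 := by
      rw [div_le_iff₀ hn0]
      have hj1 : (j : ℝ) ≤ J := by exact_mod_cast hj
      have hj2 : (j : ℝ) * D ≤ J * D := mul_le_mul_of_nonneg_right hj1 hD0.le
      have hj3 : (0 : ℝ) ≤ J * D := by positivity
      nlinarith
    have := key j hj
    linarith
  have prod : ∀ j : ℕ, j ≤ J → (1 + δ / 2) ^ j * b n ≤ b (n + 2 * j) := by
    intro j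
    induction j with
    | zero => intro _; simp
    | succ j ih =>
      intro hj
      have h1 := ih (by omega)
      have h2 := keyJ j (by omega)
      have h3 : 0 < b (n + 2 * j) := hpos _ (by omega) (by omega) (by omega)
      rw [le_div_iff₀ h3] at h2
      have h4 : n + 2 * (j + 1) = n + 2 * j + 2 := by ring
      rw [h4, pow_succ]
      calc (1 + δ / 2) ^ j * (1 + δ / 2) * b n = (1 + δ / 2) * ((1 + δ / 2) ^ j * b n) := by ring
        _ ≤ (1 + δ / 2) * b (n + 2 * j) := by gcongr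
        _ ≤ _ := h2
  have h1 := prod J le_rfl
  have h2 := (hb (n + 2 * J) (by omega) (by omega) (by omega)).2
  have h3 := (hb n (by omega) (by omega) rfl).1
  have h4 : Real.exp (J * (δ / 4)) ≤ (1 + δ / 2) ^ J := by
    have h5 := half_exp (x := δ / 2) (by positivity) (by linarith)
    calc Real.exp (J * (δ / 4)) = (Real.exp (δ / 2 / 2)) ^ J := by
          rw [← Real.exp_nat_mul]; congr 1; ring
      _ ≤ _ := pow_le_pow_left₀ (Real.exp_pos _).le h5 J
  have h5 : Real.exp (J * (δ / 4) + -A) ≤ Real.exp A := by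
    rw [Real.exp_add]
    calc Real.exp (J * (δ / 4)) * Real.exp (-A) ≤ (1 + δ / 2) ^ J * b n := by
          apply mul_le_mul h4 h3 (Real.exp_pos _).le (by positivity)
      _ ≤ _ := h1.trans h2
  have h6 : (J : ℝ) * (δ / 4) + -A ≤ A := Real.exp_le_exp.1 h5
  have h10 : (δ * n / (8 * D) - 1) * (δ / 4) ≤ 2 * A :=
    le_trans (mul_le_mul_of_nonneg_right hJge (by positivity)) (by linarith)
  have h12 : δ * (δ * n / (8 * D)) ≤ 8 * A + 1 := by nlinarith
  have h13 : δ ^ 2 * n = 8 * D * (δ * (δ * n / (8 * D))) := by field_simp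
  rw [h13]
  gcongr

lemma lower (hD : 1 ≤ D) {n : ℕ} (hn : 3 ≤ n)
    (hb : ∀ m : ℕ, n ≤ 2 * m → m ≤ 2 * n → m % 2 = n % 2 →
      Real.exp (-A) ≤ b m ∧ b m ≤ Real.exp A)
    (hstep : ∀ m : ℕ, n ≤ 2 * m → m + 4 ≤ 2 * n → m % 2 = n % 2 →
      b (m + 2) ^ 2 ≤ b m * b (m + 4) + D / m * b m ^ 2)
    {δ : ℝ} (hδ : 0 < δ) (hδ1 : δ ≤ 1 / 2) (h : b (n + 2) / b n ≤ 1 - δ) :
    δ ^ 2 * n ≤ 16 * D * (4 * A + 1) := by
  have hn' : (3 : ℝ) ≤ n := by exact_mod_cast hn
  have hn0 : (0 : ℝ) < n := by linarith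
  have hD0 : 0 < D := by linarith
  have hpos : ∀ m : ℕ, n ≤ 2 * m → m ≤ 2 * n → m % 2 = n % 2 → 0 < b m :=
    fun m h1 h2 h3 => lt_of_lt_of_le (Real.exp_pos _) (hb m h1 h2 h3).1
  obtain ⟨J, hJ⟩ : ∃ J : ℕ, J = ⌊δ * n / (16 * D)⌋₊ := ⟨_, rfl⟩
  have hJle : (J : ℝ) ≤ δ * n / (16 * D) := by
    rw [hJ]; exact Nat.floor_le (by positivity)
  have hJge : δ * n / (16 * D) - 1 ≤ J := by
    rw [hJ]
    have := Nat.lt_floor_add_one (δ * n / (16 * D))
    linarith
  have hJle' : (J : ℝ) * (16 * D) ≤ δ * n := by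
    rwa [le_div_iff₀ (by positivity)] at hJle
  have hJn : 32 * J ≤ n := by
    have : (32 : ℝ) * J ≤ n := by nlinarith [Nat.cast_nonneg (α := ℝ) J]
    exact_mod_cast this
  have key : ∀ j : ℕ, j ≤ J →
      b (n - 2 * j + 2) / b (n - 2 * j) ≤ 1 - δ + 8 * D * j / n := by
    intro j
    induction j with
    | zero => intro _; simpa using h
    | succ j ih =>
      intro hj
      have h1 := ih (by omega)
      obtain ⟨k, hk0⟩ : ∃ k, k = n - 2 * (j + 1) := ⟨_, rfl⟩
      have hkj : n - 2 * j = k + 2 := by omega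
      rw [hkj] at h1
      rw [← hk0]
      have p1 := hpos k (by omega) (by omega) (by omega)
      have p2 := hpos (k + 2) (by omega) (by omega) (by omega)
      have h2 := r_step p1 p2 (hstep k (by omega) (by omega) (by omega))
      have hkp : 0 < b (k + 2) / b k := by positivity
      set ρ := b (k + 2) / b k with hρ
      set ρ' := b (k + 2 + 2) / b (k + 2) with hρ'
      have hkR : (n : ℝ) ≤ 2 * k := by exact_mod_cast (by omega : n ≤ 2 * k)
      have hk1 : (1 : ℝ) ≤ k := by exact_mod_cast (by omega : 1 ≤ k)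
      have h10 : 8 * D * ((j + 1 : ℕ) : ℝ) / n = 8 * D * j / n + 8 * D / n := by push_cast; ring
      rw [h10]
      have h11 : (0 : ℝ) ≤ 8 * D * j / n := by positivity
      have h12 : (0 : ℝ) ≤ 8 * D / n := by positivity
      by_cases hc : ρ ≤ 1 / 4
      · linarith
      · push Not at hc
        have h6 : D / (k : ℝ) ≤ 2 * D / n := by
          rw [div_le_div_iff₀ (by linarith) hn0]
          nlinarith
        have h7 : ρ * ρ ≤ ρ * (ρ' + 8 * D / n) := by
          have h2' : ρ ^ 2 ≤ ρ * ρ' + D / (k : ℝ) := h2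
          have h8 : D / (k : ℝ) ≤ ρ * (8 * D / n) := by
            have h13 : 1 / 4 * (8 * D / n) ≤ ρ * (8 * D / n) :=
              mul_le_mul_of_nonneg_right hc.le h12
            have h14 : 1 / 4 * (8 * D / n) = 2 * D / n := by ring
            linarith
          nlinarith
        have h9 : ρ ≤ ρ' + 8 * D / n := le_of_mul_le_mul_left h7 hkp
        linarith
  have keyJ : ∀ j : ℕ, j ≤ J → b (n - 2 * j + 2) / b (n - 2 * j) ≤ 1 - δ / 2 := by
    intro j hj
    have h1 : 8 * D * (j : ℝ) / n ≤ δ / 2 := by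
      rw [div_le_iff₀ hn0]
      have : (j : ℝ) ≤ J := by exact_mod_cast hj
      nlinarith
    have := key j hj
    linarith
  have prod : ∀ j : ℕ, j ≤ J → b n ≤ (1 - δ / 2) ^ j * b (n - 2 * j) := by
    intro j
    induction j with
    | zero => intro _; simp
    | succ j ih =>
      intro hj
      have h1 := ih (by omega)
      have h2 := keyJ (j + 1) hj
      have h3 : 0 < b (n - 2 * (j + 1)) := hpos _ (by omega) (by omega) (by omega)
      rw [div_le_iff₀ h3] at h2
      have h4 : n - 2 * (j + 1) + 2 = n - 2 * j := by omega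
      rw [h4] at h2
      refine h1.trans ?_
      rw [pow_succ, mul_assoc]
      exact mul_le_mul_of_nonneg_left h2 (pow_nonneg (by linarith) j)
  have h1 := prod J le_rfl
  have h2 := (hb (n - 2 * J) (by omega) (by omega) (by omega)).2
  have h3 := (hb n (by omega) (by omega) rfl).1
  have h4 : (1 - δ / 2) ^ J ≤ Real.exp (-(J * (δ / 2))) := by
    calc (1 - δ / 2) ^ J ≤ (Real.exp (-(δ / 2))) ^ J :=
          pow_le_pow_left₀ (by linarith) (Real.one_sub_le_exp_neg _) J
      _ = _ := by rw [← Real.exp_nat_mul]; congr 1; ring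
  have h6 : Real.exp (-A) ≤ Real.exp (-(J * (δ / 2)) + A) := by
    calc Real.exp (-A) ≤ (1 - δ / 2) ^ J * b (n - 2 * J) := h3.trans h1
      _ ≤ Real.exp (-(J * (δ / 2))) * Real.exp A := by
          apply mul_le_mul h4 h2 (hpos _ (by omega) (by omega) (by omega)).le (Real.exp_pos _).le
      _ = _ := by rw [← Real.exp_add]
  have h7 : -A ≤ -(J * (δ / 2)) + A := Real.exp_le_exp.1 h6
  have h10 : (δ * n / (16 * D) - 1) * (δ / 2) ≤ 2 * A := by
    have := mul_le_mul_of_nonneg_right hJge (by positivity : 0 ≤ δ / 2)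
    linarith
  have h12 : δ * (δ * n / (16 * D)) ≤ 4 * A + 1 := by nlinarith
  have h13 : δ ^ 2 * n = 16 * D * (δ * (δ * n / (16 * D))) := by field_simp
  rw [h13]
  gcongr

lemma one_le_log {n : ℕ} (hn : 3 ≤ n) : 1 ≤ Real.log n := by
  have h3 : (3 : ℝ) ≤ n := by exact_mod_cast hn
  rw [Real.le_log_iff_exp_le (by linarith)]
  have := Real.exp_one_lt_d9
  linarith

lemma log_window {n m : ℕ} (hn : 3 ≤ n) (h1 : n ≤ 2 * m) (h2 : m ≤ 2 * n) :
    (Real.log m) ^ 9 ≤ 512 * (Real.log n) ^ 9 := by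
  have hl := one_le_log hn
  have hn0 : (0 : ℝ) < n := by exact_mod_cast (by omega : 0 < n)
  have hm1 : (1 : ℝ) ≤ m := by exact_mod_cast (by omega : 1 ≤ m)
  have hm0 : 0 ≤ Real.log m := Real.log_nonneg hm1
  have h3 : Real.log m ≤ 2 * Real.log n := by
    have h4 : Real.log m ≤ Real.log (2 * n) := by
      apply Real.log_le_log (by linarith)
      exact_mod_cast h2
    rw [Real.log_mul (by norm_num) hn0.ne'] at h4
    have h5 : Real.log 2 ≤ 1 := by
      have := Real.log_two_lt_d9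
      linarith
    linarith
  calc (Real.log m) ^ 9 ≤ (2 * Real.log n) ^ 9 := pow_le_pow_left₀ hm0 h3 9
    _ = 512 * (Real.log n) ^ 9 := by ring

end RATE

open RATE in
theorem RATE_proof : S_rate := by
  intro K D hK hD
  obtain ⟨D', hD'⟩ : ∃ D' : ℝ, D' = max D 1 := ⟨_, rfl⟩
  have hD1 : 1 ≤ D' := by rw [hD']; exact le_max_right _ _
  have hDD : D ≤ D' := by rw [hD']; exact le_max_left _ _
  have hD0 : 0 < D' := by linarith
  obtain ⟨C0, hC0⟩ : ∃ C0 : ℝ, C0 = 16 * D' * (4096 * K + 1) := ⟨_, rfl⟩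
  have hC0pos : 0 < C0 := by rw [hC0]; positivity
  obtain ⟨N, hN⟩ : ∃ N : ℕ, ∀ n : ℕ, N ≤ n → 4 * C0 * (Real.log n) ^ 9 < n := by
    have h1 : (fun x : ℝ => Real.log x ^ 9) =o[Filter.atTop] (id : ℝ → ℝ) :=
      Real.isLittleO_pow_log_id_atTop
    have h2 := h1.bound (show (0 : ℝ) < 1 / (8 * C0) by positivity)
    have h3 := (tendsto_natCast_atTop_atTop (R := ℝ)).eventually h2
    have h4 := h3.and (Filter.eventually_ge_atTop 1)
    obtain ⟨N, hN⟩ := Filter.eventually_atTop.1 h4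
    refine ⟨N, fun n hn => ?_⟩
    obtain ⟨h5, h6⟩ := hN n hn
    have hn1 : (1 : ℝ) ≤ n := by exact_mod_cast h6
    rw [Real.norm_eq_abs, Real.norm_eq_abs, id, abs_of_nonneg (by linarith : (0 : ℝ) ≤ n)] at h5
    have h7 := (le_abs_self _).trans h5
    calc 4 * C0 * (Real.log n) ^ 9 ≤ 4 * C0 * (1 / (8 * C0) * n) := by gcongr
      _ = n / 2 := by field_simp; ring
      _ < n := by linarith
  obtain ⟨L0, hL0⟩ : ∃ L0 : ℝ, L0 = (Real.log N) ^ 9 := ⟨_, rfl⟩
  refine ⟨Real.sqrt C0 + (Real.exp (1024 * K * L0) + 1) * (2 * Real.sqrt C0), ?_⟩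
  intro n b hn hb hstep
  have hn' : (3 : ℝ) ≤ n := by exact_mod_cast hn
  have hn0 : (0 : ℝ) < n := by linarith
  have hl := one_le_log hn
  have hL1 : 1 ≤ (Real.log n) ^ 9 := one_le_pow₀ hl
  set L := (Real.log n) ^ 9 with hL
  have hb' : ∀ m : ℕ, n ≤ 2 * m → m ≤ 2 * n → m % 2 = n % 2 →
      Real.exp (-(512 * K * L)) ≤ b m ∧ b m ≤ Real.exp (512 * K * L) := by
    intro m h1 h2 h3
    have h4 := log_window hn h1 h2
    have h5 : K * (Real.log m) ^ 9 ≤ 512 * K * L := by
      calc K * (Real.log m) ^ 9 ≤ K * (512 * (Real.log n) ^ 9) :=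
            mul_le_mul_of_nonneg_left h4 hK
        _ = _ := by rw [hL]; ring
    obtain ⟨h6, h7⟩ := hb m h1 h2 h3
    exact ⟨le_trans (Real.exp_le_exp.2 (by linarith)) h6,
      h7.trans (Real.exp_le_exp.2 h5)⟩
  have hstep' : ∀ m : ℕ, n ≤ 2 * m → m + 4 ≤ 2 * n → m % 2 = n % 2 →
      b (m + 2) ^ 2 ≤ b m * b (m + 4) + D' / m * b m ^ 2 := by
    intro m h1 h2 h3
    refine (hstep m h1 h2 h3).trans ?_
    gcongr
  have hbn := hb' n (by omega) (by omega) rfl
  have hbn2 := hb' (n + 2) (by omega) (by omega) (by omega)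
  have hbpos : 0 < b n := lt_of_lt_of_le (Real.exp_pos _) hbn.1
  have hbpos2 : 0 < b (n + 2) := lt_of_lt_of_le (Real.exp_pos _) hbn2.1
  have hKL : 0 ≤ K * L := by positivity
  -- the main estimate
  have main : ∀ δ : ℝ, 0 < δ → δ ≤ 1 / 2 → δ ≤ |b (n + 2) / b n - 1| → δ ^ 2 * n ≤ C0 * L := by
    intro δ h0 h1 h2
    have hC : 16 * D' * (8 * (512 * K * L) + 1) ≤ C0 * L := by
      rw [hC0]
      have : 16 * D' * (8 * (512 * K * L) + 1) ≤ 16 * D' * (8 * (512 * K * L) + L) := by gcongr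
      refine this.trans (le_of_eq ?_)
      ring
    rcases le_total 0 (b (n + 2) / b n - 1) with h3 | h3
    · rw [abs_of_nonneg h3] at h2
      have h4 := upper hD1 hn hb' hstep' h0 (by linarith) (by linarith)
      refine h4.trans (le_trans ?_ hC)
      gcongr
      norm_num
    · rw [abs_of_nonpos h3] at h2
      have h4 := lower hD1 hn hb' hstep' h0 h1 (by linarith)
      refine h4.trans (le_trans ?_ hC)
      gcongr
      norm_num
  have hrt : rt n = Real.sqrt (L / n) := rfl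
  have hs0 : 0 ≤ Real.sqrt (L / n) := Real.sqrt_nonneg _
  have hsC : 0 ≤ Real.sqrt C0 := Real.sqrt_nonneg _
  rw [hrt]
  by_cases hc : |b (n + 2) / b n - 1| ≤ 1 / 2
  · have h1 : |b (n + 2) / b n - 1| ≤ Real.sqrt C0 * Real.sqrt (L / n) := by
      rcases (abs_nonneg (b (n + 2) / b n - 1)).eq_or_lt with h0 | h0
      · rw [← h0]; positivity
      · have h3 := main _ h0 hc le_rfl
        rw [← Real.sqrt_mul hC0pos.le]
        apply Real.le_sqrt_of_sq_le
        rw [← mul_div_assoc, le_div_iff₀ hn0]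
        exact h3
    refine h1.trans ?_
    apply mul_le_mul_of_nonneg_right _ hs0
    have : 0 ≤ (Real.exp (1024 * K * L0) + 1) * (2 * Real.sqrt C0) := by positivity
    linarith
  · push Not at hc
    have h3 := main (1 / 2) (by norm_num) le_rfl hc.le
    have hnN : n < N := by
      by_contra hcon
      have h4 := hN n (by omega)
      have h5 : 4 * C0 * L < n := h4
      nlinarith
    have hLL : L ≤ L0 := by
      rw [hL0, hL]
      apply pow_le_pow_left₀ (by linarith)
      apply Real.log_le_log hn0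
      exact_mod_cast hnN.le
    have h4 : |b (n + 2) / b n - 1| ≤ Real.exp (1024 * K * L0) + 1 := by
      have h5 : b (n + 2) / b n ≤ Real.exp (1024 * K * L0) := by
        rw [div_le_iff₀ hbpos]
        calc b (n + 2) ≤ Real.exp (512 * K * L) := hbn2.2
          _ = Real.exp (1024 * K * L) * Real.exp (-(512 * K * L)) := by
              rw [← Real.exp_add]; congr 1; ring
          _ ≤ Real.exp (1024 * K * L0) * b n := by
              apply mul_le_mul _ hbn.1 (Real.exp_pos _).le (Real.exp_pos _).le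
              apply Real.exp_le_exp.2
              gcongr
      have h6 : 0 < b (n + 2) / b n := by positivity
      rw [abs_le]
      constructor
      · have := Real.exp_pos (1024 * K * L0)
        linarith
      · linarith
    have h5 : 1 ≤ 2 * Real.sqrt C0 * Real.sqrt (L / n) := by
      rw [mul_assoc, ← Real.sqrt_mul hC0pos.le]
      have h6 : (1 / 2 : ℝ) ≤ Real.sqrt (C0 * (L / n)) := by
        apply Real.le_sqrt_of_sq_le
        rw [← mul_div_assoc, le_div_iff₀ hn0]
        exact h3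
      linarith
    calc |b (n + 2) / b n - 1| ≤ (Real.exp (1024 * K * L0) + 1) * 1 := by linarith
      _ ≤ (Real.exp (1024 * K * L0) + 1) * (2 * Real.sqrt C0 * Real.sqrt (L / n)) := by
          gcongr
      _ = (Real.exp (1024 * K * L0) + 1) * (2 * Real.sqrt C0) * Real.sqrt (L / n) := by ring
      _ ≤ _ := by
          apply mul_le_mul_of_nonneg_right _ hs0
          linarith

end Pool.Agent.H739K
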