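import Pool.Agent.H739K.Defs

/-!
# Approximate logarithmic convexity of weighted sums over polygons
-/

set_option autoImplicit false
set_option linter.unusedVariables false

namespace Pool.Agent.H739K

open Finset Pool.Agent.H976R2
open scoped Classical

namespace RATIO

/-- the transfer lemma, with a condition on the sum over the insertions -/
theorem transfer' (n : ℕ) (hn : 1 ≤ n) (F F' Δ : List Dir → ℝ)
    (hΔ : ∀ w ∈ SW n, ∑ p ∈ adm w, |F' (ins w p.1 p.2) - F w| ≤ Δ w) :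
    |∑ w' ∈ SW (n + 2), F' w' - ∑ w ∈ SW n, F w * RR w| ≤
      ∑ w ∈ SW n, (2000 / (n : ℝ) * Δ w + 50000000 / (n : ℝ) * |F w|) +
        ∑ w' ∈ few (n + 2), |F' w'| := by
  have hn' : (1 : ℝ) ≤ n := by exact_mod_cast hn
  have e1 : ∑ w' ∈ SW (n + 2), F' w' * ((bc w' : ℝ) / bt w') =
      ∑ w ∈ SW n, ∑ p ∈ adm w, F' (ins w p.1 p.2) * (1 / bt (ins w p.1 p.2)) := by
    rw [sum_ins n (fun _ w' => F' w' * (1 / bt w'))]
    refine Finset.sum_congr rfl (fun w' _ => ?_)
    rw [Finset.sum_const, nsmul_eq_mul]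
    unfold bc; ring
  have e2 : ∑ w ∈ SW n, F w * RR w = ∑ w ∈ SW n, ∑ p ∈ adm w, F w * (1 / bt w) := by
    refine Finset.sum_congr rfl (fun w _ => ?_)
    rw [Finset.sum_const, nsmul_eq_mul]
    unfold RR AA; ring
  have h1 : |∑ w' ∈ SW (n + 2), F' w' * ((bc w' : ℝ) / bt w') - ∑ w ∈ SW n, F w * RR w| ≤
      ∑ w ∈ SW n, (2000 / (n : ℝ) * Δ w + 50000000 / (n : ℝ) * |F w|) := by
    rw [e1, e2, ← Finset.sum_sub_distrib]
    refine (Finset.abs_sum_le_sum_abs _ _).trans (Finset.sum_le_sum (fun w hw => ?_))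
    obtain ⟨hlen, hsaw⟩ := mem_SW.mp hw
    rw [← Finset.sum_sub_distrib]
    refine (Finset.abs_sum_le_sum_abs _ _).trans ?_
    calc ∑ p ∈ adm w, |F' (ins w p.1 p.2) * (1 / bt (ins w p.1 p.2)) - F w * (1 / bt w)|
        ≤ ∑ p ∈ adm w, (|F' (ins w p.1 p.2) - F w| * (2000 / n) +
            |F w| * (20000000 / (n : ℝ) ^ 2)) := by
          refine Finset.sum_le_sum (fun p hp => ?_)
          obtain ⟨i, e⟩ := p
          have hi := (mem_adm.mp hp).1
          have hl' : 1 ≤ (ins w i e).length := by rw [length_ins e hi]; omega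
          have p2 := bt_pos hl'
          have h4 := inv_bt_ins e hi
          have h5 : 1 / bt (ins w i e) ≤ 2000 / (n : ℝ) := by
            refine (inv_bt_le hl').trans ?_
            rw [length_ins e hi, hlen]
            gcongr
            push_cast; linarith
          rw [hlen] at h4
          simp only
          have e3 : F' (ins w i e) * (1 / bt (ins w i e)) - F w * (1 / bt w) =
              (F' (ins w i e) - F w) * (1 / bt (ins w i e)) +
              F w * (1 / bt (ins w i e) - 1 / bt w) := by ring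
          rw [e3]
          refine (abs_add_le _ _).trans ?_
          rw [abs_mul, abs_mul, abs_of_pos (show 0 < 1 / bt (ins w i e) by positivity)]
          gcongr
      _ = (∑ p ∈ adm w, |F' (ins w p.1 p.2) - F w|) * (2000 / n) +
            (AA w : ℝ) * (|F w| * (20000000 / (n : ℝ) ^ 2)) := by
          rw [Finset.sum_add_distrib, Finset.sum_mul, Finset.sum_const, nsmul_eq_mul]; rfl
      _ ≤ Δ w * (2000 / n) + (2 * n) * (|F w| * (20000000 / (n : ℝ) ^ 2)) := by
          have h6 : (AA w : ℝ) ≤ 2 * w.length := by exact_mod_cast AA_le w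
          rw [hlen] at h6
          have h7 := hΔ w hw
          gcongr
      _ = 2000 / (n : ℝ) * Δ w + 40000000 / (n : ℝ) * |F w| := by field_simp; ring
      _ ≤ 2000 / (n : ℝ) * Δ w + 50000000 / (n : ℝ) * |F w| := by gcongr; norm_num
  have h2 : |∑ w' ∈ SW (n + 2), F' w' - ∑ w' ∈ SW (n + 2), F' w' * ((bc w' : ℝ) / bt w')| ≤
      ∑ w' ∈ few (n + 2), |F' w'| := by
    rw [← Finset.sum_sub_distrib]
    refine (Finset.abs_sum_le_sum_abs _ _).trans ?_
    unfold few
    rw [Finset.sum_filter]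
    refine Finset.sum_le_sum (fun w' hw' => ?_)
    obtain ⟨hlen, hsaw⟩ := mem_SW.mp hw'
    have p2 := bt_pos (w := w') (by omega)
    split_ifs with hc
    · have e3 : F' w' - F' w' * ((bc w' : ℝ) / bt w') = F' w' * (1 - (bc w' : ℝ) / bt w') := by ring
      rw [e3, abs_mul]
      have h3 : (bc w' : ℝ) / bt w' ≤ 1 := by
        rw [div_le_one p2]; exact bc_le_bt w'
      have h4 : 0 ≤ (bc w' : ℝ) / bt w' := by positivity
      have h5 : |1 - (bc w' : ℝ) / bt w'| ≤ 1 := by rw [abs_le]; constructor <;> linarith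
      calc |F' w'| * |1 - (bc w' : ℝ) / bt w'| ≤ |F' w'| * 1 := by gcongr
        _ = |F' w'| := mul_one _
    · push Not at hc
      have h3 : bt w' = bc w' := by
        unfold bt; rw [hlen]; exact max_eq_left hc
      rw [h3]
      have h4 : (0 : ℝ) < bc w' := by rw [← h3]; exact p2
      rw [div_self h4.ne', mul_one, sub_self, abs_zero]
  calc |∑ w' ∈ SW (n + 2), F' w' - ∑ w ∈ SW n, F w * RR w|
      ≤ |∑ w' ∈ SW (n + 2), F' w' - ∑ w' ∈ SW (n + 2), F' w' * ((bc w' : ℝ) / bt w')| +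
        |∑ w' ∈ SW (n + 2), F' w' * ((bc w' : ℝ) / bt w') - ∑ w ∈ SW n, F w * RR w| :=
        abs_sub_le _ _ _
    _ ≤ _ := by linarith

/-- the weight, extended by zero to all words -/
noncomputable def P (φ : List Dir → ℝ) (w : List Dir) : ℝ := if sq w = 1 then φ w else 0

lemma sum_P (φ : List Dir → ℝ) (n : ℕ) : ∑ w ∈ SW n, P φ w = mm φ n := by
  unfold mm KP P
  rw [Finset.sum_filter]

lemma mem_KP {n : ℕ} {w : List Dir} : w ∈ KP n ↔ w.length = n ∧ Saw w ∧ sq w = 1 := by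
  unfold KP
  rw [Finset.mem_filter, mem_SW]
  tauto

lemma P_nonneg {L : ℝ} {n : ℕ} {φ : List Dir → ℝ} (h : Nice L n φ) {w : List Dir} (h1 : n ≤ w.length)
    (h2 : w.length ≤ n + 4) (hs : Saw w) : 0 ≤ P φ w := by
  unfold P
  split_ifs with hc
  · have := h.one_le w h1 h2 hs hc; linarith
  · exact le_rfl

lemma card_le_mm {L : ℝ} {n : ℕ} {φ : List Dir → ℝ} (h : Nice L n φ) {m : ℕ} (h1 : n ≤ m)
    (h2 : m ≤ n + 4) : ((KP m).card : ℝ) ≤ mm φ m := by
  unfold mm
  rw [show ((KP m).card : ℝ) = ∑ w ∈ KP m, (1 : ℝ) by simp]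
  refine Finset.sum_le_sum (fun w hw => ?_)
  obtain ⟨hl, hs, hc⟩ := mem_KP.mp hw
  exact h.one_le w (by omega) (by omega) hs hc

/-- quasi-polynomial factors are beaten by geometric ones -/
lemma bounded (K : ℝ) (hK : 0 ≤ K) (r : ℝ) (hr0 : 0 < r) (hr1 : r < 1) : ∃ B : ℝ, 0 < B ∧ ∀ n : ℕ,
    (n : ℝ) ^ 4 * r ^ n * Real.exp (K * (Real.log n) ^ 9) ≤ B := by
  obtain ⟨s, hs, hs1⟩ : ∃ s : ℝ, 0 < s ∧ r * Real.exp s < 1 := by
    refine ⟨-(Real.log r) / 2, ?_, ?_⟩
    · have := Real.log_neg hr0 hr1; linarith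
    · have h1 : r * Real.exp (-(Real.log r) / 2) = Real.exp (Real.log r / 2) := by
        nth_rewrite 1 [← Real.exp_log hr0]
        rw [← Real.exp_add]; congr 1; ring
      rw [h1, Real.exp_lt_one_iff]
      have := Real.log_neg hr0 hr1; linarith
  have hlo : (fun x : ℝ => Real.log x ^ 9) =o[Filter.atTop] id := Real.isLittleO_pow_log_id_atTop
  have hev : ∀ᶠ n : ℕ in Filter.atTop, K * (Real.log (n : ℝ)) ^ 9 ≤ s * n := by
    have h1 := (hlo.bound (show 0 < s / (K + 1) by positivity))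
    have h2 := tendsto_natCast_atTop_atTop (R := ℝ) |>.eventually h1
    filter_upwards [h2] with n hn
    simp only [id, Real.norm_eq_abs, Nat.abs_cast] at hn
    have h3 := (le_abs_self _).trans hn
    calc K * (Real.log (n : ℝ)) ^ 9 ≤ K * (s / (K + 1) * n) := by gcongr
      _ = (K / (K + 1)) * (s * n) := by field_simp
      _ ≤ 1 * (s * n) := by
          gcongr
          rw [div_le_one (by positivity)]; linarith
      _ = _ := one_mul _
  have ht : Filter.Tendsto (fun n : ℕ => (n : ℝ) ^ 4 * (r * Real.exp s) ^ n) Filter.atTop (nhds 0) :=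
    tendsto_pow_const_mul_const_pow_of_lt_one 4 (by positivity) hs1
  have ht2 := ht.eventually_le_const (show (0 : ℝ) < 1 by norm_num)
  obtain ⟨N, hN⟩ := Filter.eventually_atTop.mp (hev.and ht2)
  refine ⟨1 + ∑ n ∈ Finset.range N, (n : ℝ) ^ 4 * r ^ n * Real.exp (K * (Real.log n) ^ 9), ?_, ?_⟩
  · have : 0 ≤ ∑ n ∈ Finset.range N, (n : ℝ) ^ 4 * r ^ n * Real.exp (K * (Real.log n) ^ 9) :=
      Finset.sum_nonneg (fun n _ => by positivity)
    linarith
  · intro n
    by_cases hn : n < N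
    · have := Finset.single_le_sum
        (f := fun n : ℕ => (n : ℝ) ^ 4 * r ^ n * Real.exp (K * (Real.log n) ^ 9))
        (fun n _ => by positivity) (Finset.mem_range.mpr hn)
      linarith
    · obtain ⟨h1, h2⟩ := hN n (by omega)
      have h0 : 0 ≤ ∑ n ∈ Finset.range N, (n : ℝ) ^ 4 * r ^ n * Real.exp (K * (Real.log n) ^ 9) :=
        Finset.sum_nonneg (fun n _ => by positivity)
      have h3 : (n : ℝ) ^ 4 * r ^ n * Real.exp (K * (Real.log n) ^ 9) ≤
          (n : ℝ) ^ 4 * (r * Real.exp s) ^ n := by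
        rw [mul_pow, ← Real.exp_nat_mul, mul_assoc]
        have h4 : Real.exp (K * (Real.log n) ^ 9) ≤ Real.exp ((n : ℝ) * s) :=
          Real.exp_le_exp.mpr (by rw [mul_comm (n : ℝ) s]; exact h1)
        gcongr
      linarith

/-- words with few bumps are negligible -/
theorem few_small (hb : S_bnd) : ∃ D : ℝ, 0 < D ∧ ∀ n : ℕ, 3 ≤ n → n % 2 = 1 →
    100 * ((n : ℝ) + 5) ^ 3 * ((few (n + 2)).card : ℝ) ≤ D / n * ((KP n).card : ℝ) := by
  obtain ⟨C, hC, h1⟩ := Few.few_card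
  obtain ⟨hmu, K, hK, h2⟩ := hb
  have hr0 : (0 : ℝ) < 2.428 / 2.43 := by norm_num
  have hr1 : (2.428 / 2.43 : ℝ) < 1 := by norm_num
  obtain ⟨B, hB0, hB⟩ := bounded K hK (2.428 / 2.43) hr0 hr1
  refine ⟨100 * 64 * C * 2.428 ^ 2 * B, by positivity, fun n hn hodd => ?_⟩
  have hn' : (3 : ℝ) ≤ n := by exact_mod_cast hn
  have h3 := h1 (n + 2)
  have h4 := (h2 n hn hodd).1
  have h5 := hB n
  have hmu0 : 0 < H981.mu := by linarith
  have h6 : ((n : ℝ) + 5) ^ 3 ≤ 64 * (n : ℝ) ^ 3 := by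
    have : (n : ℝ) + 5 ≤ 4 * n := by linarith
    calc ((n : ℝ) + 5) ^ 3 ≤ (4 * (n : ℝ)) ^ 3 := by gcongr
      _ = 64 * (n : ℝ) ^ 3 := by ring
  have h7 : (2.43 : ℝ) ^ n ≤ H981.mu ^ n := pow_le_pow_left₀ (by norm_num) hmu n
  have h8 : (n : ℝ) ^ 4 * 2.428 ^ n ≤ B * ((KP n).card : ℝ) := by
    rw [div_pow] at h5
    have e : (n : ℝ) ^ 4 * (2.428 ^ n / 2.43 ^ n) * Real.exp (K * (Real.log n) ^ 9) =
        (n : ℝ) ^ 4 * 2.428 ^ n / (2.43 ^ n * Real.exp (-(K * (Real.log n) ^ 9))) := by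
      rw [Real.exp_neg]; field_simp
    rw [e, div_le_iff₀ (by positivity)] at h5
    refine h5.trans ?_
    gcongr
    refine le_trans ?_ h4
    gcongr
  rw [div_mul_eq_mul_div, le_div_iff₀ (by linarith)]
  calc 100 * ((n : ℝ) + 5) ^ 3 * ((few (n + 2)).card : ℝ) * n
      ≤ 100 * (64 * (n : ℝ) ^ 3) * (C * 2.428 ^ (n + 2)) * n := by gcongr
    _ = 100 * 64 * C * 2.428 ^ 2 * ((n : ℝ) ^ 4 * 2.428 ^ n) := by ring
    _ ≤ 100 * 64 * C * 2.428 ^ 2 * (B * ((KP n).card : ℝ)) := by gcongr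
    _ = _ := by ring

/-- first step: the total weight -/
theorem step1 (hb : S_bnd) (L : ℝ) (hL : 0 ≤ L) : ∃ D : ℝ, 0 < D ∧
    ∀ (n : ℕ) (φ : List Dir → ℝ) (m : ℕ), 3 ≤ n → n % 2 = 1 → Nice L n φ → (m = n ∨ m = n + 2) →
    |mm φ (m + 2) - ∑ w ∈ SW m, P φ w * RR w| ≤ D / m * mm φ m := by
  obtain ⟨D, hD, hfew⟩ := few_small hb
  refine ⟨D + 50000000 + 2000 * L, by positivity, fun n φ m hn hodd hφ hm => ?_⟩
  have hm3 : 3 ≤ m := by omega
  have hm' : (3 : ℝ) ≤ m := by exact_mod_cast hm3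
  have hmodd : m % 2 = 1 := by omega
  have h := transfer' m (by omega) (P φ) (P φ) (fun w => L * P φ w) (by
    intro w hw
    obtain ⟨hl, hs⟩ := mem_SW.mp hw
    by_cases hc : sq w = 1
    · have h1 : ∑ p ∈ adm w, |P φ (ins w p.1 p.2) - P φ w| =
          ∑ p ∈ adm w, |φ (ins w p.1 p.2) - φ w| := by
        refine Finset.sum_congr rfl (fun p hp => ?_)
        have hi := (mem_adm.mp (show (p.1, p.2) ∈ adm w from hp)).1
        unfold P
        rw [sq_ins p.2 hi, if_pos hc, if_pos hc]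
      rw [h1]
      unfold P
      rw [if_pos hc]
      exact hφ.lip w (by omega) (by omega) hs hc
    · have h1 : ∑ p ∈ adm w, |P φ (ins w p.1 p.2) - P φ w| = 0 := by
        refine Finset.sum_eq_zero (fun p hp => ?_)
        have hi := (mem_adm.mp (show (p.1, p.2) ∈ adm w from hp)).1
        unfold P
        rw [sq_ins p.2 hi, if_neg hc, if_neg hc]; simp
      rw [h1]
      unfold P
      rw [if_neg hc]; simp)
  rw [sum_P] at h
  refine h.trans ?_
  have hPn : ∀ w ∈ SW m, 0 ≤ P φ w := fun w hw => by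
    obtain ⟨hl, hs⟩ := mem_SW.mp hw
    exact P_nonneg hφ (by omega) (by omega) hs
  have h1 : ∑ w ∈ SW m, (2000 / (m : ℝ) * (L * P φ w) + 50000000 / (m : ℝ) * |P φ w|) =
      (2000 * L + 50000000) / m * mm φ m := by
    rw [← sum_P φ m, Finset.mul_sum]
    refine Finset.sum_congr rfl (fun w hw => ?_)
    rw [abs_of_nonneg (hPn w hw)]; ring
  have h2 : ∑ w' ∈ few (m + 2), |P φ w'| ≤ D / m * mm φ m := by
    calc ∑ w' ∈ few (m + 2), |P φ w'| ≤ ∑ w' ∈ few (m + 2), 100 * ((m : ℝ) + 5) ^ 3 := by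
          refine Finset.sum_le_sum (fun w' hw' => ?_)
          have hw'' : w' ∈ SW (m + 2) := (Finset.mem_filter.mp hw').1
          obtain ⟨hl, hs⟩ := mem_SW.mp hw''
          rw [abs_of_nonneg (P_nonneg hφ (by omega) (by omega) hs)]
          unfold P
          split_ifs with hc
          · refine (hφ.le w' (by omega) (by omega) hs hc).trans ?_
            have : (n : ℝ) ≤ m := by exact_mod_cast (by omega : n ≤ m)
            gcongr
          · positivity
      _ = 100 * ((m : ℝ) + 5) ^ 3 * ((few (m + 2)).card : ℝ) := by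
          rw [Finset.sum_const, nsmul_eq_mul]; ring
      _ ≤ D / m * ((KP m).card : ℝ) := hfew m hm3 hmodd
      _ ≤ D / m * mm φ m := by gcongr; exact card_le_mm hφ (by omega) (by omega)
  rw [h1]
  calc (2000 * L + 50000000) / m * mm φ m + ∑ w' ∈ few (m + 2), |P φ w'|
      ≤ (2000 * L + 50000000) / m * mm φ m + D / m * mm φ m := by gcongr
    _ = (D + 50000000 + 2000 * L) / m * mm φ m := by ring

/-- second step -/
theorem step2 (hb : S_bnd) (L : ℝ) (hL : 0 ≤ L) : ∃ D : ℝ, 0 < D ∧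
    ∀ (n : ℕ) (φ : List Dir → ℝ), 3 ≤ n → n % 2 = 1 → Nice L n φ →
    |∑ w ∈ SW (n + 2), P φ w * RR w - ∑ w ∈ SW n, P φ w * RR w ^ 2| ≤ D / n * mm φ n := by
  obtain ⟨D, hD, hfew⟩ := few_small hb
  refine ⟨4000 * D + 4000 * 50000000 + 2000 * (4000 * L + 100000000), by positivity,
    fun n φ hn hodd hφ => ?_⟩
  have hn' : (3 : ℝ) ≤ n := by exact_mod_cast hn
  have hPn : ∀ m : ℕ, n ≤ m → m ≤ n + 4 → ∀ w ∈ SW m, 0 ≤ P φ w := fun m h1 h2 w hw => by
    obtain ⟨hl, hs⟩ := mem_SW.mp hw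
    exact P_nonneg hφ (by omega) (by omega) hs
  have h := transfer' n (by omega) (fun w => P φ w * RR w) (fun w => P φ w * RR w)
    (fun w => (4000 * L + 100000000) * P φ w) (by
    intro w hw
    obtain ⟨hl, hs⟩ := mem_SW.mp hw
    have hP0 := hPn n le_rfl (by omega) w hw
    by_cases hc : sq w = 1
    · have hPw : P φ w = φ w := by unfold P; rw [if_pos hc]
      have h1 : ∑ p ∈ adm w, |P φ (ins w p.1 p.2) * RR (ins w p.1 p.2) - P φ w * RR w| ≤
          ∑ p ∈ adm w, (4000 * |φ (ins w p.1 p.2) - φ w| + φ w * (50000000 / (n : ℝ))) := by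
        refine Finset.sum_le_sum (fun p hp => ?_)
        have hp' : (p.1, p.2) ∈ adm w := hp
        have hi := (mem_adm.mp hp').1
        have hPi : P φ (ins w p.1 p.2) = φ (ins w p.1 p.2) := by
          unfold P; rw [sq_ins p.2 hi, if_pos hc]
        rw [hPi, hPw]
        have hR := RR_ins hs hp'
        rw [hl] at hR
        have hR2 := RR_le (w := ins w p.1 p.2) (by rw [length_ins p.2 hi]; omega)
        have hR0 := RR_nonneg (ins w p.1 p.2)
        have e : φ (ins w p.1 p.2) * RR (ins w p.1 p.2) - φ w * RR w =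
            RR (ins w p.1 p.2) * (φ (ins w p.1 p.2) - φ w) + φ w * (RR (ins w p.1 p.2) - RR w) := by
          ring
        rw [e]
        refine (abs_add_le _ _).trans ?_
        rw [hPw] at hP0
        rw [abs_mul, abs_mul, abs_of_nonneg hR0, abs_of_nonneg hP0]
        gcongr
      refine h1.trans ?_
      rw [Finset.sum_add_distrib, ← Finset.mul_sum, Finset.sum_const, nsmul_eq_mul, hPw]
      have h2 := hφ.lip w (by omega) (by omega) hs hc
      have h6 : ((adm w).card : ℝ) ≤ 2 * n := by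
        have : (AA w : ℝ) ≤ 2 * w.length := by exact_mod_cast AA_le w
        rw [hl] at this
        exact this
      rw [hPw] at hP0
      calc 4000 * ∑ p ∈ adm w, |φ (ins w p.1 p.2) - φ w| +
            ((adm w).card : ℝ) * (φ w * (50000000 / (n : ℝ)))
          ≤ 4000 * (L * φ w) + (2 * n) * (φ w * (50000000 / (n : ℝ))) := by gcongr
        _ = (4000 * L + 100000000) * φ w := by field_simp; ring
    · have h1 : ∑ p ∈ adm w, |P φ (ins w p.1 p.2) * RR (ins w p.1 p.2) - P φ w * RR w| = 0 := by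
        refine Finset.sum_eq_zero (fun p hp => ?_)
        have hi := (mem_adm.mp (show (p.1, p.2) ∈ adm w from hp)).1
        unfold P
        rw [sq_ins p.2 hi, if_neg hc, if_neg hc]; simp
      rw [h1]
      positivity)
  have e0 : ∑ w ∈ SW n, P φ w * RR w * RR w = ∑ w ∈ SW n, P φ w * RR w ^ 2 :=
    Finset.sum_congr rfl (fun w _ => by ring)
  rw [e0] at h
  refine h.trans ?_
  have h1 : ∑ w ∈ SW n, (2000 / (n : ℝ) * ((4000 * L + 100000000) * P φ w) +
      50000000 / (n : ℝ) * |P φ w * RR w|) ≤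
      (4000 * 50000000 + 2000 * (4000 * L + 100000000)) / (n : ℝ) * mm φ n := by
    rw [← sum_P φ n, Finset.mul_sum]
    refine Finset.sum_le_sum (fun w hw => ?_)
    have h0 := hPn n le_rfl (by omega) w hw
    rw [abs_mul, abs_of_nonneg h0, abs_of_nonneg (RR_nonneg w)]
    have hR := RR_le (w := w) (by rw [(mem_SW.mp hw).1]; omega)
    calc 2000 / (n : ℝ) * ((4000 * L + 100000000) * P φ w) + 50000000 / (n : ℝ) * (P φ w * RR w)
        ≤ 2000 / (n : ℝ) * ((4000 * L + 100000000) * P φ w) +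
          50000000 / (n : ℝ) * (P φ w * 4000) := by gcongr
      _ = (4000 * 50000000 + 2000 * (4000 * L + 100000000)) / (n : ℝ) * P φ w := by ring
  have h2 : ∑ w' ∈ few (n + 2), |P φ w' * RR w'| ≤ 4000 * (D / n) * mm φ n := by
    calc ∑ w' ∈ few (n + 2), |P φ w' * RR w'| ≤
          ∑ w' ∈ few (n + 2), 4000 * (100 * ((n : ℝ) + 5) ^ 3) := by
          refine Finset.sum_le_sum (fun w' hw' => ?_)
          have hw'' : w' ∈ SW (n + 2) := (Finset.mem_filter.mp hw').1
          obtain ⟨hl, hs⟩ := mem_SW.mp hw''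
          have h0 := hPn (n + 2) (by omega) (by omega) w' hw''
          rw [abs_mul, abs_of_nonneg h0, abs_of_nonneg (RR_nonneg w')]
          have hR := RR_le (w := w') (by rw [hl]; omega)
          have h3 : P φ w' ≤ 100 * ((n : ℝ) + 5) ^ 3 := by
            unfold P
            split_ifs with hc
            · exact hφ.le w' (by omega) (by omega) hs hc
            · positivity
          calc P φ w' * RR w' ≤ (100 * ((n : ℝ) + 5) ^ 3) * 4000 := by
                gcongr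
                exact RR_nonneg w'
            _ = 4000 * (100 * ((n : ℝ) + 5) ^ 3) := by ring
      _ = 4000 * (100 * ((n : ℝ) + 5) ^ 3 * ((few (n + 2)).card : ℝ)) := by
          rw [Finset.sum_const, nsmul_eq_mul]; ring
      _ ≤ 4000 * (D / n * ((KP n).card : ℝ)) := by gcongr 4000 * ?_; exact hfew n hn hodd
      _ ≤ 4000 * (D / n * mm φ n) := by gcongr; exact card_le_mm hφ le_rfl (by omega)
      _ = _ := by ring
  calc _ ≤ (4000 * 50000000 + 2000 * (4000 * L + 100000000)) / (n : ℝ) * mm φ n +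
          4000 * (D / n) * mm φ n := by gcongr
    _ = _ := by ring

end RATIO

open RATIO in
theorem RATIO_proof (hb : S_bnd) : S_ratio := by
  intro L hL
  obtain ⟨D1, hD1, h1⟩ := step1 hb L hL
  obtain ⟨D2, hD2, h2⟩ := step2 hb L hL
  refine ⟨D1 * (4000 + D1) + D2 + 8000 * D1 + D1 ^ 2, by positivity, fun n φ hn hodd hφ => ?_⟩
  have hn' : (3 : ℝ) ≤ n := by exact_mod_cast hn
  have hn0 : (0 : ℝ) < n := by linarith
  have hPn : ∀ w ∈ SW n, 0 ≤ P φ w := fun w hw => by
    obtain ⟨hl, hs⟩ := mem_SW.mp hw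
    exact P_nonneg hφ (by omega) (by omega) hs
  have hM0 : 0 ≤ mm φ n := by rw [← sum_P]; exact Finset.sum_nonneg hPn
  have hM2 : 0 ≤ mm φ (n + 2) := le_trans (by positivity) (card_le_mm hφ (show n ≤ n + 2 by omega) (by omega))
  have hM4 : 0 ≤ mm φ (n + 4) := le_trans (by positivity) (card_le_mm hφ (show n ≤ n + 4 by omega) (by omega))
  set S1 := ∑ w ∈ SW n, P φ w * RR w with hS1
  set S2 := ∑ w ∈ SW n, P φ w * RR w ^ 2 with hS2
  have hS1le : S1 ≤ 4000 * mm φ n := by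
    rw [← sum_P φ n, Finset.mul_sum]
    refine Finset.sum_le_sum (fun w hw => ?_)
    have h0 := hPn w hw
    have hR := RR_le (w := w) (by rw [(mem_SW.mp hw).1]; omega)
    nlinarith
  have hS10 : 0 ≤ S1 := Finset.sum_nonneg (fun w hw => mul_nonneg (hPn w hw) (RR_nonneg w))
  have g1 := h1 n φ n hn hodd hφ (Or.inl rfl)
  have g3 := h1 n φ (n + 2) hn hodd hφ (Or.inr rfl)
  have g2 := h2 n φ hn hodd hφ
  have e24 : n + 2 + 2 = n + 4 := by ring
  rw [e24] at g3
  have hd : D1 / n ≤ D1 := div_le_self hD1.le (by linarith)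
  have hdn : 0 ≤ D1 / n := by positivity
  have k1 : mm φ (n + 2) ≤ S1 + D1 / n * mm φ n := by
    have := (abs_le.mp g1).2; linarith
  have k1' : mm φ (n + 2) ≤ (4000 + D1) * mm φ n := by
    have : D1 / n * mm φ n ≤ D1 * mm φ n := by gcongr
    linarith
  have k4' : |mm φ (n + 4) - S2| ≤ (D1 * (4000 + D1) + D2) / n * mm φ n := by
    have g4 : D1 / ((n + 2 : ℕ) : ℝ) * mm φ (n + 2) ≤ D1 / n * ((4000 + D1) * mm φ n) := by
      gcongr
      push_cast; linarith
    calc |mm φ (n + 4) - S2|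
        ≤ |mm φ (n + 4) - ∑ w ∈ SW (n + 2), P φ w * RR w| +
          |∑ w ∈ SW (n + 2), P φ w * RR w - S2| := abs_sub_le _ _ _
      _ ≤ D1 / n * ((4000 + D1) * mm φ n) + D2 / n * mm φ n := by linarith
      _ = _ := by ring
  have hcs : S1 ^ 2 ≤ mm φ n * S2 := by
    have := Finset.sum_mul_sq_le_sq_mul_sq (SW n) (fun w => Real.sqrt (P φ w))
      (fun w => Real.sqrt (P φ w) * RR w)
    have e1 : ∑ w ∈ SW n, Real.sqrt (P φ w) * (Real.sqrt (P φ w) * RR w) = S1 := by
      refine Finset.sum_congr rfl (fun w hw => ?_)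
      rw [← mul_assoc, Real.mul_self_sqrt (hPn w hw)]
    have e2 : ∑ w ∈ SW n, Real.sqrt (P φ w) ^ 2 = mm φ n := by
      rw [← sum_P]
      refine Finset.sum_congr rfl (fun w hw => ?_)
      rw [Real.sq_sqrt (hPn w hw)]
    have e3 : ∑ w ∈ SW n, (Real.sqrt (P φ w) * RR w) ^ 2 = S2 := by
      refine Finset.sum_congr rfl (fun w hw => ?_)
      rw [mul_pow, Real.sq_sqrt (hPn w hw)]
    rw [e1, e2, e3] at this
    exact this
  have k2 : mm φ (n + 2) ^ 2 ≤ (S1 + D1 / n * mm φ n) ^ 2 := by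
    gcongr
  have k3 : (S1 + D1 / n * mm φ n) ^ 2 ≤ mm φ n * S2 + (8000 * D1 + D1 ^ 2) / n * mm φ n ^ 2 := by
    have e : (S1 + D1 / n * mm φ n) ^ 2 = S1 ^ 2 + 2 * S1 * (D1 / n * mm φ n) +
        (D1 / n) * (D1 / n) * mm φ n ^ 2 := by ring
    have i1 : 2 * S1 * (D1 / n * mm φ n) ≤ 2 * (4000 * mm φ n) * (D1 / n * mm φ n) := by
      gcongr
    have i2 : (D1 / n) * (D1 / n) * mm φ n ^ 2 ≤ (D1 / n) * D1 * mm φ n ^ 2 := by gcongr
    have e2 : (8000 * D1 + D1 ^ 2) / n * mm φ n ^ 2 = 2 * (4000 * mm φ n) * (D1 / n * mm φ n) +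
        (D1 / n) * D1 * mm φ n ^ 2 := by ring
    rw [e, e2]
    linarith
  have k4 : mm φ n * S2 ≤ mm φ n * mm φ (n + 4) + (D1 * (4000 + D1) + D2) / n * mm φ n ^ 2 := by
    have : S2 ≤ mm φ (n + 4) + (D1 * (4000 + D1) + D2) / n * mm φ n := by
      have := (abs_le.mp k4').1; linarith
    calc mm φ n * S2 ≤ mm φ n * (mm φ (n + 4) + (D1 * (4000 + D1) + D2) / n * mm φ n) := by gcongr
      _ = _ := by ring
  have e5 : (D1 * (4000 + D1) + D2 + 8000 * D1 + D1 ^ 2) / n * mm φ n ^ 2 =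
      (D1 * (4000 + D1) + D2) / n * mm φ n ^ 2 + (8000 * D1 + D1 ^ 2) / n * mm φ n ^ 2 := by ring
  rw [e5]
  linarith

end Pool.Agent.H739K
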