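import Pool.Agent.H739K.Goals

/-!
# Convergence along sparse sequences
-/

set_option autoImplicit false

namespace Pool.Agent.H739K

open Filter Topology

lemma rN_eq (n : ℕ) : rN n = Real.sqrt ((Real.log n) ^ 9 / n) := rfl

/-- `m^β rN(m) → 0` for `β < 1/2` -/
lemma pow_mul_rN {β : ℝ} (hβ : β < 1 / 2) :
    Tendsto (fun m : ℕ => (m : ℝ) ^ β * rN m) atTop (𝓝 0) := by
  have h1 : Tendsto (fun x : ℝ => Real.sqrt (Real.log x ^ 9 / x ^ (1 - 2 * β))) atTop (𝓝 0) := by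
    have h2 : Tendsto (fun x : ℝ => Real.log x ^ 9 / x ^ (1 - 2 * β)) atTop (𝓝 0) := by
      have h3 := (isLittleO_log_rpow_rpow_atTop (s := 1 - 2 * β) 9 (by linarith)).tendsto_div_nhds_zero
      refine h3.congr (fun x => ?_)
      norm_num
    have := (Real.continuous_sqrt.tendsto 0).comp h2
    rw [Real.sqrt_zero] at this
    exact this
  have h4 := h1.comp (tendsto_natCast_atTop_atTop (R := ℝ))
  refine h4.congr' ?_
  filter_upwards [eventually_ge_atTop 1] with m hm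
  have hm' : (0 : ℝ) < m := by exact_mod_cast hm
  simp only [Function.comp]
  rw [rN_eq]
  have h5 : (m : ℝ) ^ β = Real.sqrt ((m : ℝ) ^ (2 * β)) := by
    rw [mul_comm 2 β, Real.rpow_mul hm'.le, ← Real.sqrt_sq (Real.rpow_nonneg hm'.le β)]
    norm_num
  rw [h5, ← Real.sqrt_mul (by positivity)]
  congr 1
  rw [Real.rpow_sub hm', Real.rpow_one]
  field_simp

/-- late values are close to values at a late term of the sparse sequence -/
theorem sparse_close (v : ℕ → ℝ) (C : ℝ) (hC : 0 ≤ C)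
    (h : ∀ᶠ n : ℕ in atTop, |v (n + 1) - v n| ≤ C * rN n)
    (s : ℕ → ℕ) (hs : Tendsto s atTop atTop) (β : ℝ) (hβ : β < 1 / 2)
    (hgap : ∀ k, (s (k + 1) : ℝ) ≤ s k + (s k : ℝ) ^ β) (ε : ℝ) (hε : 0 < ε) (k0 : ℕ) :
    ∃ N0 : ℕ, ∀ n, N0 ≤ n → ∃ k, k0 ≤ k ∧ s k ≤ n ∧ n ≤ 2 * s k ∧ |v n - v (s k)| < ε / 2 := by
  -- `rN` is eventually decreasing up to a factor
  have hr : ∀ᶠ m : ℕ in atTop, ∀ j : ℕ, m ≤ j → j ≤ 2 * m → rN j ≤ 2 ^ 5 * rN m := by
    filter_upwards [eventually_ge_atTop 2] with m hm j hj hj2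
    have hm' : (2 : ℝ) ≤ m := by exact_mod_cast hm
    have hjm : (m : ℝ) ≤ j := by exact_mod_cast hj
    have hj2' : (j : ℝ) ≤ 2 * m := by exact_mod_cast hj2
    rw [rN_eq, rN_eq]
    have hl0 : 0 < Real.log m := Real.log_pos (by linarith)
    have hlog : Real.log j ≤ 2 * Real.log m := by
      calc Real.log j ≤ Real.log (m ^ 2) := by
            apply Real.log_le_log (by linarith)
            nlinarith
        _ = 2 * Real.log m := by rw [Real.log_pow]; norm_num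
    have hlj : 0 ≤ Real.log j := Real.log_nonneg (by linarith)
    have h1 : Real.log j ^ 9 / j ≤ (2 ^ 5) ^ 2 * (Real.log m ^ 9 / m) := by
      calc Real.log j ^ 9 / j ≤ (2 * Real.log m) ^ 9 / m := by gcongr
        _ = 2 ^ 9 * (Real.log m ^ 9 / m) := by ring
        _ ≤ (2 ^ 5) ^ 2 * (Real.log m ^ 9 / m) := by gcongr; norm_num
    calc Real.sqrt (Real.log j ^ 9 / j) ≤ Real.sqrt ((2 ^ 5) ^ 2 * (Real.log m ^ 9 / m)) :=
          Real.sqrt_le_sqrt h1
      _ = 2 ^ 5 * Real.sqrt (Real.log m ^ 9 / m) := by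
          rw [Real.sqrt_mul (by positivity), Real.sqrt_sq (by positivity)]
  have hsm := (pow_mul_rN hβ).eventually_lt_const (show (0 : ℝ) < ε / (4 * (C + 1) * 2 ^ 5) by positivity)
  have hall := (h.and (hr.and (hsm.and (eventually_ge_atTop 2))))
  obtain ⟨M, hM⟩ := eventually_atTop.mp hall
  -- bound for `s` on the first indices
  obtain ⟨B, hB⟩ : ∃ B : ℕ, ∀ k ≤ k0, s k ≤ B :=
    ⟨(Finset.range (k0 + 1)).sup s, fun k hk => Finset.le_sup (Finset.mem_range.mpr (by omega))⟩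
  refine ⟨2 * (B + M + s 0 + 2), fun n hn => ?_⟩
  -- first index with `s k > n`
  have hex : ∃ k, n < s k := by
    obtain ⟨k, hk⟩ := (hs.eventually_gt_atTop n).exists
    exact ⟨k, hk⟩
  classical
  have hk1 := Nat.find_spec hex
  have hk2 : ∀ k, k < Nat.find hex → ¬ n < s k := fun k hk => Nat.find_min hex hk
  set k' := Nat.find hex with hk'
  have hk'0 : k' ≠ 0 := by
    intro h0
    rw [h0] at hk1
    omega
  obtain ⟨k, hkk⟩ : ∃ k, k' = k + 1 := ⟨k' - 1, by omega⟩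
  rw [hkk] at hk1
  have hsk : s k ≤ n := by
    have := hk2 k (by omega)
    omega
  -- `s k` is at least `n / 2`
  have hg := hgap k
  have hn1 : (n : ℝ) < s (k + 1) := by exact_mod_cast hk1
  have hsk1 : 1 ≤ s k := by
    by_contra hcon
    have h0 : s k = 0 := by omega
    rw [h0] at hg
    have h2 : ((0 : ℕ) : ℝ) ^ β ≤ 1 := by
      rw [Nat.cast_zero]
      exact Real.zero_rpow_le_one β
    have : (n : ℝ) < 1 := by
      calc (n : ℝ) < s (k + 1) := hn1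
        _ ≤ ((0 : ℕ) : ℝ) + ((0 : ℕ) : ℝ) ^ β := hg
        _ ≤ 1 := by simpa using h2
    have h3 : n < 1 := by exact_mod_cast this
    omega
  have hsk1' : (1 : ℝ) ≤ s k := by exact_mod_cast hsk1
  have hpow : (s k : ℝ) ^ β ≤ s k := by
    calc (s k : ℝ) ^ β ≤ (s k : ℝ) ^ (1 : ℝ) := Real.rpow_le_rpow_of_exponent_le hsk1' (by linarith)
      _ = s k := Real.rpow_one _
  have hn2 : n ≤ 2 * s k := by
    have : (n : ℝ) < 2 * s k := by linarith
    have : n < 2 * s k := by exact_mod_cast this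
    omega
  have hkM : M ≤ s k := by omega
  have hkk0 : k0 ≤ k := by
    by_contra hcon
    have := hB k (by omega)
    omega
  obtain ⟨-, hr', hsm', hM2⟩ := hM (s k) hkM
  -- telescoping
  have htel : ∀ j : ℕ, s k + j ≤ n → |v (s k + j) - v (s k)| ≤ j * (C * (2 ^ 5 * rN (s k))) := by
    intro j
    induction j with
    | zero => intro _; simp
    | succ j ih =>
      intro hj
      have h1 := ih (by omega)
      have h2 := (hM (s k + j) (by omega)).1
      have h3 := hr' (s k + j) (by omega) (by omega)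
      have h4 : |v (s k + (j + 1)) - v (s k + j)| ≤ C * (2 ^ 5 * rN (s k)) :=
        h2.trans (mul_le_mul_of_nonneg_left h3 hC)
      calc |v (s k + (j + 1)) - v (s k)|
          ≤ |v (s k + (j + 1)) - v (s k + j)| + |v (s k + j) - v (s k)| := abs_sub_le _ _ _
        _ ≤ C * (2 ^ 5 * rN (s k)) + j * (C * (2 ^ 5 * rN (s k))) := add_le_add h4 h1
        _ = ((j + 1 : ℕ) : ℝ) * (C * (2 ^ 5 * rN (s k))) := by push_cast; ring
  have h1 := htel (n - s k) (by omega)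
  have e1 : s k + (n - s k) = n := by omega
  rw [e1] at h1
  have hdiff : ((n - s k : ℕ) : ℝ) ≤ (s k : ℝ) ^ β := by
    rw [Nat.cast_sub hsk]
    linarith
  have hrn : 0 ≤ rN (s k) := Real.sqrt_nonneg _
  have h2 : |v n - v (s k)| < ε / 2 := by
    calc |v n - v (s k)| ≤ ((n - s k : ℕ) : ℝ) * (C * (2 ^ 5 * rN (s k))) := h1
      _ ≤ (s k : ℝ) ^ β * (C * (2 ^ 5 * rN (s k))) := by gcongr
      _ ≤ (s k : ℝ) ^ β * ((C + 1) * (2 ^ 5 * rN (s k))) := by gcongr; linarith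
      _ = ((C + 1) * 2 ^ 5) * ((s k : ℝ) ^ β * rN (s k)) := by ring
      _ ≤ ((C + 1) * 2 ^ 5) * (ε / (4 * (C + 1) * 2 ^ 5)) := by gcongr
      _ = ε / 4 := by field_simp
      _ < ε / 2 := by linarith
  exact ⟨k, hkk0, hsk, hn2, h2⟩

/-- additive version -/
theorem sparse_add (v : ℕ → ℝ) (C : ℝ) (hC : 0 ≤ C)
    (h : ∀ᶠ n : ℕ in atTop, |v (n + 1) - v n| ≤ C * rN n)
    (s : ℕ → ℕ) (hs : Tendsto s atTop atTop) (β : ℝ) (hβ : β < 1 / 2)
    (hgap : ∀ k, (s (k + 1) : ℝ) ≤ s k + (s k : ℝ) ^ β) (c : ℝ)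
    (hc : Tendsto (fun k => v (s k)) atTop (𝓝 c)) : Tendsto v atTop (𝓝 c) := by
  rw [Metric.tendsto_atTop]
  intro ε hε
  obtain ⟨k0, hk0⟩ := (Metric.tendsto_atTop.mp hc) (ε / 2) (by positivity)
  obtain ⟨N0, hN0⟩ := sparse_close v C hC h s hs β hβ hgap ε hε k0
  refine ⟨N0, fun n hn => ?_⟩
  obtain ⟨k, hk, -, -, h2⟩ := hN0 n hn
  have h3 := hk0 k hk
  rw [Real.dist_eq] at h3 ⊢
  calc |v n - c| ≤ |v n - v (s k)| + |v (s k) - c| := abs_sub_le _ _ _
    _ < ε / 2 + ε / 2 := add_lt_add h2 h3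
    _ = ε := by ring

/-- logarithms of nearly constant ratios -/
theorem log_step (u : ℕ → ℝ) (C : ℝ) (hC : 0 ≤ C) (hu : ∀ n : ℕ, 2 ≤ n → 0 < u n)
    (h : ∀ n : ℕ, 2 ≤ n → |u (n + 1) / u n - 1| ≤ C * rN n) :
    ∀ᶠ n : ℕ in atTop, |Real.log (u (n + 1)) - Real.log (u n)| ≤ (2 * C) * rN n := by
  have h0 : Tendsto (fun m : ℕ => rN m) atTop (𝓝 0) := by
    have := pow_mul_rN (β := 0) (by norm_num)
    simpa using this
  filter_upwards [h0.eventually_lt_const (show (0 : ℝ) < 1 / (2 * (C + 1)) by positivity),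
    eventually_ge_atTop 2] with n hn hn2
  have h2 := h n hn2
  have p1 := hu n hn2
  have p2 := hu (n + 1) (by omega)
  have hrn : 0 ≤ rN n := Real.sqrt_nonneg _
  have h3 : C * rN n ≤ 1 / 2 := by
    calc C * rN n ≤ (C + 1) * rN n := by gcongr; linarith
      _ ≤ (C + 1) * (1 / (2 * (C + 1))) := by gcongr
      _ = 1 / 2 := by field_simp
  rw [← Real.log_div p2.ne' p1.ne']
  obtain ⟨x, hx⟩ : ∃ x, x = u (n + 1) / u n - 1 := ⟨_, rfl⟩
  have hx1 : u (n + 1) / u n = 1 + x := by rw [hx]; ring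
  rw [← hx] at h2
  rw [hx1]
  have hxa : |x| ≤ 1 / 2 := h2.trans h3
  obtain ⟨ha, hb⟩ := abs_le.mp hxa
  have hpos : 0 < 1 + x := by linarith
  have up : Real.log (1 + x) ≤ x := by
    have := Real.log_le_sub_one_of_pos hpos; linarith
  have lo : x / (1 + x) ≤ Real.log (1 + x) := by
    have h4 := Real.one_sub_inv_le_log_of_pos hpos
    have e : 1 - (1 + x)⁻¹ = x / (1 + x) := by field_simp; ring
    linarith
  have h5 : |Real.log (1 + x)| ≤ 2 * |x| := by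
    rw [abs_le]
    constructor
    · have : -(2 * |x|) ≤ x / (1 + x) := by
        rw [le_div_iff₀ hpos]
        rcases abs_cases x with ⟨e, _⟩ | ⟨e, _⟩ <;> rw [e] <;> nlinarith
      linarith
    · have := le_abs_self x
      have := abs_nonneg x
      linarith
  calc |Real.log (1 + x)| ≤ 2 * |x| := h5
    _ ≤ 2 * (C * rN n) := by gcongr
    _ = _ := by ring

/-- multiplicative version -/
theorem sparse_mul (u : ℕ → ℝ) (C : ℝ) (hC : 0 ≤ C) (hu : ∀ n : ℕ, 2 ≤ n → 0 < u n)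
    (h : ∀ n : ℕ, 2 ≤ n → |u (n + 1) / u n - 1| ≤ C * rN n)
    (s : ℕ → ℕ) (hs : Tendsto s atTop atTop) (β : ℝ) (hβ : β < 1 / 2)
    (hgap : ∀ k, (s (k + 1) : ℝ) ≤ s k + (s k : ℝ) ^ β) (c : ℝ) (hc0 : 0 < c)
    (hc : Tendsto (fun k => u (s k)) atTop (𝓝 c)) : Tendsto u atTop (𝓝 c) := by
  have h2 : Tendsto (fun k => Real.log (u (s k))) atTop (𝓝 (Real.log c)) :=
    (Real.continuousAt_log hc0.ne').tendsto.comp hc
  have h3 := sparse_add (fun n => Real.log (u n)) (2 * C) (by positivity)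
    (log_step u C hC hu h) s hs β hβ hgap (Real.log c) h2
  have h4 := (Real.continuous_exp.tendsto (Real.log c)).comp h3
  rw [Real.exp_log hc0] at h4
  refine h4.congr' ?_
  filter_upwards [eventually_ge_atTop 2] with n hn
  exact Real.exp_log (hu n hn)

/-- two-sided bounds along a sparse sequence give two-sided bounds -/
theorem sparse_bounds (u : ℕ → ℝ) (C : ℝ) (hC : 0 ≤ C) (hu : ∀ n : ℕ, 2 ≤ n → 0 < u n)
    (h : ∀ n : ℕ, 2 ≤ n → |u (n + 1) / u n - 1| ≤ C * rN n)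
    (s : ℕ → ℕ) (hs : Tendsto s atTop atTop) (β : ℝ) (hβ : β < 1 / 2)
    (hgap : ∀ k, (s (k + 1) : ℝ) ≤ s k + (s k : ℝ) ^ β) (a b θ : ℝ) (ha : 0 < a) (hθ : 0 ≤ θ)
    (hab : ∀ᶠ k in atTop, a * (s k : ℝ) ^ θ ≤ u (s k) ∧ u (s k) ≤ b * (s k : ℝ) ^ θ) :
    ∀ᶠ n : ℕ in atTop, a / 2 ^ (θ + 1) * (n : ℝ) ^ θ ≤ u n ∧ u n ≤ 2 * b * (n : ℝ) ^ θ := by
  obtain ⟨k0, hk0⟩ := eventually_atTop.mp hab
  obtain ⟨N0, hN0⟩ := sparse_close (fun n => Real.log (u n)) (2 * C) (by positivity)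
    (log_step u C hC hu h) s hs β hβ hgap (2 * Real.log 2) (by positivity) k0
  filter_upwards [eventually_ge_atTop (N0 + 4)] with n hn
  obtain ⟨k, hk, hsn, hn2, hv⟩ := hN0 n (by omega)
  have hs2 : 2 ≤ s k := by omega
  have hsk : (0 : ℝ) < s k := by exact_mod_cast (by omega : 0 < s k)
  have hn0 : (0 : ℝ) < n := by exact_mod_cast (by omega : 0 < n)
  have hsn' : (s k : ℝ) ≤ n := by exact_mod_cast hsn
  have hn2' : (n : ℝ) ≤ 2 * s k := by exact_mod_cast hn2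
  have p1 := hu n (by omega)
  have p2 := hu (s k) hs2
  obtain ⟨h1, h2⟩ := hk0 k hk
  rw [← Real.log_div p1.ne' p2.ne', show 2 * Real.log 2 / 2 = Real.log 2 by ring, abs_lt] at hv
  have h3 : u n / u (s k) < 2 := by
    rw [← Real.log_lt_log_iff (by positivity) (by norm_num)]; exact hv.2
  have h4 : 1 / 2 < u n / u (s k) := by
    rw [← Real.log_lt_log_iff (by norm_num) (by positivity), one_div, Real.log_inv]; exact hv.1
  rw [div_lt_iff₀ p2] at h3
  rw [lt_div_iff₀ p2] at h4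
  have hb0 : 0 ≤ b := by
    by_contra hcon
    push Not at hcon
    have h5 : 0 < (s k : ℝ) ^ θ := Real.rpow_pos_of_pos hsk θ
    nlinarith [mul_pos ha h5]
  constructor
  · have h5 : (n : ℝ) ^ θ ≤ 2 ^ θ * (s k : ℝ) ^ θ := by
      rw [← Real.mul_rpow (by norm_num) hsk.le]
      exact Real.rpow_le_rpow hn0.le hn2' hθ
    have h6 : (0 : ℝ) < 2 ^ θ := by positivity
    rw [Real.rpow_add (by norm_num), Real.rpow_one]
    calc a / (2 ^ θ * 2) * (n : ℝ) ^ θ ≤ a / (2 ^ θ * 2) * (2 ^ θ * (s k : ℝ) ^ θ) := by gcongr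
      _ = 1 / 2 * (a * (s k : ℝ) ^ θ) := by field_simp
      _ ≤ 1 / 2 * u (s k) := by gcongr
      _ ≤ u n := h4.le
  · calc u n ≤ 2 * u (s k) := h3.le
      _ ≤ 2 * (b * (s k : ℝ) ^ θ) := by gcongr
      _ ≤ 2 * (b * (n : ℝ) ^ θ) := by gcongr
      _ = _ := by ring

end Pool.Agent.H739K
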