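import Pool.Agent.H739K.Defs

/-!
# S_swap: exchange of the coordinates
-/

set_option autoImplicit false

namespace Pool.Agent.H739K

open Finset Pool.Agent.H976R2 Pool.Agent.H924P

private theorem SWAP_loop (m : ℕ) (f : ZMod m → ℤ × ℤ) (hf : IsLoop m f) :
    IsLoop m (fun k => ((f k).2, (f k).1)) := by
  obtain ⟨h0, hinj, hs⟩ := hf
  refine ⟨?_, ?_, ?_⟩
  · change ((f 0).2, (f 0).1) = 0
    rw [h0]
    rfl
  · intro a b hab
    apply hinj
    have h1 := congrArg Prod.fst hab
    have h2 := congrArg Prod.snd hab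
    exact Prod.ext h2 h1
  · intro i
    change |(f (i + 1)).2 - (f i).2| + |(f (i + 1)).1 - (f i).1| = 1
    rw [add_comm]
    exact hs i

theorem SWAP_proof : S_swap := by
  intro m _ F
  refine finsum_mem_eq_of_bijOn (fun f => fun k => ((f k).2, (f k).1)) ⟨?_, ?_, ?_⟩ ?_
  · intro f hf
    exact SWAP_loop m f hf
  · intro f _ g _ hfg
    funext k
    have h := congrFun hfg k
    have h1 := congrArg Prod.fst h
    have h2 := congrArg Prod.snd h
    exact Prod.ext h2 h1
  · intro f hf
    exact ⟨fun k => ((f k).2, (f k).1), SWAP_loop m f hf, rfl⟩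
  · intro f _
    rfl

end Pool.Agent.H739K
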