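import Pool.Agent.H739K.F0
import Pool.Agent.H739K.F1
import Pool.Agent.H739K.F2a
import Pool.Agent.H739K.MAIN
import Pool.Agent.H739K.RATE
import Pool.Agent.H739K.RATIO
import Pool.Agent.H739K.BND
import Pool.Agent.H739K.CONV
import Pool.Agent.H739K.HOR
import Pool.Agent.H739K.SWAP
import Pool.Agent.H739K.SPA

set_option autoImplicit false

namespace Pool.Agent.H739K

open Filter Topology

theorem bnd : S_bnd := BND_proof CONV_proof
theorem main' : S_main := MAIN_proof RATE_proof bnd (RATIO_proof bnd)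
theorem f0 : S_F0 := F0_proof main' bnd
theorem f1 : S_F1 := F1_proof main' bnd CONV_proof
theorem f2a : S_F2a := F2a_proof HOR_proof SWAP_proof

lemma mu_ge : 2.43 ≤ H981.mu := bnd.1

lemma PP_pos {N : ℕ} (hN : 2 ≤ N) : 0 < H981.PP N := by
  obtain ⟨K, _, h⟩ := H981.PP_bounds9
  have h1 := (h N hN).1
  have h2 : 0 < H981.mu := H981.mu_pos
  exact lt_of_lt_of_le (by positivity) h1

lemma one_div_le_rN : ∃ c : ℝ, 0 ≤ c ∧ ∀ n : ℕ, 2 ≤ n → 1 / (n : ℝ) ≤ c * rN n := by
  refine ⟨(Real.sqrt (Real.log 2 ^ 9))⁻¹, by positivity, fun n hn => ?_⟩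
  have hn' : (2 : ℝ) ≤ n := by exact_mod_cast hn
  have hl : 0 < Real.log 2 := Real.log_pos (by norm_num)
  have hln : Real.log 2 ≤ Real.log n := Real.log_le_log (by norm_num) hn'
  have hs : 0 < Real.sqrt (Real.log 2 ^ 9) := by positivity
  rw [rN_eq, ← div_eq_inv_mul, le_div_iff₀ hs]
  calc 1 / (n : ℝ) * Real.sqrt (Real.log 2 ^ 9)
      = Real.sqrt ((1 / (n : ℝ)) ^ 2 * Real.log 2 ^ 9) := by
        rw [Real.sqrt_mul (by positivity), Real.sqrt_sq (by positivity)]
    _ ≤ Real.sqrt (Real.log n ^ 9 / n) := by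
        apply Real.sqrt_le_sqrt
        have h1 : (1 / (n : ℝ)) ^ 2 ≤ 1 / n := by
          rw [div_pow, one_pow]
          apply one_div_le_one_div_of_le (by linarith)
          nlinarith
        calc (1 / (n : ℝ)) ^ 2 * Real.log 2 ^ 9 ≤ 1 / n * Real.log n ^ 9 := by gcongr
          _ = Real.log n ^ 9 / n := by ring

lemma rN_bdd : ∃ B : ℝ, 0 ≤ B ∧ ∀ n : ℕ, rN n ≤ B := by
  have h0 : Tendsto (fun m : ℕ => rN m) atTop (𝓝 0) := by
    have := pow_mul_rN (β := 0) (by norm_num)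
    simpa using this
  obtain ⟨B, hB⟩ := h0.bddAbove_range
  refine ⟨max B 0, le_max_right _ _, fun n => ?_⟩
  exact (hB ⟨n, rfl⟩).trans (le_max_left _ _)

/-- powers of `(n+1)/n` -/
lemma pow_ratio (θ : ℝ) : ∃ c : ℝ, 0 ≤ c ∧ ∀ n : ℕ, 2 ≤ n →
    |((n + 1 : ℕ) : ℝ) ^ θ / (n : ℝ) ^ θ - 1| ≤ c / n := by
  refine ⟨2 ^ |θ| * |θ|, by positivity, fun n hn => ?_⟩
  have hn' : (2 : ℝ) ≤ n := by exact_mod_cast hn
  have hn0 : (0 : ℝ) < n := by linarith
  have h1 : ((n + 1 : ℕ) : ℝ) ^ θ / (n : ℝ) ^ θ = Real.exp (θ * Real.log (1 + 1 / n)) := by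
    rw [← Real.div_rpow (by positivity) hn0.le]
    have e : ((n + 1 : ℕ) : ℝ) / n = 1 + 1 / n := by push_cast; field_simp
    rw [e, Real.rpow_def_of_pos (by positivity), mul_comm]
  rw [h1]
  have hl0 : 0 ≤ Real.log (1 + 1 / (n : ℝ)) := Real.log_nonneg (by
    have : 0 ≤ 1 / (n : ℝ) := by positivity
    linarith)
  have hl1 : Real.log (1 + 1 / (n : ℝ)) ≤ 1 / n := by
    have := Real.log_le_sub_one_of_pos (show 0 < 1 + 1 / (n : ℝ) by positivity)
    linarith
  have hl2 : Real.log (1 + 1 / (n : ℝ)) ≤ Real.log 2 := Real.log_le_log (by positivity) (by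
    have : 1 / (n : ℝ) ≤ 1 := by rw [div_le_one hn0]; linarith
    linarith)
  set x := θ * Real.log (1 + 1 / (n : ℝ)) with hx
  have hxa : |x| ≤ |θ| / n := by
    rw [hx, abs_mul, abs_of_nonneg hl0]
    calc |θ| * Real.log (1 + 1 / (n : ℝ)) ≤ |θ| * (1 / n) := by gcongr
      _ = |θ| / n := by ring
  have hxb : |x| ≤ |θ| * Real.log 2 := by
    rw [hx, abs_mul, abs_of_nonneg hl0]
    gcongr
  have h2 : |Real.exp x - 1| ≤ |x| * Real.exp |x| := by
    rcases le_total 0 x with h0 | h0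
    · rw [abs_of_nonneg h0, abs_of_nonneg (by linarith [Real.add_one_le_exp x])]
      have := Real.add_one_le_exp (-x)
      have h3 : Real.exp x * (1 - x) ≤ 1 := by
        calc Real.exp x * (1 - x) ≤ Real.exp x * Real.exp (-x) := by
              gcongr
              linarith
          _ = 1 := by rw [← Real.exp_add]; simp
      nlinarith
    · have h4 : Real.exp x ≤ 1 := Real.exp_le_one_iff.mpr h0
      rw [abs_of_nonpos (by linarith), abs_of_nonpos h0]
      have h5 := Real.add_one_le_exp x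
      have h6 : 1 ≤ Real.exp (-x) := Real.one_le_exp (by linarith)
      nlinarith
  calc |Real.exp x - 1| ≤ |x| * Real.exp |x| := h2
    _ ≤ |θ| / n * Real.exp (|θ| * Real.log 2) := by gcongr
    _ = 2 ^ |θ| * |θ| / n := by
        rw [Real.rpow_def_of_pos (by norm_num : (0 : ℝ) < 2)]
        rw [mul_comm (Real.log 2)]
        ring

end Pool.Agent.H739K
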