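import Pool.Agent.H739K.Defs
import Pool.Agent.H976R2.KLip

set_option autoImplicit false

namespace Pool.Agent.H739K

open Finset Pool.Agent.H976R2 Pool.Agent.H976R2.Lip Pool.Agent.H924P

namespace BOXx

theorem vis_iff_lp (w : List Dir) (p : ℤ × ℤ) : vis w p ↔
    ∃ k : ZMod (w.length + 1), lp (w.length + 1) w k = p := by
  constructor
  · rintro ⟨a, b, hw, h1, h2⟩
    have hl : a.length < w.length + 1 := by rw [hw, List.length_append]; omega
    refine ⟨((a.length : ℕ) : ZMod (w.length + 1)), ?_⟩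
    unfold lp
    rw [ZMod.val_cast_of_lt hl]
    have : w.take a.length = a := by rw [hw]; simp
    rw [this, h1, h2]
  · rintro ⟨k, hk⟩
    refine ⟨w.take k.val, w.drop k.val, (List.take_append_drop _ _).symm, ?_, ?_⟩
    · rw [← hk]; rfl
    · rw [← hk]; rfl

theorem width_of (w : List Dir) (M m : ℤ) (hb : ∀ p, vis w p → m ≤ p.1 ∧ p.1 ≤ M)
    (h1 : ∃ p, vis w p ∧ p.1 = M) (h2 : ∃ p, vis w p ∧ p.1 = m) :
    (width (w.length + 1) (lp (w.length + 1) w) : ℤ) = M - m := by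
  obtain ⟨p, hp, hpM⟩ := h1
  obtain ⟨q, hq, hqm⟩ := h2
  obtain ⟨kp, hkp⟩ := (vis_iff_lp w p).mp hp
  obtain ⟨kq, hkq⟩ := (vis_iff_lp w q).mp hq
  have hle : m ≤ M := by
    have := hb p hp
    omega
  have hset : ∀ x ∈ {x : ℕ | ∃ i j, x = ((lp (w.length + 1) w i).1 -
      (lp (w.length + 1) w j).1).natAbs}, x ≤ (M - m).toNat := by
    rintro x ⟨i, j, rfl⟩
    have hi := hb _ ((vis_iff_lp w _).mpr ⟨i, rfl⟩)
    have hj := hb _ ((vis_iff_lp w _).mpr ⟨j, rfl⟩)
    omega
  have hmem : (M - m).toNat ∈ {x : ℕ | ∃ i j, x = ((lp (w.length + 1) w i).1 -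
      (lp (w.length + 1) w j).1).natAbs} := by
    refine ⟨kp, kq, ?_⟩
    rw [hkp, hkq, hpM, hqm]
    omega
  have : width (w.length + 1) (lp (w.length + 1) w) = (M - m).toNat := by
    unfold width
    apply le_antisymm
    · exact csSup_le ⟨_, hmem⟩ hset
    · exact le_csSup ⟨_, hset⟩ hmem
  rw [this]
  omega

theorem height_of (w : List Dir) (M m : ℤ) (hb : ∀ p, vis w p → m ≤ p.2 ∧ p.2 ≤ M)
    (h1 : ∃ p, vis w p ∧ p.2 = M) (h2 : ∃ p, vis w p ∧ p.2 = m) :
    (height (w.length + 1) (lp (w.length + 1) w) : ℤ) = M - m := by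
  obtain ⟨p, hp, hpM⟩ := h1
  obtain ⟨q, hq, hqm⟩ := h2
  obtain ⟨kp, hkp⟩ := (vis_iff_lp w p).mp hp
  obtain ⟨kq, hkq⟩ := (vis_iff_lp w q).mp hq
  have hle : m ≤ M := by
    have := hb p hp
    omega
  have hset : ∀ x ∈ {x : ℕ | ∃ i j, x = ((lp (w.length + 1) w i).2 -
      (lp (w.length + 1) w j).2).natAbs}, x ≤ (M - m).toNat := by
    rintro x ⟨i, j, rfl⟩
    have hi := hb _ ((vis_iff_lp w _).mpr ⟨i, rfl⟩)
    have hj := hb _ ((vis_iff_lp w _).mpr ⟨j, rfl⟩)
    omega
  have hmem : (M - m).toNat ∈ {x : ℕ | ∃ i j, x = ((lp (w.length + 1) w i).2 -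
      (lp (w.length + 1) w j).2).natAbs} := by
    refine ⟨kp, kq, ?_⟩
    rw [hkp, hkq, hpM, hqm]
    omega
  have : height (w.length + 1) (lp (w.length + 1) w) = (M - m).toNat := by
    unfold height
    apply le_antisymm
    · exact csSup_le ⟨_, hmem⟩ hset
    · exact le_csSup ⟨_, hset⟩ hmem
  rw [this]
  omega

theorem exists_max (w : List Dir) (g : ℤ × ℤ → ℤ) : ∃ M : ℤ, (∀ p, vis w p → g p ≤ M) ∧
    ∃ p, vis w p ∧ g p = M := by
  obtain ⟨k, _, hk⟩ := Finset.exists_max_image (Finset.univ : Finset (ZMod (w.length + 1)))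
    (fun k => g (lp (w.length + 1) w k)) ⟨0, Finset.mem_univ _⟩
  refine ⟨g (lp (w.length + 1) w k), ?_, ⟨_, (vis_iff_lp w _).mpr ⟨k, rfl⟩, rfl⟩⟩
  intro p hp
  obtain ⟨j, rfl⟩ := (vis_iff_lp w p).mp hp
  exact hk j (Finset.mem_univ _)

theorem vis_PP (w : List Dir) (j : ℕ) : vis w (PP w j) :=
  ⟨w.take j, w.drop j, (List.take_append_drop _ _).symm, rfl, rfl⟩

/-- the four extreme coordinates -/
theorem exists_box (w : List Dir) : ∃ Mx mx My my : ℤ,
    (∀ p, vis w p → mx ≤ p.1 ∧ p.1 ≤ Mx ∧ my ≤ p.2 ∧ p.2 ≤ My) ∧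
    (∃ p, vis w p ∧ p.1 = Mx) ∧ (∃ p, vis w p ∧ p.1 = mx) ∧
    (∃ p, vis w p ∧ p.2 = My) ∧ (∃ p, vis w p ∧ p.2 = my) := by
  obtain ⟨Mx, h1, h1'⟩ := exists_max w (fun p => p.1)
  obtain ⟨mx, h2, h2'⟩ := exists_max w (fun p => -p.1)
  obtain ⟨My, h3, h3'⟩ := exists_max w (fun p => p.2)
  obtain ⟨my, h4, h4'⟩ := exists_max w (fun p => -p.2)
  refine ⟨Mx, -mx, My, -my, ?_, h1', ?_, h3', ?_⟩
  · intro p hp
    have a1 := h1 p hp
    have a2 := h2 p hp
    have a3 := h3 p hp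
    have a4 := h4 p hp
    refine ⟨by omega, a1, by omega, a3⟩
  · obtain ⟨p, hp, e⟩ := h2'
    exact ⟨p, hp, by omega⟩
  · obtain ⟨p, hp, e⟩ := h4'
    exact ⟨p, hp, by omega⟩

theorem bx_of (w : List Dir) (Mx mx My my : ℤ)
    (hb : ∀ p, vis w p → mx ≤ p.1 ∧ p.1 ≤ Mx ∧ my ≤ p.2 ∧ p.2 ≤ My)
    (h1 : ∃ p, vis w p ∧ p.1 = Mx) (h2 : ∃ p, vis w p ∧ p.1 = mx)
    (h3 : ∃ p, vis w p ∧ p.2 = My) (h4 : ∃ p, vis w p ∧ p.2 = my) :
    (bx w : ℤ) = (Mx - mx) + (My - my) := by
  unfold bx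
  push_cast
  rw [width_of w Mx mx (fun p hp => ⟨(hb p hp).1, (hb p hp).2.1⟩) h1 h2,
    height_of w My my (fun p hp => ⟨(hb p hp).2.2.1, (hb p hp).2.2.2⟩) h3 h4]

/-- effect of an insertion -/
theorem bx_ins (w : List Dir) (i : ℕ) (e : Dir) (hi : i < w.length) (he : perp e (lt w i))
    (Mx mx My my : ℤ)
    (hb : ∀ p, vis w p → mx ≤ p.1 ∧ p.1 ≤ Mx ∧ my ≤ p.2 ∧ p.2 ≤ My)
    (h1 : ∃ p, vis w p ∧ p.1 = Mx) (h2 : ∃ p, vis w p ∧ p.1 = mx)
    (h3 : ∃ p, vis w p ∧ p.2 = My) (h4 : ∃ p, vis w p ∧ p.2 = my) :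
    (bx (ins w i e) : ℤ) = bx w +
      (if (e = Dir.N ∧ (PP w i).2 = My) ∨ (e = Dir.S ∧ (PP w i).2 = my) ∨
        (e = Dir.E ∧ (PP w i).1 = Mx) ∨ (e = Dir.W ∧ (PP w i).1 = mx) then 1 else 0) := by
  have hP := hb _ (vis_PP w i)
  have hP1 := hb _ (vis_PP w (i + 1))
  rw [PP_succ w i hi] at hP1
  rw [bx_of w Mx mx My my hb h1 h2 h3 h4]
  set d := lt w i with hd
  set P := PP w i with hPdef
  have hv := vis_ins w i e hi
  have up : ∀ p, vis w p → vis (ins w i e) p := fun p hp => (hv p).mpr (Or.inl hp)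
  have n1 : vis (ins w i e) (P + dv e) := (hv _).mpr (Or.inr (Or.inl rfl))
  have lift : ∀ {g : ℤ × ℤ → ℤ} {c : ℤ}, (∃ p, vis w p ∧ g p = c) →
      ∃ p, vis (ins w i e) p ∧ g p = c := fun ⟨p, hp, hg⟩ => ⟨p, up p hp, hg⟩
  have all : ∀ (Q : ℤ × ℤ → Prop), (∀ p, vis w p → Q p) → Q (P + dv e) → Q (P + dv e + dv d) →
      ∀ p, vis (ins w i e) p → Q p := by
    intro Q q1 q2 q3 p hp
    rcases (hv p).mp hp with h | h | h
    · exact q1 p h
    · rw [h]; exact q2
    · rw [h]; exact q3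
  have key : ∀ (Mx' mx' My' my' : ℤ), Mx' = max Mx (P + dv e).1 → mx' = min mx (P + dv e).1 →
      My' = max My (P + dv e).2 → my' = min my (P + dv e).2 →
      (dx e = 0 ∨ dx d = 0) → (dy e = 0 ∨ dy d = 0) →
      (bx (ins w i e) : ℤ) = (Mx' - mx') + (My' - my') := by
    intro Mx' mx' My' my' e1 e2 e3 e4 hx hy
    apply bx_of
    · apply all
      · intro p hp
        have := hb p hp
        refine ⟨by rw [e2]; exact (min_le_left _ _).trans this.1,
          by rw [e1]; exact this.2.1.trans (le_max_left _ _),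
          by rw [e4]; exact (min_le_left _ _).trans this.2.2.1,
          by rw [e3]; exact this.2.2.2.trans (le_max_left _ _)⟩
      · refine ⟨by rw [e2]; exact min_le_right _ _, by rw [e1]; exact le_max_right _ _,
          by rw [e4]; exact min_le_right _ _, by rw [e3]; exact le_max_right _ _⟩
      · simp only [dv, Prod.fst_add, Prod.snd_add] at e1 e2 e3 e4 hP hP1 ⊢
        refine ⟨?_, ?_, ?_, ?_⟩
        · rcases hx with hx | hx <;> rw [hx] at * <;> omega
        · rcases hx with hx | hx <;> rw [hx] at * <;> omega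
        · rcases hy with hy | hy <;> rw [hy] at * <;> omega
        · rcases hy with hy | hy <;> rw [hy] at * <;> omega
    · rcases max_choice Mx (P + dv e).1 with h | h
      · rw [e1, h]; exact lift (g := fun p => p.1) h1
      · rw [e1, h]; exact ⟨_, n1, rfl⟩
    · rcases min_choice mx (P + dv e).1 with h | h
      · rw [e2, h]; exact lift (g := fun p => p.1) h2
      · rw [e2, h]; exact ⟨_, n1, rfl⟩
    · rcases max_choice My (P + dv e).2 with h | h
      · rw [e3, h]; exact lift (g := fun p => p.2) h3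
      · rw [e3, h]; exact ⟨_, n1, rfl⟩
    · rcases min_choice my (P + dv e).2 with h | h
      · rw [e4, h]; exact lift (g := fun p => p.2) h4
      · rw [e4, h]; exact ⟨_, n1, rfl⟩
  have hxd : dx e = 0 ∨ dx d = 0 := by
    revert he
    cases e <;> cases d <;> simp [perp, dx, dy]
  have hyd : dy e = 0 ∨ dy d = 0 := by
    revert he
    cases e <;> cases d <;> simp [perp, dx, dy]
  rw [key _ _ _ _ rfl rfl rfl rfl hxd hyd]
  clear key all lift n1 up hv
  cases e <;> simp only [dv, dx, dy, Prod.fst_add, Prod.snd_add, add_zero, reduceCtorEq,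
    false_and, true_and, false_or, or_false] <;> split_ifs <;> omega

theorem count_line (w : List Dir) (hw : Saw w) (g h : ℤ × ℤ → ℤ) (c lo hi : ℤ)
    (hinj : ∀ p q : ℤ × ℤ, g p = g q → h p = h q → p = q)
    (hb : ∀ p, vis w p → lo ≤ h p ∧ h p ≤ hi) :
    ((range w.length).filter (fun i => g (PP w i) = c)).card ≤ (hi - lo + 1).toNat := by
  have hcard : (Finset.Icc lo hi).card = (hi - lo + 1).toNat := by
    rw [Int.card_Icc]; congr 1; ring
  rw [← hcard]
  apply Finset.card_le_card_of_injOn (fun i => h (PP w i))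
  · intro i _
    rw [Finset.coe_Icc, Set.mem_Icc]
    exact hb _ (vis_PP w i)
  · intro i hi j hj hij
    simp only [Finset.coe_filter, Finset.mem_range, Set.mem_setOf_eq] at hi hj
    have := hinj _ _ (hi.2.trans hj.2.symm) hij
    exact PP_inj hw hi.1.le hj.1.le this

end BOXx

open BOXx in
theorem BOX_proof : S_box := by
  classical
  intro w h3 hw hsq
  obtain ⟨Mx, mx, My, my, hb, h1, h2, h3', h4⟩ := exists_box w
  have hins : ∀ p ∈ adm w, (bx (ins w p.1 p.2) : ℤ) = bx w +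
      (if (p.2 = Dir.N ∧ (PP w p.1).2 = My) ∨ (p.2 = Dir.S ∧ (PP w p.1).2 = my) ∨
        (p.2 = Dir.E ∧ (PP w p.1).1 = Mx) ∨ (p.2 = Dir.W ∧ (PP w p.1).1 = mx) then 1 else 0) := by
    rintro ⟨i, e⟩ hp
    rw [mem_adm hw] at hp
    exact bx_ins w i e hp.1 hp.2.1 Mx mx My my hb h1 h2 h3' h4
  refine ⟨?_, ?_⟩
  · intro p hp
    have := hins p hp
    split_ifs at this <;> omega
  · have hbx := bx_of w Mx mx My my hb h1 h2 h3' h4
    have hsum : ∑ p ∈ adm w, ((bx (ins w p.1 p.2) : ℝ) - bx w) =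
        ((∑ p ∈ adm w, (if (p.2 = Dir.N ∧ (PP w p.1).2 = My) ∨ (p.2 = Dir.S ∧ (PP w p.1).2 = my) ∨
        (p.2 = Dir.E ∧ (PP w p.1).1 = Mx) ∨ (p.2 = Dir.W ∧ (PP w p.1).1 = mx) then (1 : ℕ) else 0) :
          ℕ) : ℝ) := by
      rw [Nat.cast_sum]
      apply Finset.sum_congr rfl
      intro p hp
      have := hins p hp
      have h5 : ((bx (ins w p.1 p.2) : ℤ) : ℝ) = ((bx w : ℤ) : ℝ) +
        (((if (p.2 = Dir.N ∧ (PP w p.1).2 = My) ∨ (p.2 = Dir.S ∧ (PP w p.1).2 = my) ∨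
        (p.2 = Dir.E ∧ (PP w p.1).1 = Mx) ∨ (p.2 = Dir.W ∧ (PP w p.1).1 = mx) then 1 else 0 : ℤ)) :
          ℝ) := by
        rw [this]; push_cast; rfl
      simp only [Int.cast_natCast] at h5
      rw [h5]
      split_ifs <;> simp
    rw [hsum]
    have hcount : ∑ p ∈ adm w, (if (p.2 = Dir.N ∧ (PP w p.1).2 = My) ∨
        (p.2 = Dir.S ∧ (PP w p.1).2 = my) ∨ (p.2 = Dir.E ∧ (PP w p.1).1 = Mx) ∨
        (p.2 = Dir.W ∧ (PP w p.1).1 = mx) then (1 : ℕ) else 0) ≤
        2 * (Mx - mx + 1).toNat + 2 * (My - my + 1).toNat := by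
      rw [← Finset.card_filter]
      set A := (adm w).filter (fun p => (p.2 = Dir.N ∧ (PP w p.1).2 = My) ∨
        (p.2 = Dir.S ∧ (PP w p.1).2 = my) ∨ (p.2 = Dir.E ∧ (PP w p.1).1 = Mx) ∨
        (p.2 = Dir.W ∧ (PP w p.1).1 = mx)) with hA
      have hsub : A ⊆ ((((range w.length).filter (fun i => (PP w i).2 = My)).image
          (fun i => (i, Dir.N))) ∪ (((range w.length).filter (fun i => (PP w i).2 = my)).image
          (fun i => (i, Dir.S)))) ∪ ((((range w.length).filter (fun i => (PP w i).1 = Mx)).image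
          (fun i => (i, Dir.E))) ∪ (((range w.length).filter (fun i => (PP w i).1 = mx)).image
          (fun i => (i, Dir.W)))) := by
        rintro ⟨i, e⟩ hp
        rw [hA, Finset.mem_filter, mem_adm hw] at hp
        obtain ⟨⟨hi, _⟩, hp⟩ := hp
        simp only at hp
        simp only [Finset.mem_union, Finset.mem_image, Finset.mem_filter, Finset.mem_range,
          Prod.mk.injEq]
        rcases hp with ⟨e1, e2⟩ | ⟨e1, e2⟩ | ⟨e1, e2⟩ | ⟨e1, e2⟩
        · left; left; exact ⟨i, ⟨hi, e2⟩, rfl, e1.symm⟩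
        · left; right; exact ⟨i, ⟨hi, e2⟩, rfl, e1.symm⟩
        · right; left; exact ⟨i, ⟨hi, e2⟩, rfl, e1.symm⟩
        · right; right; exact ⟨i, ⟨hi, e2⟩, rfl, e1.symm⟩
      refine (Finset.card_le_card hsub).trans ?_
      refine (Finset.card_union_le _ _).trans ?_
      have c1 : ((range w.length).filter (fun i => (PP w i).2 = My)).card ≤ (Mx - mx + 1).toNat :=
        count_line w hw (fun p => p.2) (fun p => p.1) My mx Mx
          (fun p q a b => Prod.ext b a) (fun p hp => ⟨(hb p hp).1, (hb p hp).2.1⟩)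
      have c2 : ((range w.length).filter (fun i => (PP w i).2 = my)).card ≤ (Mx - mx + 1).toNat :=
        count_line w hw (fun p => p.2) (fun p => p.1) my mx Mx
          (fun p q a b => Prod.ext b a) (fun p hp => ⟨(hb p hp).1, (hb p hp).2.1⟩)
      have c3 : ((range w.length).filter (fun i => (PP w i).1 = Mx)).card ≤ (My - my + 1).toNat :=
        count_line w hw (fun p => p.1) (fun p => p.2) Mx my My
          (fun p q a b => Prod.ext a b) (fun p hp => ⟨(hb p hp).2.2.1, (hb p hp).2.2.2⟩)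
      have c4 : ((range w.length).filter (fun i => (PP w i).1 = mx)).card ≤ (My - my + 1).toNat :=
        count_line w hw (fun p => p.1) (fun p => p.2) mx my My
          (fun p q a b => Prod.ext a b) (fun p hp => ⟨(hb p hp).2.2.1, (hb p hp).2.2.2⟩)
      have d1 := Finset.card_union_le
        (((range w.length).filter (fun i => (PP w i).2 = My)).image (fun i => (i, Dir.N)))
        (((range w.length).filter (fun i => (PP w i).2 = my)).image (fun i => (i, Dir.S)))
      have d2 := Finset.card_union_le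
        (((range w.length).filter (fun i => (PP w i).1 = Mx)).image (fun i => (i, Dir.E)))
        (((range w.length).filter (fun i => (PP w i).1 = mx)).image (fun i => (i, Dir.W)))
      have e1 := Finset.card_image_le (s := (range w.length).filter (fun i => (PP w i).2 = My))
        (f := fun i => (i, Dir.N))
      have e2 := Finset.card_image_le (s := (range w.length).filter (fun i => (PP w i).2 = my))
        (f := fun i => (i, Dir.S))
      have e3 := Finset.card_image_le (s := (range w.length).filter (fun i => (PP w i).1 = Mx))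
        (f := fun i => (i, Dir.E))
      have e4 := Finset.card_image_le (s := (range w.length).filter (fun i => (PP w i).1 = mx))
        (f := fun i => (i, Dir.W))
      omega
    have hone : 1 ≤ (Mx - mx) + (My - my) := by
      have hP0 := hb _ (vis_PP w 0)
      have hP1 := hb _ (vis_PP w (0 + 1))
      rw [PP_succ w 0 (by omega)] at hP1
      have h00 : PP w 0 = 0 := by unfold PP; simp
      rw [h00] at hP0 hP1
      simp only [dv, Prod.fst_add, Prod.snd_add, Prod.fst_zero, Prod.snd_zero, zero_add] at hP0 hP1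
      have : (dx (lt w 0) ≠ 0) ∨ (dy (lt w 0) ≠ 0) := by
        cases lt w 0 <;> simp [dx, dy]
      omega
    have hx0 := hb _ (vis_PP w 0)
    have hfin : 2 * (Mx - mx + 1).toNat + 2 * (My - my + 1).toNat ≤ 6 * bx w := by omega
    exact_mod_cast hcount.trans hfin

end Pool.Agent.H739K
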