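import Pool.Agent.H739K.Goals

set_option autoImplicit false

namespace Pool.Agent.H739K

open Finset Pool.Agent.H976R2 Pool.Agent.H924P
open scoped Classical

noncomputable section

namespace F2aux

theorem par (w : List Dir) : (wX w + wY w + w.length) % 2 = 0 := by
  induction w with
  | nil => simp
  | cons d w ih =>
    rw [wX_cons, wY_cons, List.length_cons]
    push_cast
    cases d <;> simp only [dx, dy] <;> omega

theorem odd_len {w : List Dir} (h : sq w = 1) : w.length % 2 = 1 := by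
  have h1 : (wX w) ^ 2 + (wY w) ^ 2 = 1 := by
    unfold Pool.Agent.H976R2.sq at h
    exact_mod_cast h
  have h2 := par w
  obtain ⟨x, hx⟩ := Int.even_mul_succ_self (wX w)
  obtain ⟨y, hy⟩ := Int.even_mul_succ_self (wY w)
  have h3 : wX w + wY w + 1 = 2 * (x + y) := by nlinarith
  omega

theorem loop_of (hc : S_conv) {w : List Dir} (h3 : 3 ≤ w.length) (hs : Saw w) (h : sq w = 1) :
    IsLoop (w.length + 1) (lp (w.length + 1) w) := by
  have ho := odd_len h
  obtain ⟨N, hN⟩ : ∃ N, w.length + 1 = 2 * N := ⟨(w.length + 1) / 2, by omega⟩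
  have hN2 : 2 ≤ N := by omega
  have hm : w ∈ KP (2 * N - 1) := by
    unfold KP
    rw [Finset.mem_filter, mem_SW]
    exact ⟨⟨by omega, hs⟩, h⟩
  have := (hc N hN2).2.2 w hm
  rw [hN]
  exact this

/-- the weight -/
def ph (w : List Dir) : ℝ := ar w + w.length

theorem nice (hc : S_conv) (ha : S_area) (m : ℕ) (hm : 3 ≤ m) : Nice 6 m ph := by
  refine ⟨?_, ?_, ?_⟩
  · intro w h1 h2 hs hq
    unfold ph
    have h3 : (3 : ℝ) ≤ w.length := by exact_mod_cast hm.trans h1
    have h4 : (0 : ℝ) ≤ ar w := Nat.cast_nonneg _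
    linarith
  · intro w h1 h2 hs hq
    have hl := loop_of hc (hm.trans h1) hs hq
    have h3 : ar w ≤ (2 * (w.length + 1)) ^ 2 := by
      have : NeZero (w.length + 1) := ⟨by omega⟩
      exact all_area hl
    have h4 : (ar w : ℝ) ≤ (2 * ((w.length : ℝ) + 1)) ^ 2 := by exact_mod_cast h3
    have h5 : (w.length : ℝ) ≤ (m : ℝ) + 4 := by exact_mod_cast h2
    have h0 : (0 : ℝ) ≤ w.length := Nat.cast_nonneg _
    have hm0 : (0 : ℝ) ≤ m := Nat.cast_nonneg _
    unfold ph
    have h6 : (2 * ((w.length : ℝ) + 1)) ^ 2 ≤ (2 * ((m : ℝ) + 5)) ^ 2 :=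
      pow_le_pow_left₀ (by positivity) (by linarith) 2
    nlinarith [mul_nonneg hm0 hm0, mul_nonneg (mul_nonneg hm0 hm0) hm0]
  · intro w h1 h2 hs hq
    have h3 : ∀ p ∈ adm w, |ph (ins w p.1 p.2) - ph w| ≤ 3 := by
      rintro ⟨i, e⟩ hp
      have hi : i < w.length := (mem_adm.1 hp).1
      obtain ⟨a1, a2⟩ := ha w i e (hm.trans h1) hs hq hp
      have b1 : (ar (ins w i e) : ℝ) ≤ ar w + 1 := by exact_mod_cast a1
      have b2 : (ar w : ℝ) ≤ ar (ins w i e) + 1 := by exact_mod_cast a2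
      unfold ph
      simp only
      rw [length_ins e hi]
      push_cast
      rw [abs_le]
      constructor <;> linarith
    refine (Finset.sum_le_sum h3).trans ?_
    rw [Finset.sum_const, nsmul_eq_mul]
    have h4 : ((adm w).card : ℝ) ≤ 2 * w.length := by exact_mod_cast AA_le w
    have h5 : (0 : ℝ) ≤ ar w := Nat.cast_nonneg _
    unfold ph
    linarith

theorem mean_eq (hc : S_conv) (h2 : S_F2a) (N : ℕ) (hN : 2 ≤ N) :
    mm ph (2 * N - 1) / ((KP (2 * N - 1)).card : ℝ) = MA N + (2 * N - 1) := by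
  obtain ⟨c1, c2, c3⟩ := hc N hN
  have hpos : 0 < MA N := by
    have := h2 N hN
    have h3 : (2 : ℝ) ≤ N := by exact_mod_cast hN
    linarith
  have hMA : MA N = (∑ w ∈ KP (2 * N - 1), (area (2 * N) (lp (2 * N) w) : ℝ)) /
      ((KP (2 * N - 1)).card : ℝ) := by
    unfold MA me
    rw [c1, c2]
  have hcard : ((KP (2 * N - 1)).card : ℝ) ≠ 0 := by
    intro h0
    rw [hMA, h0, div_zero] at hpos
    exact lt_irrefl _ hpos
  have hmm : mm ph (2 * N - 1) = (∑ w ∈ KP (2 * N - 1), (area (2 * N) (lp (2 * N) w) : ℝ)) +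
      ((KP (2 * N - 1)).card : ℝ) * (2 * N - 1) := by
    unfold mm
    have : ∀ w ∈ KP (2 * N - 1), ph w = (area (2 * N) (lp (2 * N) w) : ℝ) + (2 * N - 1) := by
      intro w hw
      have hl : w.length = 2 * N - 1 := (mem_SW.1 (Finset.mem_filter.1 hw).1).1
      have hl2 : w.length + 1 = 2 * N := by omega
      unfold ph ar
      rw [hl2]
      have h3 : (w.length : ℝ) + 1 = 2 * N := by exact_mod_cast hl2
      linarith
    rw [Finset.sum_congr rfl this, Finset.sum_add_distrib, Finset.sum_const, nsmul_eq_mul]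
  rw [hmm, hMA]
  field_simp

theorem inv_le (N : ℕ) (hN : 2 ≤ N) : 1 / (N : ℝ) ≤ 8 * rN N := by
  have hN' : (2 : ℝ) ≤ N := by exact_mod_cast hN
  have h1 : Real.log 2 ≤ Real.log N := Real.log_le_log (by norm_num) hN'
  have h2 := Real.log_two_gt_d9
  have h3 : (1 / 64 : ℝ) ≤ (Real.log N) ^ 9 := by
    calc (1 / 64 : ℝ) ≤ (0.69 : ℝ) ^ 9 := by norm_num
      _ ≤ _ := pow_le_pow_left₀ (by norm_num) (by linarith) 9
  have h4 : (1 / 8) * (1 / (N : ℝ)) ≤ rN N := by
    unfold rN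
    apply Real.le_sqrt_of_sq_le
    rw [mul_pow, div_pow, one_pow, one_div_pow]
    rw [le_div_iff₀ (by positivity)]
    have h5 : 1 / (N : ℝ) ^ 2 * N ≤ 1 := by
      rw [pow_two, one_div_mul_eq_div]
      rw [div_le_one (by positivity)]
      nlinarith
    calc _ = (1 / 8 ^ 2) * (1 / (N : ℝ) ^ 2 * N) := by ring
      _ ≤ (1 / 8 ^ 2) * 1 := mul_le_mul_of_nonneg_left h5 (by norm_num)
      _ ≤ _ := by norm_num at h3 ⊢; linarith
  linarith

end F2aux

open F2aux in
theorem F2_proof (h0 : S_F0) (hc : S_conv) (ha : S_area) (h2 : S_F2a) : S_F2 := by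
  obtain ⟨C, hC⟩ := h0 6 (by norm_num)
  refine ⟨5 * C + 32, fun N hN => ?_⟩
  have h1 := hC N ph hN (fun m hm _ _ => nice hc ha m hm)
  rw [mean_eq hc h2 N hN] at h1
  have e1 := mean_eq hc h2 (N + 1) (by omega)
  have e2 : 2 * (N + 1) - 1 = 2 * N + 1 := by omega
  rw [e2] at e1
  rw [e1] at h1
  have hA := h2 N hN
  have hN' : (2 : ℝ) ≤ N := by exact_mod_cast hN
  have hA0 : 0 < MA N := by linarith
  have hB0 : 0 < MA N + (2 * N - 1) := by linarith
  push_cast at h1
  set A := MA N with hAdef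
  set A' := MA (N + 1) with hA'def
  set δ : ℝ := (A' + (2 * ((N : ℝ) + 1) - 1)) / (A + (2 * N - 1)) - 1 with hδ
  have h3 : A' - A = (A + (2 * N - 1)) * δ - 2 := by
    rw [hδ]
    field_simp
    ring
  have h4 : A' / A - 1 = (A + (2 * N - 1)) / A * δ - 2 / A := by
    have : A' / A - 1 = (A' - A) / A := by field_simp
    rw [this, h3]
    ring
  have h5 : (A + (2 * N - 1)) / A ≤ 5 := by
    rw [div_le_iff₀ hA0]
    linarith
  have h5' : 0 ≤ (A + (2 * N - 1)) / A := by positivity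
  have h6 : 2 / A ≤ 4 * (1 / (N : ℝ)) := by
    rw [div_le_iff₀ hA0]
    have : 4 * (1 / (N : ℝ)) * (N / 2) = 2 := by field_simp; norm_num
    calc (2 : ℝ) = 4 * (1 / (N : ℝ)) * (N / 2) := this.symm
      _ ≤ _ := mul_le_mul_of_nonneg_left hA (by positivity)
  have h7 := inv_le N hN
  have h8 : 0 ≤ 2 / A := by positivity
  rw [h4]
  calc |(A + (2 * N - 1)) / A * δ - 2 / A| ≤ |(A + (2 * N - 1)) / A * δ| + |2 / A| := abs_sub _ _
    _ = (A + (2 * N - 1)) / A * |δ| + 2 / A := by rw [abs_mul, abs_of_nonneg h5', abs_of_nonneg h8]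
    _ ≤ 5 * (C * rN N) + 4 * (8 * rN N) := by
      apply add_le_add
      · exact mul_le_mul h5 h1 (abs_nonneg _) (by norm_num)
      · linarith
    _ = _ := by ring

end

end Pool.Agent.H739K
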