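import Pool.Agent.H739K.Goals

/-!
# F3: ratio of the mean widths
-/

set_option autoImplicit false

namespace Pool.Agent.H739K

open Finset Pool.Agent.H976R2 Pool.Agent.H924P
open scoped Classical

noncomputable section

namespace F3x

lemma me_eq (hc : S_conv) {N : ℕ} (hN : 2 ≤ N) (F : (ZMod (2 * N) → ℤ × ℤ) → ℝ) :
    me N F = (∑ w ∈ KP (2 * N - 1), F (lp (2 * N) w)) / ((KP (2 * N - 1)).card : ℝ) := by
  unfold me
  rw [(hc N hN).1 F, (hc N hN).2.1]

lemma len_of_KP {n : ℕ} {w : List Dir} (h : w ∈ KP n) : w.length = n :=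
  (mem_SW.mp (mem_filter.mp h).1).1

lemma bx_eq {N : ℕ} (hN : 2 ≤ N) {w : List Dir} (h : w ∈ KP (2 * N - 1)) :
    bx w = width (2 * N) (lp (2 * N) w) + height (2 * N) (lp (2 * N) w) := by
  have hl := len_of_KP h
  have e : w.length + 1 = 2 * N := by omega
  unfold bx
  rw [e]

lemma site_bd (m : ℕ) (w : List Dir) (k : ZMod m) :
    |(lp m w k).1| ≤ w.length ∧ |(lp m w k).2| ≤ w.length := by
  have h := abs_wX_wY_le (w.take k.val)
  have h1 : ((w.take k.val).length : ℤ) ≤ w.length := by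
    exact_mod_cast List.length_take_le' k.val w
  have h2 := abs_nonneg (wX (w.take k.val))
  have h3 := abs_nonneg (wY (w.take k.val))
  unfold lp
  constructor
  · show |wX (w.take k.val)| ≤ _
    linarith
  · show |wY (w.take k.val)| ≤ _
    linarith

lemma dist_bd (m : ℕ) (w : List Dir) (i j : ZMod m) :
    ((lp m w i).1 - (lp m w j).1).natAbs ≤ 2 * w.length ∧
    ((lp m w i).2 - (lp m w j).2).natAbs ≤ 2 * w.length := by
  obtain ⟨h1, h2⟩ := site_bd m w i
  obtain ⟨h3, h4⟩ := site_bd m w j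
  rw [abs_le] at h1 h2 h3 h4
  constructor <;> omega

lemma bx_le (w : List Dir) : bx w ≤ 4 * w.length := by
  have h1 : width (w.length + 1) (lp (w.length + 1) w) ≤ 2 * w.length :=
    width_le fun i j => (dist_bd _ w i j).1
  have h2 : height (w.length + 1) (lp (w.length + 1) w) ≤ 2 * w.length :=
    height_le fun i j => (dist_bd _ w i j).2
  unfold bx
  omega

lemma bx_pos (w : List Dir) (hw : 1 ≤ w.length) : 1 ≤ bx w := by
  have hb1 : BddAbove {x : ℕ | ∃ i j, x = ((lp (w.length + 1) w i).1 -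
      (lp (w.length + 1) w j).1).natAbs} := by
    refine ⟨2 * w.length, ?_⟩
    rintro x ⟨i, j, rfl⟩
    exact (dist_bd _ w i j).1
  have hb2 : BddAbove {x : ℕ | ∃ i j, x = ((lp (w.length + 1) w i).2 -
      (lp (w.length + 1) w j).2).natAbs} := by
    refine ⟨2 * w.length, ?_⟩
    rintro x ⟨i, j, rfl⟩
    exact (dist_bd _ w i j).2
  have h1 : ((lp (w.length + 1) w ((1 : ℕ) : ZMod (w.length + 1))).1 -
      (lp (w.length + 1) w 0).1).natAbs ≤ width (w.length + 1) (lp (w.length + 1) w) :=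
    le_csSup hb1 ⟨_, _, rfl⟩
  have h2 : ((lp (w.length + 1) w ((1 : ℕ) : ZMod (w.length + 1))).2 -
      (lp (w.length + 1) w 0).2).natAbs ≤ height (w.length + 1) (lp (w.length + 1) w) :=
    le_csSup hb2 ⟨_, _, rfl⟩
  have hv1 : (((1 : ℕ) : ZMod (w.length + 1))).val = 1 := ZMod.val_cast_of_lt (by omega)
  have hv0 : ((0 : ZMod (w.length + 1))).val = 0 := ZMod.val_zero
  obtain ⟨d, w', rfl⟩ : ∃ d w', w = d :: w' := by
    cases w with
    | nil => simp at hw
    | cons d w' => exact ⟨d, w', rfl⟩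
  simp only [lp, hv1, hv0] at h1 h2
  simp only [List.take_zero, wX_nil, wY_nil, sub_zero, List.take_succ_cons, wX_cons, wY_cons,
    add_zero] at h1 h2
  have h3 : (dx d).natAbs + (dy d).natAbs = 1 := by cases d <;> simp [dx, dy]
  unfold bx
  omega

lemma nice (hb : S_box) (m : ℕ) (hm : 3 ≤ m) : Nice 6 m (fun w => (bx w : ℝ)) where
  one_le := by
    intro w h1 _ _ _
    exact_mod_cast bx_pos w (by omega)
  le := by
    intro w _ h2 _ _
    have h3 : (bx w : ℝ) ≤ 4 * w.length := by exact_mod_cast bx_le w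
    have h4 : (w.length : ℝ) ≤ m + 4 := by exact_mod_cast h2
    have h5 : (3 : ℝ) ≤ m := by exact_mod_cast hm
    show (bx w : ℝ) ≤ _
    nlinarith [sq_nonneg ((m : ℝ) + 5), mul_pos (show (0 : ℝ) < m + 5 by linarith)
      (show (0 : ℝ) < (m + 5) ^ 2 by positivity)]
  lip := by
    intro w h1 _ hs hq
    obtain ⟨hb1, hb2⟩ := hb w (by omega) hs hq
    refine le_trans (le_of_eq ?_) hb2
    refine Finset.sum_congr rfl fun p hp => ?_
    have : (bx w : ℝ) ≤ bx (ins w p.1 p.2) := by exact_mod_cast hb1 p hp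
    exact abs_of_nonneg (by linarith)

lemma mean_eq (hc : S_conv) (hs : S_swap) {N : ℕ} (hN : 2 ≤ N) :
    mm (fun w => (bx w : ℝ)) (2 * N - 1) / ((KP (2 * N - 1)).card : ℝ) = 2 * MW N := by
  have h1 : MW N = me N (fun f => (height (2 * N) f : ℝ)) := by
    unfold MW me
    congr 1
    have := hs (2 * N) (by omega) (fun f => (width (2 * N) f : ℝ))
    rw [← this]
    rfl
  have h2 : 2 * MW N = MW N + me N (fun f => (height (2 * N) f : ℝ)) := by
    rw [← h1]; ring
  rw [h2]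
  unfold MW
  rw [me_eq hc hN, me_eq hc hN, ← add_div, ← Finset.sum_add_distrib]
  unfold mm
  congr 1
  refine Finset.sum_congr rfl fun w hw => ?_
  show (bx w : ℝ) = _
  rw [bx_eq hN hw]
  push_cast
  rfl

end F3x

theorem F3_proof (h0 : S_F0) (hc : S_conv) (hb : S_box) (hs : S_swap) : S_F3 := by
  obtain ⟨C, hC⟩ := h0 6 (by norm_num)
  refine ⟨C, fun N hN => ?_⟩
  have h1 := hC N (fun w => (bx w : ℝ)) hN (fun m h3 _ _ => F3x.nice hb m h3)
  have h2 := F3x.mean_eq hc hs hN
  have h3 := F3x.mean_eq hc hs (N := N + 1) (by omega)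
  have e : 2 * (N + 1) - 1 = 2 * N + 1 := by omega
  rw [e] at h3
  rw [h2, h3, mul_div_mul_left _ _ (by norm_num : (2 : ℝ) ≠ 0)] at h1
  exact h1

end

end Pool.Agent.H739K
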