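import Pool.Agent.H739K.Goals

/-!
# F4: the area laws merge
-/

set_option autoImplicit false

namespace Pool.Agent.H739K

open Finset Pool.Agent.H976R2 Pool.Agent.H924P
open scoped Classical

noncomputable section

namespace F4x

lemma me_eq (hc : S_conv) {N : ℕ} (hN : 2 ≤ N) (F : (ZMod (2 * N) → ℤ × ℤ) → ℝ) :
    me N F = (∑ w ∈ KP (2 * N - 1), F (lp (2 * N) w)) / ((KP (2 * N - 1)).card : ℝ) := by
  unfold me
  rw [(hc N hN).1 F, (hc N hN).2.1]

lemma len_of_KP {n : ℕ} {w : List Dir} (h : w ∈ KP n) : w.length = n :=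
  (mem_SW.mp (mem_filter.mp h).1).1

lemma ar_eq {N : ℕ} (hN : 2 ≤ N) {w : List Dir} (h : w ∈ KP (2 * N - 1)) :
    ar w = area (2 * N) (lp (2 * N) w) := by
  have hl := len_of_KP h
  have e : w.length + 1 = 2 * N := by omega
  unfold ar
  rw [e]

lemma card_pos (hc : S_conv) (h2a : S_F2a) {N : ℕ} (hN : 2 ≤ N) :
    (0 : ℝ) < ((KP (2 * N - 1)).card : ℝ) := by
  rcases Nat.eq_zero_or_pos (KP (2 * N - 1)).card with h | h
  · exfalso
    have h1 := h2a N hN
    unfold MA at h1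
    rw [me_eq hc hN, h, Nat.cast_zero, div_zero] at h1
    have h2 : (2 : ℝ) ≤ N := by exact_mod_cast hN
    linarith
  · exact_mod_cast h

lemma card_adm (w : List Dir) : (adm w).card ≤ 4 * w.length := by
  unfold adm
  refine (Finset.card_filter_le _ _).trans ?_
  rw [Finset.card_product, Finset.card_range]
  have : (univ : Finset Dir).card = 4 := rfl
  rw [this, mul_comm]

/-- the weight -/
def ph (g : ℝ → ℝ) (a : ℝ) : List Dir → ℝ := fun w => 2 + g ((ar w : ℝ) / a)

lemma nice (ha : S_area) {N : ℕ} (hN : 2 ≤ N) {a : ℝ} (haN : (N : ℝ) / 2 ≤ a) {g : ℝ → ℝ}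
    (hg : ∀ x y, |g x - g y| ≤ |x - y|) (hg1 : ∀ x, |g x| ≤ 1) (m : ℕ) (hm : 3 ≤ m)
    (hmN : m ≤ 4 * N) : Nice 40 m (ph g a) where
  one_le := by
    intro w _ _ _ _
    have := (abs_le.mp (hg1 ((ar w : ℝ) / a))).1
    unfold ph
    linarith
  le := by
    intro w _ _ _ _
    have h1 := (abs_le.mp (hg1 ((ar w : ℝ) / a))).2
    have h5 : (3 : ℝ) ≤ m := by exact_mod_cast hm
    have h6 : (8 : ℝ) ^ 3 ≤ ((m : ℝ) + 5) ^ 3 := pow_le_pow_left₀ (by norm_num) (by linarith) 3
    unfold ph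
    linarith
  lip := by
    intro w hw1 hw2 hs hq
    have hN' : (2 : ℝ) ≤ N := by exact_mod_cast hN
    have ha0 : 0 < a := by linarith
    have h1 : ∀ p ∈ adm w, |ph g a (ins w p.1 p.2) - ph g a w| ≤ 2 / N := by
      rintro ⟨i, e⟩ hp
      obtain ⟨h2, h3⟩ := ha w i e (by omega) hs hq hp
      have h2' : (ar (ins w i e) : ℝ) ≤ ar w + 1 := by exact_mod_cast h2
      have h3' : (ar w : ℝ) ≤ ar (ins w i e) + 1 := by exact_mod_cast h3
      have h4 : ph g a (ins w i e) - ph g a w =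
          g ((ar (ins w i e) : ℝ) / a) - g ((ar w : ℝ) / a) := by
        unfold ph; ring
      show |ph g a (ins w i e) - ph g a w| ≤ _
      rw [h4]
      refine (hg _ _).trans ?_
      rw [← sub_div, abs_div, abs_of_pos ha0, div_le_div_iff₀ ha0 (by linarith)]
      have h5 : |(ar (ins w i e) : ℝ) - ar w| ≤ 1 := by
        rw [abs_le]; constructor <;> linarith
      nlinarith [abs_nonneg ((ar (ins w i e) : ℝ) - ar w)]
    have h2 := Finset.sum_le_sum h1
    rw [Finset.sum_const, nsmul_eq_mul] at h2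
    have h3 : ((adm w).card : ℝ) ≤ 4 * (4 * N + 2) := by
      have h4 : (adm w).card ≤ 4 * (4 * N + 2) := (card_adm w).trans (by omega)
      exact_mod_cast h4
    have h4 : ((adm w).card : ℝ) * (2 / N) ≤ 40 := by
      have h5 : (0 : ℝ) < 2 / N := by positivity
      have h6 : (4 * (4 * (N : ℝ) + 2)) * (2 / N) ≤ 40 := by
        rw [mul_div_assoc', div_le_iff₀ (by linarith)]
        nlinarith
      exact (mul_le_mul_of_nonneg_right h3 h5.le).trans h6
    have h5 : 1 ≤ ph g a w := by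
      have := (abs_le.mp (hg1 ((ar w : ℝ) / a))).1
      unfold ph
      linarith
    linarith

lemma mean_ph (hc : S_conv) (h2a : S_F2a) {N : ℕ} (hN : 2 ≤ N) (g : ℝ → ℝ) (a : ℝ) :
    mm (ph g a) (2 * N - 1) / ((KP (2 * N - 1)).card : ℝ) =
      2 + me N (fun f => g ((area (2 * N) f : ℝ) / a)) := by
  have hp := card_pos hc h2a hN
  rw [me_eq hc hN, div_eq_iff hp.ne', add_mul, div_mul_cancel₀ _ hp.ne']
  unfold mm ph
  rw [Finset.sum_add_distrib, Finset.sum_const, nsmul_eq_mul, mul_comm]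
  congr 1
  refine Finset.sum_congr rfl fun w hw => ?_
  rw [ar_eq hN hw]

lemma me_abs_le (hc : S_conv) (h2a : S_F2a) {N : ℕ} (hN : 2 ≤ N)
    (F : (ZMod (2 * N) → ℤ × ℤ) → ℝ) (B : ℝ) (hF : ∀ f, |F f| ≤ B) : |me N F| ≤ B := by
  have hp := card_pos hc h2a hN
  rw [me_eq hc hN, abs_div, abs_of_pos hp, div_le_iff₀ hp]
  refine (Finset.abs_sum_le_sum_abs _ _).trans ?_
  refine (Finset.sum_le_sum fun w _ => hF (lp (2 * N) w)).trans ?_
  rw [Finset.sum_const, nsmul_eq_mul, mul_comm]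

lemma me_sub (hc : S_conv) {N : ℕ} (hN : 2 ≤ N) (F G : (ZMod (2 * N) → ℤ × ℤ) → ℝ) :
    me N F - me N G = me N (fun f => F f - G f) := by
  rw [me_eq hc hN, me_eq hc hN, me_eq hc hN, ← sub_div, ← Finset.sum_sub_distrib]

lemma me_abs_le_me (hc : S_conv) (h2a : S_F2a) {N : ℕ} (hN : 2 ≤ N)
    (F G : (ZMod (2 * N) → ℤ × ℤ) → ℝ) (hF : ∀ f, |F f| ≤ G f) : |me N F| ≤ me N G := by
  have hp := card_pos hc h2a hN
  rw [me_eq hc hN, me_eq hc hN, abs_div, abs_of_pos hp]
  exact div_le_div_of_nonneg_right ((Finset.abs_sum_le_sum_abs _ _).trans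
    (Finset.sum_le_sum fun w _ => hF (lp (2 * N) w))) hp.le

lemma me_mul (hc : S_conv) {N : ℕ} (hN : 2 ≤ N) (F : (ZMod (2 * N) → ℤ × ℤ) → ℝ) (c : ℝ) :
    me N (fun f => F f * c) = me N F * c := by
  rw [me_eq hc hN, me_eq hc hN, ← Finset.sum_mul, div_mul_eq_mul_div]

end F4x

open F4x in
theorem F4_proof (h0 : S_F0) (hc : S_conv) (ha : S_area) (h2a : S_F2a) (h2 : S_F2) : S_F4 := by
  obtain ⟨C, hC⟩ := h0 40 (by norm_num)
  obtain ⟨C2, hC2⟩ := h2
  refine ⟨3 * C + C2, fun N hN g hg hg1 => ?_⟩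
  have haN := h2a N hN
  have haN1 := h2a (N + 1) (by omega)
  have hN' : (2 : ℝ) ≤ N := by exact_mod_cast hN
  set a := MA N with hadef
  set a' := MA (N + 1) with ha'def
  have ha0 : 0 < a := by linarith
  have ha'0 : 0 < a' := by push_cast at haN1; linarith
  have h1 := hC N (ph g a) hN (fun m h3 h4 _ => nice ha hN haN hg hg1 m h3 h4)
  have e : 2 * (N + 1) - 1 = 2 * N + 1 := by omega
  have m1 := mean_ph hc h2a hN g a
  have m2 := mean_ph hc h2a (N := N + 1) (by omega) g a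
  rw [e] at m2
  rw [m1, m2] at h1
  set x := me N (fun f => g ((area (2 * N) f : ℝ) / a)) with hx
  set y := me (N + 1) (fun f => g ((area (2 * (N + 1)) f : ℝ) / a)) with hy
  have hx1 : |x| ≤ 1 := me_abs_le hc h2a hN _ 1 fun f => hg1 _
  have hx2 := abs_le.mp hx1
  have hpos : 0 < 2 + x := by linarith [hx2.1]
  have h3 : |y - x| ≤ 3 * C * rN N := by
    have h4 : (2 + y) / (2 + x) - 1 = (y - x) / (2 + x) := by
      field_simp
      ring
    rw [h4, abs_div, abs_of_pos hpos, div_le_iff₀ hpos] at h1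
    have h5 : 0 ≤ C * rN N := by
      by_contra hneg
      push Not at hneg
      have := abs_nonneg (y - x)
      nlinarith
    nlinarith [hx2.2]
  have h4 : |me (N + 1) (fun f => g ((area (2 * (N + 1)) f : ℝ) / a')) - y| ≤ C2 * rN N := by
    rw [hy, me_sub hc (by omega)]
    have h5 : me (N + 1) (fun f => ((area (2 * (N + 1)) f : ℝ)) * (|a' / a - 1| / a')) =
        |a' / a - 1| := by
      rw [me_mul hc (by omega)]
      change a' * (|a' / a - 1| / a') = _
      rw [mul_div_cancel₀ _ ha'0.ne']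
    refine le_trans (me_abs_le_me hc h2a (by omega) _
      (fun f => ((area (2 * (N + 1)) f : ℝ)) * (|a' / a - 1| / a')) fun f => ?_) ?_
    · refine (hg _ _).trans (le_of_eq ?_)
      have h6 : (area (2 * (N + 1)) f : ℝ) / a' - (area (2 * (N + 1)) f : ℝ) / a =
          -(((area (2 * (N + 1)) f : ℝ) / a') * (a' / a - 1)) := by
        field_simp
        ring
      rw [h6, abs_neg, abs_mul, abs_of_nonneg (by positivity)]
      ring
    · rw [h5]
      exact hC2 N hN
  calc |me (N + 1) (fun f => g ((area (2 * (N + 1)) f : ℝ) / a')) - x|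
      = |(me (N + 1) (fun f => g ((area (2 * (N + 1)) f : ℝ) / a')) - y) + (y - x)| := by
        congr 1; ring
    _ ≤ C2 * rN N + 3 * C * rN N := (abs_add_le _ _).trans (add_le_add h4 h3)
    _ = (3 * C + C2) * rN N := by ring

end

end Pool.Agent.H739K
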