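import Pool.Agent.H739K.All1
import Pool.Agent.H739K.AREA
import Pool.Agent.H739K.BOX
import Pool.Agent.H739K.F2
import Pool.Agent.H739K.F3
import Pool.Agent.H739K.F4

set_option autoImplicit false

namespace Pool.Agent.H739K

theorem f2 : S_F2 := F2_proof f0 CONV_proof AREA_proof f2a
theorem f3 : S_F3 := F3_proof f0 CONV_proof BOX_proof SWAP_proof
theorem f4 : S_F4 := F4_proof f0 CONV_proof AREA_proof f2a f2

lemma card_KP_pos {N : ℕ} (hN : 2 ≤ N) : (0 : ℝ) < (KP (2 * N - 1)).card := by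
  obtain ⟨-, K, _, h⟩ := bnd
  have h1 := (h (2 * N - 1) (by omega) (by omega)).1
  have h2 : 0 < H981.mu := H981.mu_pos
  exact lt_of_lt_of_le (by positivity) h1

lemma MA_pos {N : ℕ} (hN : 2 ≤ N) : 0 < MA N := by
  have h1 := f2a N hN
  have h2 : (2 : ℝ) ≤ N := by exact_mod_cast hN
  linarith

lemma MW_pos {N : ℕ} (hN : 2 ≤ N) : 0 < MW N := by
  have h1 := F3x.mean_eq CONV_proof SWAP_proof hN
  have h2 := card_KP_pos hN
  have h3 := RATIO.card_le_mm (F3x.nice BOX_proof (2 * N - 1) (by omega)) (le_refl (2 * N - 1)) (by omega)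
  have h4 : 1 ≤ mm (fun w => (bx w : ℝ)) (2 * N - 1) / ((KP (2 * N - 1)).card : ℝ) := by
    rw [le_div_iff₀ h2]; linarith
  linarith

/-- ratios with a power factor -/
lemma ratio_pow (v : ℕ → ℝ) (hv : ∀ n, 2 ≤ n → 0 < v n)
    (h : ∃ K : ℝ, ∀ n, 2 ≤ n → |v (n + 1) / v n - 1| ≤ K * rN n) (θ : ℝ) :
    ∃ K : ℝ, 0 ≤ K ∧ ∀ n, 2 ≤ n →
      |(v (n + 1) * ((n + 1 : ℕ) : ℝ) ^ θ) / (v n * (n : ℝ) ^ θ) - 1| ≤ K * rN n := by
  obtain ⟨K, hK⟩ := h
  obtain ⟨c, hc0, hc⟩ := one_div_le_rN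
  obtain ⟨B, hB0, hB⟩ := rN_bdd
  obtain ⟨a, ha0, ha⟩ := pow_ratio θ
  refine ⟨|K| * (1 + a * c * B) + a * c, by positivity, fun n hn => ?_⟩
  have hn0 : (0 : ℝ) < n := by exact_mod_cast (by omega : 0 < n)
  have hp := hv n hn
  have h1 := hK n hn
  have h2 := hc n hn
  have h3 := ha n hn
  have hr0 : 0 ≤ rN n := Real.sqrt_nonneg _
  obtain ⟨x, hx⟩ : ∃ x : ℝ, x = v (n + 1) / v n - 1 := ⟨_, rfl⟩
  obtain ⟨y, hy⟩ : ∃ y : ℝ, y = ((n + 1 : ℕ) : ℝ) ^ θ / (n : ℝ) ^ θ - 1 := ⟨_, rfl⟩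
  have e : (v (n + 1) * ((n + 1 : ℕ) : ℝ) ^ θ) / (v n * (n : ℝ) ^ θ) - 1 = x * (1 + y) + y := by
    rw [hx, hy]
    have : (n : ℝ) ^ θ ≠ 0 := (Real.rpow_pos_of_pos hn0 _).ne'
    field_simp
    ring
  have hxb : |x| ≤ |K| * rN n := by
    rw [hx]
    exact h1.trans (mul_le_mul_of_nonneg_right (le_abs_self K) hr0)
  have hyb : |y| ≤ a * c * rN n := by
    rw [← hy] at h3
    calc |y| ≤ a / n := h3
      _ = a * (1 / n) := by ring
      _ ≤ a * (c * rN n) := by gcongr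
      _ = _ := by ring
  have hyb' : |y| ≤ a * c * B := hyb.trans (by gcongr; exact hB n)
  rw [e]
  calc |x * (1 + y) + y| ≤ |x| * (1 + |y|) + |y| := by
        refine (abs_add_le _ _).trans ?_
        rw [abs_mul]
        gcongr
        exact (abs_add_le _ _).trans (by rw [abs_one])
    _ ≤ |K| * rN n * (1 + a * c * B) + a * c * rN n := by gcongr
    _ = _ := by ring

end Pool.Agent.H739K
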