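import Mathlib
import Pool.Agent.H976R2.KMom
import Pool.Agent.H924P.Mean
import Pool.Agent.H924P.Asym

/-!
# Weighted ratio limit theorem with a rate for self-avoiding polygons on `ℤ²`: definitions

A polygon with `2 N` edges, a starting point and an orientation is a self-avoiding word `w`
(H976R2: `Saw`, `SW n`) of length `2 N - 1` whose last site is a neighbour of the origin
(`sq w = 1`).
-/

set_option autoImplicit false

namespace Pool.Agent.H739K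

open Finset Pool.Agent.H976R2 Pool.Agent.H924P
open scoped Classical

noncomputable section

/-- words of polygons: `n` letters, i.e. `n + 1` edges with the closing edge -/
def KP (n : ℕ) : Finset (List Dir) := (SW n).filter (fun w => sq w = 1)

/-- the loop of a word (to be used with `m = w.length + 1`) -/
def lp (m : ℕ) (w : List Dir) : ZMod m → ℤ × ℤ :=
  fun k => (wX (w.take k.val), wY (w.take k.val))

/-- the enclosed area of the polygon of a word -/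
def ar (w : List Dir) : ℕ := area (w.length + 1) (lp (w.length + 1) w)

/-- width plus height of the polygon of a word -/
def bx (w : List Dir) : ℕ :=
  width (w.length + 1) (lp (w.length + 1) w) + height (w.length + 1) (lp (w.length + 1) w)

/-- total weight -/
def mm (φ : List Dir → ℝ) (n : ℕ) : ℝ := ∑ w ∈ KP n, φ w

/-- the error rate -/
def rt (n : ℕ) : ℝ := Real.sqrt ((Real.log n) ^ 9 / n)

/-- weights that are nearly invariant under insertions, at the lengths `n, n+2, n+4` -/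
structure Nice (L : ℝ) (n : ℕ) (φ : List Dir → ℝ) : Prop where
  one_le : ∀ w : List Dir, n ≤ w.length → w.length ≤ n + 4 → Saw w → sq w = 1 → 1 ≤ φ w
  le : ∀ w : List Dir, n ≤ w.length → w.length ≤ n + 4 → Saw w → sq w = 1 →
    φ w ≤ 100 * ((n : ℝ) + 5) ^ 3
  lip : ∀ w : List Dir, n ≤ w.length → w.length ≤ n + 2 → Saw w → sq w = 1 →
    ∑ p ∈ adm w, |φ (ins w p.1 p.2) - φ w| ≤ L * φ w

/-! ## The statements -/

/-- T1: Kesten's ratio lemma with the rate `√((log n)^9 / n)`, local and uniform -/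
def S_rate : Prop := ∀ K D : ℝ, 0 ≤ K → 0 ≤ D → ∃ C : ℝ, ∀ (n : ℕ) (b : ℕ → ℝ), 3 ≤ n →
  (∀ m : ℕ, n ≤ 2 * m → m ≤ 2 * n → m % 2 = n % 2 →
    Real.exp (-(K * (Real.log m) ^ 9)) ≤ b m ∧ b m ≤ Real.exp (K * (Real.log m) ^ 9)) →
  (∀ m : ℕ, n ≤ 2 * m → m + 4 ≤ 2 * n → m % 2 = n % 2 →
    b (m + 2) ^ 2 ≤ b m * b (m + 4) + D / m * b m ^ 2) →
  |b (n + 2) / b n - 1| ≤ C * rt n

/-- T2: growth of the number of words of polygons -/
def S_bnd : Prop := 2.43 ≤ H981.mu ∧ ∃ K : ℝ, 0 ≤ K ∧ ∀ n : ℕ, 3 ≤ n → n % 2 = 1 →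
  H981.mu ^ n * Real.exp (-(K * (Real.log n) ^ 9)) ≤ ((KP n).card : ℝ) ∧
  ((KP n).card : ℝ) ≤ H981.mu ^ n * Real.exp (K * (Real.log n) ^ 9)

/-- T3: sums over loops are sums over words -/
def S_conv : Prop := ∀ N : ℕ, 2 ≤ N →
  (∀ F : (ZMod (2 * N) → ℤ × ℤ) → ℝ,
    ∑ᶠ f ∈ {f : ZMod (2 * N) → ℤ × ℤ | IsLoop (2 * N) f}, F f =
      ∑ w ∈ KP (2 * N - 1), F (lp (2 * N) w)) ∧
  {f : ZMod (2 * N) → ℤ × ℤ | IsLoop (2 * N) f}.ncard = (KP (2 * N - 1)).card ∧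
  ∀ w ∈ KP (2 * N - 1), IsLoop (2 * N) (lp (2 * N) w)

/-- T4: an insertion changes the area by one -/
def S_area : Prop := ∀ (w : List Dir) (i : ℕ) (e : Dir), 3 ≤ w.length → Saw w → sq w = 1 →
  (i, e) ∈ adm w → ar (ins w i e) ≤ ar w + 1 ∧ ar w ≤ ar (ins w i e) + 1

/-- T5: the box grows for few insertions only -/
def S_box : Prop := ∀ w : List Dir, 3 ≤ w.length → Saw w → sq w = 1 →
  (∀ p ∈ adm w, bx w ≤ bx (ins w p.1 p.2)) ∧
  (∑ p ∈ adm w, ((bx (ins w p.1 p.2) : ℝ) - bx w)) ≤ 6 * bx w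

/-- T6: the area is at least half of the number of horizontal edges -/
def S_hor : Prop := ∀ (m : ℕ) (f : ZMod m → ℤ × ℤ), 4 ≤ m → IsLoop m f →
  Nat.card {k : ZMod m // (f (k + 1)).2 = (f k).2} ≤ 2 * area m f

/-- T7: exchange of the coordinates -/
def S_swap : Prop := ∀ m : ℕ, 4 ≤ m → ∀ F : (ZMod m → ℤ × ℤ) → ℝ,
  ∑ᶠ f ∈ {f : ZMod m → ℤ × ℤ | IsLoop m f}, F (fun k => ((f k).2, (f k).1)) =
    ∑ᶠ f ∈ {f : ZMod m → ℤ × ℤ | IsLoop m f}, F f

/-- T8: approximate logarithmic convexity for nice weights, uniformly -/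
def S_ratio : Prop := ∀ L : ℝ, 0 ≤ L → ∃ D : ℝ, 0 ≤ D ∧ ∀ (n : ℕ) (φ : List Dir → ℝ), 3 ≤ n →
  n % 2 = 1 → Nice L n φ →
  mm φ (n + 2) ^ 2 ≤ mm φ n * mm φ (n + 4) + D / n * mm φ n ^ 2

/-- T9: the ratio theorem for weights that are nice at all lengths in a window, uniformly -/
def S_main : Prop := ∀ L : ℝ, 0 ≤ L → ∃ C : ℝ, ∀ (n : ℕ) (φ : List Dir → ℝ), 3 ≤ n →
  n % 2 = 1 → (∀ m : ℕ, 3 ≤ m → n ≤ 2 * m → m ≤ 2 * n → Nice L m φ) →
  |mm φ (n + 2) / (H981.mu ^ 2 * mm φ n) - 1| ≤ C * rt n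

end

end Pool.Agent.H739K
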