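import Pool.Agent.H739K.Goals

/-! F0: quotient of means (helper303). -/

set_option autoImplicit false

namespace Pool.Agent.H739K

open Finset Pool.Agent.H976R2 Pool.Agent.H924P
open scoped Classical

noncomputable section

theorem F0_rt_tendsto : Filter.Tendsto rt Filter.atTop (nhds 0) := by
  have h1 : Filter.Tendsto (fun x : ℝ => (Real.log x) ^ 9 / x) Filter.atTop (nhds 0) :=
    (Real.isLittleO_pow_log_id_atTop (n := 9)).tendsto_div_nhds_zero
  have h2 := h1.comp (tendsto_natCast_atTop_atTop (R := ℝ))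
  have h3 := (Real.continuous_sqrt.tendsto 0).comp h2
  rw [Real.sqrt_zero] at h3
  exact h3

theorem F0_rt_nonneg (n : ℕ) : 0 ≤ rt n := Real.sqrt_nonneg _

theorem F0_rN_nonneg (n : ℕ) : 0 ≤ rN n := Real.sqrt_nonneg _

theorem F0_rt_le (N : ℕ) (hN : 2 ≤ N) : rt (2 * N - 1) ≤ 23 * rN N := by
  unfold rt rN
  have hNr : (2 : ℝ) ≤ N := by exact_mod_cast hN
  have hcast : ((2 * N - 1 : ℕ) : ℝ) = 2 * N - 1 := by
    rw [Nat.cast_sub (by omega)]; push_cast; ring
  have hlog : Real.log ((2 * N - 1 : ℕ) : ℝ) ≤ 2 * Real.log N := by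
    have h1 : ((2 * N - 1 : ℕ) : ℝ) ≤ (N : ℝ) ^ 2 := by rw [hcast]; nlinarith [sq_nonneg ((N : ℝ) - 1)]
    have h2 := Real.log_le_log (by rw [hcast]; linarith) h1
    rw [Real.log_pow] at h2
    exact_mod_cast h2
  have hlog0 : 0 ≤ Real.log ((2 * N - 1 : ℕ) : ℝ) := Real.log_nonneg (by rw [hcast]; linarith)
  have h3 : (Real.log ((2 * N - 1 : ℕ) : ℝ)) ^ 9 ≤ 512 * (Real.log N) ^ 9 := by
    calc _ ≤ (2 * Real.log N) ^ 9 := pow_le_pow_left₀ hlog0 hlog 9
      _ = _ := by ring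
  have hlN : 0 ≤ Real.log (N : ℝ) := Real.log_nonneg (by linarith)
  have h4 : (Real.log ((2 * N - 1 : ℕ) : ℝ)) ^ 9 / ((2 * N - 1 : ℕ) : ℝ) ≤ 529 * ((Real.log N) ^ 9 / N) := by
    rw [div_le_iff₀ (by rw [hcast]; linarith)]
    have h5 : 529 * ((Real.log (N : ℝ)) ^ 9 / N) * ((2 * N - 1 : ℕ) : ℝ) ≥ 529 * ((Real.log (N : ℝ)) ^ 9 / N) * N := by
      apply mul_le_mul_of_nonneg_left _ (by positivity)
      rw [hcast]; linarith
    have h6 : 529 * ((Real.log (N : ℝ)) ^ 9 / N) * N = 529 * (Real.log (N : ℝ)) ^ 9 := by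
      field_simp
    have h7 : 0 ≤ (Real.log (N : ℝ)) ^ 9 := by positivity
    linarith
  calc Real.sqrt ((Real.log ((2 * N - 1 : ℕ) : ℝ)) ^ 9 / ((2 * N - 1 : ℕ) : ℝ))
      ≤ Real.sqrt (529 * ((Real.log N) ^ 9 / N)) := Real.sqrt_le_sqrt h4
    _ = 23 * Real.sqrt ((Real.log N) ^ 9 / N) := by
        rw [Real.sqrt_mul (by norm_num)]
        congr 1
        rw [show (529 : ℝ) = 23 ^ 2 by norm_num]
        exact Real.sqrt_sq (by norm_num)

theorem F0_nice_one (m : ℕ) : Nice 0 m (fun _ => 1) where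
  one_le := fun _ _ _ _ _ => le_rfl
  le := fun w _ _ _ _ => by
    have : (0 : ℝ) ≤ m := Nat.cast_nonneg m
    nlinarith [pow_nonneg this 3, pow_nonneg this 2, pow_le_pow_left₀ (show (0 : ℝ) ≤ 1 by norm_num) (show (1 : ℝ) ≤ (m : ℝ) + 5 by linarith) 3]
  lip := fun w _ _ _ _ => by simp

theorem F0_mm_one (n : ℕ) : mm (fun _ => 1) n = ((KP n).card : ℝ) := by
  unfold mm; simp

theorem F0_card_pos (hb : S_bnd) (n : ℕ) (hn : 3 ≤ n) (hodd : n % 2 = 1) : 0 < ((KP n).card : ℝ) := by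
  obtain ⟨hmu, K, _, h⟩ := hb
  have hmu0 : 0 < H981.mu := by linarith
  refine lt_of_lt_of_le ?_ (h n hn hodd).1
  positivity

theorem F0_mm_pos {L : ℝ} {m n : ℕ} {φ : List Dir → ℝ} (h : Nice L m φ) (h1 : m ≤ n) (h2 : n ≤ m + 4)
    (hc : 0 < ((KP n).card : ℝ)) : 0 < mm φ n := by
  refine lt_of_lt_of_le hc ?_
  unfold mm
  rw [← nsmul_one, ← Finset.sum_const]
  apply Finset.sum_le_sum
  intro w hw
  unfold KP at hw
  rw [Finset.mem_filter, mem_SW] at hw
  exact h.one_le w (by omega) (by omega) hw.1.2 hw.2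

theorem F0_proof (h : S_main) (hb : S_bnd) : S_F0 := by
  intro L hL
  obtain ⟨C1, hC1⟩ := h L hL
  obtain ⟨C2, hC2⟩ := h 0 le_rfl
  have hmu : 0 < H981.mu := by linarith [hb.1]
  -- nonnegative constants
  set K1 := max C1 0 with hK1
  set K2 := max C2 1 with hK2
  have hK1' : 0 ≤ K1 := le_max_right _ _
  have hK2' : 1 ≤ K2 := le_max_right _ _
  have hK2pos : 0 < K2 := by linarith
  obtain ⟨n0, hn0⟩ : ∃ n0 : ℕ, ∀ n ≥ n0, rt n < 1 / (2 * K2) := by
    have := F0_rt_tendsto.eventually (gt_mem_nhds (show (0 : ℝ) < 1 / (2 * K2) by positivity))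
    exact Filter.eventually_atTop.1 this
  obtain ⟨r2, hr2⟩ : ∃ r2 : ℕ → ℝ, ∀ n, r2 n = ((KP (n + 2)).card : ℝ) / (H981.mu ^ 2 * ((KP n).card : ℝ)) :=
    ⟨_, fun _ => rfl⟩
  have hr2nn : ∀ n, 0 ≤ r2 n := fun n => by rw [hr2]; positivity
  set M : ℝ := ∑ n ∈ Finset.range n0, 1 / r2 n with hM
  have hM0 : 0 ≤ M := Finset.sum_nonneg fun n _ => one_div_nonneg.2 (hr2nn n)
  set C3 : ℝ := 2 * (K1 + K2) + (2 * K2 + K1) * M + 2 * K2 with hC3
  have hC30 : 0 ≤ C3 := by positivity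
  refine ⟨C3 * 23, ?_⟩
  intro N φ hN hnice
  have hrt := F0_rt_le N hN
  obtain ⟨n, hn⟩ : ∃ n, n = 2 * N - 1 := ⟨_, rfl⟩
  have hn2 : 2 * N + 1 = n + 2 := by omega
  have hn3 : 3 ≤ n := by omega
  have hodd : n % 2 = 1 := by omega
  rw [hn2, ← hn]
  rw [← hn] at hrt
  have hcn := F0_card_pos hb n hn3 hodd
  have hcn2 := F0_card_pos hb (n + 2) (by omega) (by omega)
  have hniceN := hnice n hn3 (by omega) (by omega)
  have hmn := F0_mm_pos hniceN le_rfl (by omega) hcn
  have hmn2 := F0_mm_pos hniceN (show n ≤ n + 2 by omega) (by omega) hcn2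
  obtain ⟨r1, hr1⟩ : ∃ r1 : ℝ, r1 = mm φ (n + 2) / (H981.mu ^ 2 * mm φ n) := ⟨_, rfl⟩
  have hr1pos : 0 < r1 := by rw [hr1]; positivity
  have hr2pos : 0 < r2 n := by rw [hr2]; positivity
  have e1 : |r1 - 1| ≤ K1 * rt n := by
    rw [hr1]
    refine (hC1 n φ hn3 hodd (fun m h3 h4 h5 => hnice m h3 (by omega) (by omega))).trans ?_
    exact mul_le_mul_of_nonneg_right (le_max_left _ _) (F0_rt_nonneg n)
  have e2 : |r2 n - 1| ≤ K2 * rt n := by
    have := hC2 n (fun _ => 1) hn3 hodd (fun m _ _ _ => F0_nice_one m)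
    rw [F0_mm_one, F0_mm_one, ← hr2] at this
    exact this.trans (mul_le_mul_of_nonneg_right (le_max_left _ _) (F0_rt_nonneg n))
  have eQ : (mm φ (n + 2) / ((KP (n + 2)).card : ℝ)) / (mm φ n / ((KP n).card : ℝ)) = r1 / r2 n := by
    rw [hr1, hr2]
    generalize mm φ (n + 2) = x1 at *
    generalize mm φ n = x2 at *
    generalize ((KP (n + 2)).card : ℝ) = x3 at *
    generalize ((KP n).card : ℝ) = x4 at *
    generalize H981.mu = x5 at *
    field_simp
  rw [eQ]
  have hrt0 := F0_rt_nonneg n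
  have key : |r1 / r2 n - 1| ≤ C3 * rt n := by
    by_cases hc : K2 * rt n ≤ 1 / 2
    · have h5 : 1 / 2 ≤ r2 n := by
        have := (abs_le.1 e2).1
        linarith
      have h6 : |r1 / r2 n - 1| = |r1 - r2 n| / r2 n := by
        rw [← abs_of_pos hr2pos, ← abs_div, abs_of_pos hr2pos, sub_div, div_self hr2pos.ne']
      rw [h6]
      have h7 : |r1 - r2 n| ≤ (K1 + K2) * rt n := by
        have : r1 - r2 n = (r1 - 1) - (r2 n - 1) := by ring
        rw [this]
        refine (abs_sub _ _).trans ?_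
        linarith
      calc |r1 - r2 n| / r2 n ≤ ((K1 + K2) * rt n) / (1 / 2) := by
            apply div_le_div₀ (by positivity) h7 (by norm_num) h5
        _ = 2 * (K1 + K2) * rt n := by ring
        _ ≤ C3 * rt n := by
            apply mul_le_mul_of_nonneg_right _ hrt0
            rw [hC3]
            have : 0 ≤ (2 * K2 + K1) * M := by positivity
            linarith
    · push Not at hc
      have hnn0 : n < n0 := by
        by_contra h7
        push Not at h7
        have h8 := hn0 n h7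
        rw [lt_div_iff₀ (by positivity)] at h8
        linarith
      have hM1 : 1 / r2 n ≤ M :=
        Finset.single_le_sum (f := fun n => 1 / r2 n) (fun i _ => one_div_nonneg.2 (hr2nn i)) (Finset.mem_range.2 hnn0)
      have h1 : 1 ≤ 2 * K2 * rt n := by linarith
      have h2 : r1 ≤ (2 * K2 + K1) * rt n := by
        have := (abs_le.1 e1).2
        linarith
      have h3 : |r1 / r2 n - 1| ≤ r1 / r2 n + 1 := by
        have : 0 ≤ r1 / r2 n := by positivity
        rw [abs_le]; constructor <;> linarith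
      refine h3.trans ?_
      have h4 : r1 / r2 n ≤ ((2 * K2 + K1) * rt n) * M := by
        rw [div_eq_mul_one_div]
        exact mul_le_mul h2 hM1 (by positivity) (by positivity)
      rw [hC3]
      have h5 : 0 ≤ (K1 + K2) * rt n := by positivity
      nlinarith
  refine key.trans ?_
  rw [mul_assoc]
  exact mul_le_mul_of_nonneg_left hrt hC30

end

end Pool.Agent.H739K
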