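import Pool.Agent.H739K.Defs

/-!
# The final statements (as propositions)
-/

set_option autoImplicit false

namespace Pool.Agent.H739K

open Finset Pool.Agent.H976R2 Pool.Agent.H924P
open scoped Classical

noncomputable section

/-- the rate in terms of half of the perimeter -/
def rN (N : ℕ) : ℝ := Real.sqrt ((Real.log N) ^ 9 / N)

/-- mean over the loops with `2 N` steps -/
def me (N : ℕ) (F : (ZMod (2 * N) → ℤ × ℤ) → ℝ) : ℝ :=
  (∑ᶠ f ∈ {f : ZMod (2 * N) → ℤ × ℤ | IsLoop (2 * N) f}, F f) /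
    ({f : ZMod (2 * N) → ℤ × ℤ | IsLoop (2 * N) f}.ncard : ℝ)

/-- mean area -/
def MA (N : ℕ) : ℝ := me N (fun f => (area (2 * N) f : ℝ))

/-- mean width -/
def MW (N : ℕ) : ℝ := me N (fun f => (width (2 * N) f : ℝ))

/-- F0: comparison of the two rates, and consequence of `S_main` for means: the mean of a nice weight
changes by a factor `1 + O(rate)` -/
def S_F0 : Prop := ∀ L : ℝ, 0 ≤ L → ∃ C : ℝ, ∀ (N : ℕ) (φ : List Dir → ℝ), 2 ≤ N →
  (∀ m : ℕ, 3 ≤ m → m ≤ 4 * N → N ≤ m + 1 → Nice L m φ) →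
  |(mm φ (2 * N + 1) / ((KP (2 * N + 1)).card : ℝ)) / (mm φ (2 * N - 1) / ((KP (2 * N - 1)).card : ℝ)) - 1|
    ≤ C * rN N

/-- F1: ratio of the polygon counts -/
def S_F1 : Prop := ∃ C : ℝ, ∀ N : ℕ, 2 ≤ N →
  |H981.PP (N + 1) / H981.PP N - H981.mu ^ 2| ≤ C * rN N

/-- F2a: the mean area is at least a quarter of the perimeter -/
def S_F2a : Prop := ∀ N : ℕ, 2 ≤ N → (N : ℝ) / 2 ≤ MA N

/-- F2: ratio of the mean areas -/
def S_F2 : Prop := ∃ C : ℝ, ∀ N : ℕ, 2 ≤ N → |MA (N + 1) / MA N - 1| ≤ C * rN N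

/-- F3: ratio of the mean widths -/
def S_F3 : Prop := ∃ C : ℝ, ∀ N : ℕ, 2 ≤ N → |MW (N + 1) / MW N - 1| ≤ C * rN N

/-- F4: the area laws merge -/
def S_F4 : Prop := ∃ C : ℝ, ∀ N : ℕ, 2 ≤ N → ∀ g : ℝ → ℝ, (∀ x y, |g x - g y| ≤ |x - y|) →
  (∀ x, |g x| ≤ 1) →
  |me (N + 1) (fun f => g ((area (2 * (N + 1)) f : ℝ) / MA (N + 1))) -
    me N (fun f => g ((area (2 * N) f : ℝ) / MA N))| ≤ C * rN N

end

end Pool.Agent.H739K
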