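import Pool.Agent.H739K.SWF
import Pool.Agent.H739K.All1
import Pool.Agent.H739K.SPA

/-!
# Polygons against walks; the hyperscaling combination varies slowly
-/

set_option autoImplicit false
set_option linter.unusedVariables false

namespace Pool.Agent.H739K

open Finset Pool.Agent.H976R2 Filter Topology
open scoped Classical

noncomputable section

namespace HYP

/-- number of rooted oriented polygons with `2 N` steps -/
def a (N : ℕ) : ℝ := ((KP (2 * N - 1)).card : ℝ)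

/-- mean square displacement of the walk with `2 N` steps -/
def R (N : ℕ) : ℝ := mom sq (2 * N) / ((SW (2 * N)).card : ℝ)

lemma rt_two (N : ℕ) (hN : 2 ≤ N) : rt (2 * N) ≤ 16 * rN N := by
  unfold rt rN
  have hNr : (2 : ℝ) ≤ N := by exact_mod_cast hN
  have hcast : ((2 * N : ℕ) : ℝ) = 2 * N := by push_cast; ring
  have hlog : Real.log ((2 * N : ℕ) : ℝ) ≤ 2 * Real.log N := by
    have h1 : ((2 * N : ℕ) : ℝ) ≤ (N : ℝ) ^ 2 := by rw [hcast]; nlinarith
    have h2 := Real.log_le_log (by rw [hcast]; linarith) h1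
    rw [Real.log_pow] at h2
    exact_mod_cast h2
  have hlog0 : 0 ≤ Real.log ((2 * N : ℕ) : ℝ) := Real.log_natCast_nonneg _
  have h3 : (Real.log ((2 * N : ℕ) : ℝ)) ^ 9 ≤ 512 * (Real.log N) ^ 9 := by
    calc _ ≤ (2 * Real.log N) ^ 9 := pow_le_pow_left₀ hlog0 hlog 9
      _ = _ := by ring
  have h4 : (Real.log ((2 * N : ℕ) : ℝ)) ^ 9 / ((2 * N : ℕ) : ℝ) ≤ 256 * ((Real.log N) ^ 9 / N) := by
    rw [hcast, hcast] at *
    rw [div_le_iff₀ (by linarith)]
    calc _ ≤ 512 * (Real.log (N : ℝ)) ^ 9 := h3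
      _ = _ := by field_simp; ring
  calc Real.sqrt ((Real.log ((2 * N : ℕ) : ℝ)) ^ 9 / ((2 * N : ℕ) : ℝ))
      ≤ Real.sqrt (256 * ((Real.log N) ^ 9 / N)) := Real.sqrt_le_sqrt h4
    _ = 16 * Real.sqrt ((Real.log N) ^ 9 / N) := by
        rw [Real.sqrt_mul (by norm_num)]
        congr 1
        rw [show (256 : ℝ) = 16 ^ 2 by norm_num]
        exact Real.sqrt_sq (by norm_num)

lemma tend {x : ℕ → ℝ} {C : ℝ} (hx : ∀ n : ℕ, 2 ≤ n → |x n - 1| ≤ C * rN n) :
    Tendsto x atTop (𝓝 1) := by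
  have h0 : Tendsto (fun m : ℕ => rN m) atTop (𝓝 0) := F0_rt_tendsto
  have h3 : Tendsto (fun m : ℕ => C * rN m) atTop (𝓝 0) := by
    simpa using h0.const_mul C
  rw [tendsto_iff_norm_sub_tendsto_zero]
  refine squeeze_zero' (Eventually.of_forall fun _ => norm_nonneg _) ?_ h3
  filter_upwards [eventually_ge_atTop 2] with N hN
  rw [Real.norm_eq_abs]
  exact hx N hN

lemma quot {x y : ℕ → ℝ} {Cx Cy : ℝ} (hx : ∀ n : ℕ, 2 ≤ n → |x n - 1| ≤ Cx * rN n)
    (hy : ∀ n : ℕ, 2 ≤ n → |y n - 1| ≤ Cy * rN n) (hy0 : ∀ n : ℕ, 2 ≤ n → 0 < y n) :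
    ∃ C : ℝ, ∀ n : ℕ, 2 ≤ n → |x n / y n - 1| ≤ C * rN n := by
  obtain ⟨b, hb⟩ := ((tend hy).inv₀ one_ne_zero).bddAbove_range
  refine ⟨(|Cx| + |Cy|) * |b|, fun n hn => ?_⟩
  have h1 := hx n hn
  have h2 := hy n hn
  have h0 := hy0 n hn
  have hr0 : 0 ≤ rN n := F0_rN_nonneg n
  have h3 : (y n)⁻¹ ≤ |b| := (hb ⟨n, rfl⟩).trans (le_abs_self _)
  have e : x n / y n - 1 = ((x n - 1) - (y n - 1)) * (y n)⁻¹ := by
    field_simp
    ring
  rw [e, abs_mul, abs_of_pos (inv_pos.mpr h0)]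
  have h4 : |(x n - 1) - (y n - 1)| ≤ (|Cx| + |Cy|) * rN n := by
    refine (abs_sub _ _).trans ?_
    have g1 : Cx * rN n ≤ |Cx| * rN n := mul_le_mul_of_nonneg_right (le_abs_self _) hr0
    have g2 : Cy * rN n ≤ |Cy| * rN n := mul_le_mul_of_nonneg_right (le_abs_self _) hr0
    linarith
  calc |(x n - 1) - (y n - 1)| * (y n)⁻¹ ≤ ((|Cx| + |Cy|) * rN n) * |b| :=
        mul_le_mul h4 h3 (by positivity) (by positivity)
    _ = _ := by ring

lemma a_pos {N : ℕ} (hN : 2 ≤ N) : 0 < a N := by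
  obtain ⟨-, K, _, h⟩ := bnd
  have h1 := (h (2 * N - 1) (by omega) (by omega)).1
  have h2 : 0 < H981.mu := H981.mu_pos
  exact lt_of_lt_of_le (by positivity) h1

/-- ratios of the polygon counts -/
theorem ra : ∃ C : ℝ, ∀ N : ℕ, 2 ≤ N → |a (N + 1) / (H981.mu ^ 2 * a N) - 1| ≤ C * rN N := by
  obtain ⟨C, hC⟩ := main' 0 le_rfl
  refine ⟨|C| * 23, fun N hN => ?_⟩
  have h := hC (2 * N - 1) (fun _ => 1) (by omega) (by omega) (fun m _ _ _ => F0_nice_one m)
  rw [F0_mm_one, F0_mm_one] at h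
  have e : 2 * (N + 1) - 1 = 2 * N - 1 + 2 := by omega
  unfold a
  rw [e]
  refine h.trans ?_
  calc C * rt (2 * N - 1) ≤ |C| * (23 * rN N) :=
        mul_le_mul (le_abs_self _) (F0_rt_le N hN) (F0_rt_nonneg _) (abs_nonneg _)
    _ = _ := by ring

/-- ratios of the walk counts -/
theorem rc : ∃ C : ℝ, ∀ N : ℕ, 2 ≤ N →
    |((SW (2 * (N + 1))).card : ℝ) / (H981.mu ^ 2 * ((SW (2 * N)).card : ℝ)) - 1| ≤ C * rN N := by
  obtain ⟨C, hC⟩ := SWR.main 0 le_rfl
  refine ⟨|C| * 16, fun N hN => ?_⟩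
  have h := hC (2 * N) (fun _ => 1) (by omega) (fun m _ => SWF.niceW_of_inv _ (fun _ _ _ _ => rfl)
      (fun _ => le_rfl) (fun _ => by norm_num) m)
  rw [SWF.mom_one, SWF.mom_one] at h
  rw [show 2 * (N + 1) = 2 * N + 2 by ring]
  refine h.trans ?_
  calc C * rt (2 * N) ≤ |C| * (16 * rN N) :=
        mul_le_mul (le_abs_self _) (rt_two N hN) (F0_rt_nonneg _) (abs_nonneg _)
    _ = _ := by ring

lemma nice_sq (m : ℕ) (hm : 2 ≤ m) : NiceW 0 m sq where
  one_le := fun w h1 _ hs => good_sq.one_le w hs (by omega)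
  le := fun w _ h2 _ => by
    have h3 : (w.length : ℝ) ≤ (m : ℝ) + 4 := by exact_mod_cast h2
    have h0 : (0 : ℝ) ≤ w.length := by positivity
    have hm0 : (0 : ℝ) ≤ m := by positivity
    refine (good_sq.le w).trans ?_
    have h4 : ((w.length : ℝ) + 1) ^ 2 ≤ ((m : ℝ) + 5) ^ 2 :=
      pow_le_pow_left₀ (by positivity) (by linarith) 2
    refine h4.trans ?_
    nlinarith [sq_nonneg ((m : ℝ) + 5), mul_nonneg hm0 (sq_nonneg ((m : ℝ) + 5))]
  lip := fun w _ _ _ => by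
    rw [zero_mul]
    refine le_of_eq (Finset.sum_eq_zero (fun p hp => ?_))
    have hi := (mem_adm.mp (show (p.1, p.2) ∈ adm w from hp)).1
    rw [sq_ins p.2 hi, sub_self, abs_zero]

/-- ratios of the second moments -/
theorem rm : ∃ C : ℝ, ∀ N : ℕ, 2 ≤ N →
    |mom sq (2 * (N + 1)) / (H981.mu ^ 2 * mom sq (2 * N)) - 1| ≤ C * rN N := by
  obtain ⟨C, hC⟩ := SWR.main 0 le_rfl
  refine ⟨|C| * 16, fun N hN => ?_⟩
  have h := hC (2 * N) sq (by omega) (fun m hm => nice_sq m hm)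
  rw [show 2 * (N + 1) = 2 * N + 2 by ring]
  refine h.trans ?_
  calc C * rt (2 * N) ≤ |C| * (16 * rN N) :=
        mul_le_mul (le_abs_self _) (rt_two N hN) (F0_rt_nonneg _) (abs_nonneg _)
    _ = _ := by ring

lemma mom_sq_pos {n : ℕ} (hn : 1 ≤ n) : 0 < mom sq n := mom_pos good_sq hn

lemma R_pos {N : ℕ} (hN : 2 ≤ N) : 0 < R N :=
  div_pos (mom_sq_pos (by omega)) (SW_card_pos _)

/-- ratios of the mean square displacements -/
theorem rR : ∃ C : ℝ, ∀ N : ℕ, 2 ≤ N → |R (N + 1) / R N - 1| ≤ C * rN N := by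
  obtain ⟨C1, h1⟩ := rm
  obtain ⟨C2, h2⟩ := rc
  have hmu : 0 < H981.mu := H981.mu_pos
  obtain ⟨C, hC⟩ := quot h1 h2 (fun n hn => by
    have := SW_card_pos (2 * (n + 1))
    have := SW_card_pos (2 * n)
    positivity)
  refine ⟨C, fun N hN => ?_⟩
  have h := hC N hN
  have e : mom sq (2 * (N + 1)) / (H981.mu ^ 2 * mom sq (2 * N)) /
      (((SW (2 * (N + 1))).card : ℝ) / (H981.mu ^ 2 * ((SW (2 * N)).card : ℝ))) = R (N + 1) / R N := by
    unfold R
    have g1 := SW_card_pos (2 * (N + 1))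
    have g2 := SW_card_pos (2 * N)
    have g3 := mom_sq_pos (n := 2 * N) (by omega)
    field_simp
  rw [e] at h
  exact h

/-- existence of an exponent along a sparse sequence implies its existence -/
theorem sparse_exp (u : ℕ → ℝ) (C : ℝ) (hu : ∀ n : ℕ, 2 ≤ n → 0 < u n)
    (h : ∀ n : ℕ, 2 ≤ n → |u (n + 1) / u n - 1| ≤ C * rN n)
    (s : ℕ → ℕ) (hs : Tendsto s atTop atTop) (β : ℝ) (hβ : β < 1 / 2)
    (hgap : ∀ k, (s (k + 1) : ℝ) ≤ s k + (s k : ℝ) ^ β) (c : ℝ)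
    (hc : Tendsto (fun k => Real.log (u (s k)) / Real.log (2 * s k)) atTop (𝓝 c)) :
    Tendsto (fun n : ℕ => Real.log (u n) / Real.log (2 * n)) atTop (𝓝 c) := by
  have h' : ∀ n : ℕ, 2 ≤ n → |u (n + 1) / u n - 1| ≤ |C| * rN n := fun n hn =>
    (h n hn).trans (mul_le_mul_of_nonneg_right (le_abs_self _) (F0_rN_nonneg n))
  rw [Metric.tendsto_atTop]
  intro ε hε
  have hst : ∀ᶠ k in atTop, 2 ≤ s k := hs.eventually_ge_atTop 2
  have hc' := (Metric.tendsto_nhds.mp hc) (ε / 2) (by positivity)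
  obtain ⟨k0, hk0⟩ := eventually_atTop.mp (hst.and hc')
  obtain ⟨N0, hN0⟩ := sparse_close (fun n => Real.log (u n)) (2 * |C|) (by positivity)
    (log_step u |C| (abs_nonneg C) hu h') s hs β hβ hgap 1 one_pos k0
  have hlt : Tendsto (fun n : ℕ => Real.log (2 * (n : ℝ))) atTop atTop :=
    Real.tendsto_log_atTop.comp (tendsto_natCast_atTop_atTop.const_mul_atTop (by norm_num))
  obtain ⟨N1, hN1⟩ := eventually_atTop.mp (hlt.eventually_gt_atTop (2 * (1 / 2 + |c| * Real.log 2) / ε))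
  refine ⟨max N0 (max N1 2), fun n hn => ?_⟩
  obtain ⟨k, hk, hk1, hk2, hk3⟩ := hN0 n ((le_max_left _ _).trans hn)
  have hn1 := hN1 n (((le_max_left _ _).trans (le_max_right _ _)).trans hn)
  have hn2 : 2 ≤ n := ((le_max_right _ _).trans (le_max_right _ _)).trans hn
  obtain ⟨hs2, hck⟩ := hk0 k hk
  rw [Real.dist_eq] at hck ⊢
  have hnr : (2 : ℝ) ≤ n := by exact_mod_cast hn2
  have hsr : (2 : ℝ) ≤ s k := by exact_mod_cast hs2
  have hk1r : (s k : ℝ) ≤ n := by exact_mod_cast hk1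
  have hk2r : (n : ℝ) ≤ 2 * s k := by exact_mod_cast hk2
  have hLn : 0 < Real.log (2 * n) := Real.log_pos (by linarith)
  have hLs : 0 < Real.log (2 * s k) := Real.log_pos (by linarith)
  have hLsn : Real.log (2 * s k) ≤ Real.log (2 * n) := Real.log_le_log (by linarith) (by linarith)
  have hLns : Real.log (2 * n) ≤ Real.log 2 + Real.log (2 * s k) := by
    rw [← Real.log_mul (by norm_num) (by positivity)]
    exact Real.log_le_log (by linarith) (by linarith)
  have hl2 : 0 < Real.log 2 := Real.log_pos (by norm_num)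
  have g1 : |Real.log (u (s k)) - c * Real.log (2 * s k)| ≤ ε / 2 * Real.log (2 * n) := by
    have e : Real.log (u (s k)) - c * Real.log (2 * s k) =
        (Real.log (u (s k)) / Real.log (2 * s k) - c) * Real.log (2 * s k) := by
      field_simp
    rw [e, abs_mul, abs_of_pos hLs]
    exact mul_le_mul hck.le hLsn hLs.le (by positivity)
  have g2 : |c * Real.log (2 * s k) - c * Real.log (2 * n)| ≤ |c| * Real.log 2 := by
    rw [← mul_sub, abs_mul]
    apply mul_le_mul_of_nonneg_left _ (abs_nonneg c)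
    rw [abs_le]; constructor <;> linarith
  have g3 : |Real.log (u n) - c * Real.log (2 * n)| ≤
      1 / 2 + |c| * Real.log 2 + ε / 2 * Real.log (2 * n) := by
    have e : Real.log (u n) - c * Real.log (2 * n) = (Real.log (u n) - Real.log (u (s k))) +
        (Real.log (u (s k)) - c * Real.log (2 * s k)) +
        (c * Real.log (2 * s k) - c * Real.log (2 * n)) := by ring
    rw [e]
    refine (abs_add_le _ _).trans ?_
    have := abs_add_le (Real.log (u n) - Real.log (u (s k)))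
      (Real.log (u (s k)) - c * Real.log (2 * s k))
    linarith
  have e : Real.log (u n) / Real.log (2 * n) - c =
      (Real.log (u n) - c * Real.log (2 * n)) / Real.log (2 * n) := by
    field_simp
  rw [e, abs_div, abs_of_pos hLn, div_lt_iff₀ hLn]
  rw [div_lt_iff₀ hε] at hn1
  linarith

end HYP

end

end Pool.Agent.H739K
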