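import Pool.Agent.H739K.PR

/-!
# The ratio theorem over polygons for weights of polynomial growth
-/

set_option autoImplicit false
set_option linter.unusedVariables false

namespace Pool.Agent.H739K

open Finset Pool.Agent.H976R2 Pool.Agent.H924P
open scoped Classical

noncomputable section

namespace MOM

lemma poly (q : ℝ) (hq : 0 ≤ q) (p : ℕ) : ∃ K : ℝ, 0 ≤ K ∧ ∀ m : ℕ, 2 ≤ m →
    q * ((m : ℝ) + 5) ^ p ≤ Real.exp (K * (Real.log m) ^ 9) := by
  obtain ⟨s, hs⟩ := pow_unbounded_of_one_lt (q * 4 ^ p) (show (1 : ℝ) < 2 by norm_num)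
  have hl2 : 0 < Real.log 2 := Real.log_pos (by norm_num)
  refine ⟨((s + p : ℕ) : ℝ) / Real.log 2 ^ 8, by positivity, fun m hm => ?_⟩
  have hm' : (2 : ℝ) ≤ m := by exact_mod_cast hm
  have hlm : Real.log 2 ≤ Real.log m := Real.log_le_log (by norm_num) hm'
  have h1 : q * ((m : ℝ) + 5) ^ p ≤ (m : ℝ) ^ (s + p) := by
    have h2 : (m : ℝ) + 5 ≤ 4 * m := by linarith
    calc q * ((m : ℝ) + 5) ^ p ≤ q * (4 * m) ^ p := by gcongr
      _ = q * 4 ^ p * (m : ℝ) ^ p := by rw [mul_pow]; ring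
      _ ≤ (2 : ℝ) ^ s * (m : ℝ) ^ p := by gcongr
      _ ≤ (m : ℝ) ^ s * (m : ℝ) ^ p := by gcongr
      _ = (m : ℝ) ^ (s + p) := by rw [pow_add]
  refine h1.trans ?_
  have h4 : (m : ℝ) ^ (s + p) = Real.exp (((s + p : ℕ) : ℝ) * Real.log m) := by
    rw [mul_comm, Real.exp_mul, Real.exp_log (by linarith), Real.rpow_natCast]
  rw [h4]
  apply Real.exp_le_exp.mpr
  rw [div_mul_eq_mul_div, le_div_iff₀ (by positivity)]
  calc ((s + p : ℕ) : ℝ) * Real.log m * Real.log 2 ^ 8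
      ≤ ((s + p : ℕ) : ℝ) * Real.log m * Real.log m ^ 8 := by
        have : 0 ≤ Real.log m := by linarith
        gcongr
    _ = ((s + p : ℕ) : ℝ) * Real.log m ^ 9 := by ring

theorem pmain (q : ℝ) (hq : 0 ≤ q) (p : ℕ) (L : ℝ) (hL : 0 ≤ L) : ∃ C : ℝ,
    ∀ (n : ℕ) (φ : List Dir → ℝ), 3 ≤ n →
    n % 2 = 1 → (∀ m : ℕ, 3 ≤ m → n ≤ 2 * m → m ≤ 2 * n → NiceP L q p m φ) →
    |mm φ (n + 2) / (H981.mu ^ 2 * mm φ n) - 1| ≤ C * rt n := by
  obtain ⟨D, hD, hratio⟩ := PR.ratio (p := p) bnd hq L hL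
  obtain ⟨hmu, K0, hK0, hbnd⟩ := bnd
  obtain ⟨K2, hK2, hpoly⟩ := poly q hq p
  have hmu1 : (1 : ℝ) ≤ H981.mu := by linarith
  have hmu0 : (0 : ℝ) < H981.mu := by linarith
  obtain ⟨C, hC⟩ := RATE_proof (K0 + K2) D (by positivity) hD
  refine ⟨C, fun n φ hn hodd hnice => ?_⟩
  have hwin : ∀ m : ℕ, n ≤ 2 * m → m % 2 = n % 2 → 3 ≤ m ∧ m % 2 = 1 := by
    intro m hm1 hm2
    omega
  have hcard : ∀ m : ℕ, n ≤ 2 * m → m ≤ 2 * n → m % 2 = n % 2 →
      ((KP m).card : ℝ) ≤ mm φ m ∧ mm φ m ≤ q * ((m : ℝ) + 5) ^ p * ((KP m).card : ℝ) := by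
    intro m hm1 hm2 hm3
    obtain ⟨h3m, hmodd⟩ := hwin m hm1 hm3
    have hN := hnice m h3m hm1 hm2
    refine ⟨PR.card_le_mm hN le_rfl (by omega), ?_⟩
    unfold mm
    have : q * ((m : ℝ) + 5) ^ p * ((KP m).card : ℝ) =
        ∑ w ∈ KP m, q * ((m : ℝ) + 5) ^ p := by
      rw [Finset.sum_const, nsmul_eq_mul]; ring
    rw [this]
    refine Finset.sum_le_sum fun w hw => ?_
    obtain ⟨hl, hs, hc⟩ := RATIO.mem_KP.mp hw
    exact hN.le w (by omega) (by omega) hs hc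
  have key := hC n (fun m => mm φ m / H981.mu ^ m) hn ?_ ?_
  · have e1 : mm φ (n + 2) / (H981.mu ^ 2 * mm φ n) - 1 =
        (fun m => mm φ m / H981.mu ^ m) (n + 2) / (fun m => mm φ m / H981.mu ^ m) n - 1 := by
      have hp : (0 : ℝ) < H981.mu ^ n := by positivity
      simp only
      rw [pow_add]
      by_cases h0 : mm φ n = 0
      · rw [h0]; simp
      · field_simp
    rw [e1]
    exact key
  · intro m hm1 hm2 hm3
    obtain ⟨h3m, hmodd⟩ := hwin m hm1 hm3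
    obtain ⟨c1, c2⟩ := hcard m hm1 hm2 hm3
    obtain ⟨d1, d2⟩ := hbnd m h3m hmodd
    have hp : (0 : ℝ) < H981.mu ^ m := by positivity
    have hl : 0 ≤ Real.log (m : ℝ) := Real.log_natCast_nonneg m
    have hl9 : 0 ≤ (Real.log m) ^ 9 := by positivity
    constructor
    · rw [le_div_iff₀ hp]
      have e1 : Real.exp (-((K0 + K2) * (Real.log m) ^ 9)) ≤
          Real.exp (-(K0 * (Real.log m) ^ 9)) := by
        apply Real.exp_le_exp.2
        nlinarith
      calc Real.exp (-((K0 + K2) * (Real.log m) ^ 9)) * H981.mu ^ m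
          ≤ Real.exp (-(K0 * (Real.log m) ^ 9)) * H981.mu ^ m :=
            mul_le_mul_of_nonneg_right e1 hp.le
        _ = H981.mu ^ m * Real.exp (-(K0 * (Real.log m) ^ 9)) := by ring
        _ ≤ ((KP m).card : ℝ) := d1
        _ ≤ mm φ m := c1
    · rw [div_le_iff₀ hp]
      have e2 := hpoly m (by omega)
      have e3 : Real.exp ((K0 + K2) * (Real.log m) ^ 9) =
          Real.exp (K2 * (Real.log m) ^ 9) * Real.exp (K0 * (Real.log m) ^ 9) := by
        rw [← Real.exp_add]; congr 1; ring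
      have hc0 : (0 : ℝ) ≤ ((KP m).card : ℝ) := Nat.cast_nonneg _
      calc mm φ m ≤ q * ((m : ℝ) + 5) ^ p * ((KP m).card : ℝ) := c2
        _ ≤ Real.exp (K2 * (Real.log m) ^ 9) * (H981.mu ^ m * Real.exp (K0 * (Real.log m) ^ 9)) :=
            mul_le_mul e2 d2 hc0 (Real.exp_pos _).le
        _ = Real.exp ((K0 + K2) * (Real.log m) ^ 9) * H981.mu ^ m := by rw [e3]; ring
  · intro m hm1 hm2 hm3
    obtain ⟨h3m, hmodd⟩ := hwin m hm1 hm3
    have hr := hratio m φ h3m hmodd (hnice m h3m hm1 (by omega))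
    have hp : (0 : ℝ) < H981.mu ^ m := by positivity
    have hm0 : (0 : ℝ) < m := by
      have : (3 : ℝ) ≤ m := by exact_mod_cast h3m
      linarith
    have hmu4 : (1 : ℝ) ≤ H981.mu ^ 4 := one_le_pow₀ hmu1
    have e1 : (mm φ (m + 2) / H981.mu ^ (m + 2)) ^ 2 =
        mm φ (m + 2) ^ 2 / (H981.mu ^ m * H981.mu ^ m * H981.mu ^ 4) := by
      rw [div_pow, ← pow_mul]; congr 1; ring
    have e2 : mm φ m / H981.mu ^ m * (mm φ (m + 4) / H981.mu ^ (m + 4)) =
        mm φ m * mm φ (m + 4) / (H981.mu ^ m * H981.mu ^ m * H981.mu ^ 4) := by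
      rw [div_mul_div_comm]; congr 1; ring
    have e3 : D / m * (mm φ m / H981.mu ^ m) ^ 2 =
        D / m * mm φ m ^ 2 * H981.mu ^ 4 / (H981.mu ^ m * H981.mu ^ m * H981.mu ^ 4) := by
      field_simp
    rw [e1, e2, e3, ← add_div]
    apply div_le_div_of_nonneg_right _ (by positivity)
    refine hr.trans ?_
    have h5 : 0 ≤ D / m * mm φ m ^ 2 := by positivity
    nlinarith

theorem mm_pos {q : ℝ} {p : ℕ} {L : ℝ} {m n : ℕ} {φ : List Dir → ℝ} (h : NiceP L q p m φ)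
    (h1 : m ≤ n) (h2 : n ≤ m + 4) (hc : 0 < ((KP n).card : ℝ)) : 0 < mm φ n :=
  lt_of_lt_of_le hc (PR.card_le_mm h h1 h2)

theorem pf0 (q : ℝ) (hq : 0 ≤ q) (p : ℕ) (L : ℝ) (hL : 0 ≤ L) : ∃ C : ℝ,
    ∀ (N : ℕ) (φ : List Dir → ℝ), 2 ≤ N →
    (∀ m : ℕ, 3 ≤ m → m ≤ 4 * N → N ≤ m + 1 → NiceP L q p m φ) →
    |(mm φ (2 * N + 1) / ((KP (2 * N + 1)).card : ℝ)) / (mm φ (2 * N - 1) / ((KP (2 * N - 1)).card : ℝ)) - 1|
    ≤ C * rN N := by
  have hb := bnd
  obtain ⟨C1, hC1⟩ := pmain q hq p L hL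
  obtain ⟨C2, hC2⟩ := main' 0 le_rfl
  have hmu : 0 < H981.mu := by linarith [hb.1]
  set K1 := max C1 0 with hK1
  set K2 := max C2 1 with hK2
  have hK1' : 0 ≤ K1 := le_max_right _ _
  have hK2' : 1 ≤ K2 := le_max_right _ _
  have hK2pos : 0 < K2 := by linarith
  obtain ⟨n0, hn0⟩ : ∃ n0 : ℕ, ∀ n ≥ n0, rt n < 1 / (2 * K2) := by
    have := F0_rt_tendsto.eventually (gt_mem_nhds (show (0 : ℝ) < 1 / (2 * K2) by positivity))
    exact Filter.eventually_atTop.1 this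
  obtain ⟨r2, hr2⟩ : ∃ r2 : ℕ → ℝ, ∀ n, r2 n = ((KP (n + 2)).card : ℝ) / (H981.mu ^ 2 * ((KP n).card : ℝ)) :=
    ⟨_, fun _ => rfl⟩
  have hr2nn : ∀ n, 0 ≤ r2 n := fun n => by rw [hr2]; positivity
  set M : ℝ := ∑ n ∈ Finset.range n0, 1 / r2 n with hM
  have hM0 : 0 ≤ M := Finset.sum_nonneg fun n _ => one_div_nonneg.2 (hr2nn n)
  set C3 : ℝ := 2 * (K1 + K2) + (2 * K2 + K1) * M + 2 * K2 with hC3
  have hC30 : 0 ≤ C3 := by positivity
  refine ⟨C3 * 23, ?_⟩
  intro N φ hN hnice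
  have hrt := F0_rt_le N hN
  obtain ⟨n, hn⟩ : ∃ n, n = 2 * N - 1 := ⟨_, rfl⟩
  have hn2 : 2 * N + 1 = n + 2 := by omega
  have hn3 : 3 ≤ n := by omega
  have hodd : n % 2 = 1 := by omega
  rw [hn2, ← hn]
  rw [← hn] at hrt
  have hcn := F0_card_pos hb n hn3 hodd
  have hcn2 := F0_card_pos hb (n + 2) (by omega) (by omega)
  have hniceN := hnice n hn3 (by omega) (by omega)
  have hmn := mm_pos hniceN le_rfl (by omega) hcn
  have hmn2 := mm_pos hniceN (show n ≤ n + 2 by omega) (by omega) hcn2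
  obtain ⟨r1, hr1⟩ : ∃ r1 : ℝ, r1 = mm φ (n + 2) / (H981.mu ^ 2 * mm φ n) := ⟨_, rfl⟩
  have hr1pos : 0 < r1 := by rw [hr1]; positivity
  have hr2pos : 0 < r2 n := by rw [hr2]; positivity
  have e1 : |r1 - 1| ≤ K1 * rt n := by
    rw [hr1]
    refine (hC1 n φ hn3 hodd (fun m h3 h4 h5 => hnice m h3 (by omega) (by omega))).trans ?_
    exact mul_le_mul_of_nonneg_right (le_max_left _ _) (F0_rt_nonneg n)
  have e2 : |r2 n - 1| ≤ K2 * rt n := by
    have := hC2 n (fun _ => 1) hn3 hodd (fun m _ _ _ => F0_nice_one m)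
    rw [F0_mm_one, F0_mm_one, ← hr2] at this
    exact this.trans (mul_le_mul_of_nonneg_right (le_max_left _ _) (F0_rt_nonneg n))
  have eQ : (mm φ (n + 2) / ((KP (n + 2)).card : ℝ)) / (mm φ n / ((KP n).card : ℝ)) = r1 / r2 n := by
    rw [hr1, hr2]
    generalize mm φ (n + 2) = x1 at *
    generalize mm φ n = x2 at *
    generalize ((KP (n + 2)).card : ℝ) = x3 at *
    generalize ((KP n).card : ℝ) = x4 at *
    generalize H981.mu = x5 at *
    field_simp
  rw [eQ]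
  have hrt0 := F0_rt_nonneg n
  have key : |r1 / r2 n - 1| ≤ C3 * rt n := by
    by_cases hc : K2 * rt n ≤ 1 / 2
    · have h5 : 1 / 2 ≤ r2 n := by
        have := (abs_le.1 e2).1
        linarith
      have h6 : |r1 / r2 n - 1| = |r1 - r2 n| / r2 n := by
        rw [← abs_of_pos hr2pos, ← abs_div, abs_of_pos hr2pos, sub_div, div_self hr2pos.ne']
      rw [h6]
      have h7 : |r1 - r2 n| ≤ (K1 + K2) * rt n := by
        have : r1 - r2 n = (r1 - 1) - (r2 n - 1) := by ring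
        rw [this]
        refine (abs_sub _ _).trans ?_
        linarith
      calc |r1 - r2 n| / r2 n ≤ ((K1 + K2) * rt n) / (1 / 2) := by
            apply div_le_div₀ (by positivity) h7 (by norm_num) h5
        _ = 2 * (K1 + K2) * rt n := by ring
        _ ≤ C3 * rt n := by
            apply mul_le_mul_of_nonneg_right _ hrt0
            rw [hC3]
            have : 0 ≤ (2 * K2 + K1) * M := by positivity
            linarith
    · push Not at hc
      have hnn0 : n < n0 := by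
        by_contra h7
        push Not at h7
        have h8 := hn0 n h7
        rw [lt_div_iff₀ (by positivity)] at h8
        linarith
      have hM1 : 1 / r2 n ≤ M :=
        Finset.single_le_sum (f := fun n => 1 / r2 n) (fun i _ => one_div_nonneg.2 (hr2nn i)) (Finset.mem_range.2 hnn0)
      have h1 : 1 ≤ 2 * K2 * rt n := by linarith
      have h2 : r1 ≤ (2 * K2 + K1) * rt n := by
        have := (abs_le.1 e1).2
        linarith
      have h3 : |r1 / r2 n - 1| ≤ r1 / r2 n + 1 := by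
        have : 0 ≤ r1 / r2 n := by positivity
        rw [abs_le]; constructor <;> linarith
      refine h3.trans ?_
      have h4 : r1 / r2 n ≤ ((2 * K2 + K1) * rt n) * M := by
        rw [div_eq_mul_one_div]
        exact mul_le_mul h2 hM1 (by positivity) (by positivity)
      rw [hC3]
      have h5 : 0 ≤ (K1 + K2) * rt n := by positivity
      nlinarith
  refine key.trans ?_
  rw [mul_assoc]
  exact mul_le_mul_of_nonneg_left hrt hC30

end MOM

end

end Pool.Agent.H739K
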