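import Pool.Agent.H739K.MOM1

/-!
# All moments of the area
-/

set_option autoImplicit false
set_option linter.unusedVariables false

namespace Pool.Agent.H739K

open Finset Pool.Agent.H976R2 Pool.Agent.H924P
open scoped Classical

noncomputable section

namespace MOM

/-- the weight -/
def ph (k : ℕ) (w : List Dir) : ℝ := (ar w : ℝ) ^ k + (w.length : ℝ) ^ k

/-- moments of the area -/
def MK (k N : ℕ) : ℝ := me N (fun f => (area (2 * N) f : ℝ) ^ k)

theorem nice (k : ℕ) (hk : 1 ≤ k) (m : ℕ) (hm : 3 ≤ m) :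
    NiceP (3 * k * 2 ^ k * 2 ^ (k - 1)) (4 ^ k + 1) (2 * k) m (ph k) := by
  refine ⟨?_, ?_, ?_⟩
  · intro w h1 h2 hs hq
    unfold ph
    have h3 : (3 : ℝ) ≤ w.length := by exact_mod_cast hm.trans h1
    have h4 : (0 : ℝ) ≤ (ar w : ℝ) ^ k := by positivity
    have h5 : (1 : ℝ) ≤ (w.length : ℝ) ^ k := one_le_pow₀ (by linarith)
    linarith
  · intro w h1 h2 hs hq
    have hl := F2aux.loop_of CONV_proof (hm.trans h1) hs hq
    have h3 : ar w ≤ (2 * (w.length + 1)) ^ 2 := by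
      have : NeZero (w.length + 1) := ⟨by omega⟩
      exact all_area hl
    have h4 : (ar w : ℝ) ≤ (2 * ((w.length : ℝ) + 1)) ^ 2 := by exact_mod_cast h3
    have h5 : (w.length : ℝ) ≤ (m : ℝ) + 4 := by exact_mod_cast h2
    have h0 : (0 : ℝ) ≤ w.length := Nat.cast_nonneg _
    have hm0 : (0 : ℝ) ≤ m := Nat.cast_nonneg _
    unfold ph
    have h6 : (ar w : ℝ) ≤ 4 * ((m : ℝ) + 5) ^ 2 := by
      refine h4.trans ?_
      calc (2 * ((w.length : ℝ) + 1)) ^ 2 ≤ (2 * ((m : ℝ) + 5)) ^ 2 :=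
            pow_le_pow_left₀ (by positivity) (by linarith) 2
        _ = _ := by ring
    have h7 : (w.length : ℝ) ≤ ((m : ℝ) + 5) ^ 2 := by nlinarith
    calc (ar w : ℝ) ^ k + (w.length : ℝ) ^ k
        ≤ (4 * ((m : ℝ) + 5) ^ 2) ^ k + (((m : ℝ) + 5) ^ 2) ^ k := by gcongr
      _ = (4 ^ k + 1) * ((m : ℝ) + 5) ^ (2 * k) := by rw [mul_pow, ← pow_mul]; ring
  · intro w h1 h2 hs hq
    have hl3 : (3 : ℝ) ≤ w.length := by exact_mod_cast hm.trans h1
    have hx0 : (0 : ℝ) ≤ ar w := Nat.cast_nonneg _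
    have h3 : ∀ p ∈ adm w, |ph k (ins w p.1 p.2) - ph k w| ≤
        3 * k * (2 * ((ar w : ℝ) + w.length)) ^ (k - 1) := by
      rintro ⟨i, e⟩ hp
      have hi : i < w.length := (mem_adm.1 hp).1
      obtain ⟨a1, a2⟩ := AREA_proof w i e (hm.trans h1) hs hq hp
      have b1 : (ar (ins w i e) : ℝ) ≤ ar w + 1 := by exact_mod_cast a1
      have b2 : (ar w : ℝ) ≤ ar (ins w i e) + 1 := by exact_mod_cast a2
      have b0 : (0 : ℝ) ≤ ar (ins w i e) := Nat.cast_nonneg _
      unfold ph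
      simp only
      rw [length_ins e hi]
      push_cast
      have c1 := abs_pow_sub_pow_le (ar (ins w i e) : ℝ) (ar w : ℝ) k
      have c2 := abs_pow_sub_pow_le ((w.length : ℝ) + 2) (w.length : ℝ) k
      have c3 : |(ar (ins w i e) : ℝ) - ar w| ≤ 1 := by
        rw [abs_le]; constructor <;> linarith
      have c4 : max |(ar (ins w i e) : ℝ)| |(ar w : ℝ)| ≤ 2 * ((ar w : ℝ) + w.length) := by
        rw [abs_of_nonneg b0, abs_of_nonneg hx0]
        apply max_le <;> linarith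
      have c5 : max |(w.length : ℝ) + 2| |(w.length : ℝ)| ≤ 2 * ((ar w : ℝ) + w.length) := by
        rw [abs_of_nonneg (by positivity), abs_of_nonneg (by positivity)]
        apply max_le <;> linarith
      have c6 : |(w.length : ℝ) + 2 - w.length| = 2 := by
        rw [add_sub_cancel_left]; norm_num
      have e5 : (ar (ins w i e) : ℝ) ^ k + ((w.length : ℝ) + 2) ^ k - ((ar w : ℝ) ^ k + (w.length : ℝ) ^ k) =
        ((ar (ins w i e) : ℝ) ^ k - (ar w : ℝ) ^ k) + (((w.length : ℝ) + 2) ^ k - (w.length : ℝ) ^ k) := by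
        ring
      rw [e5]
      have d1 : |(ar (ins w i e) : ℝ) ^ k - (ar w : ℝ) ^ k| ≤
          1 * k * (2 * ((ar w : ℝ) + w.length)) ^ (k - 1) := by
        refine c1.trans ?_
        gcongr
      have d2 : |((w.length : ℝ) + 2) ^ k - (w.length : ℝ) ^ k| ≤
          2 * k * (2 * ((ar w : ℝ) + w.length)) ^ (k - 1) := by
        refine c2.trans ?_
        rw [c6]
        gcongr
      refine (abs_add_le _ _).trans ?_
      calc _ ≤ 1 * k * (2 * ((ar w : ℝ) + w.length)) ^ (k - 1) +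
            2 * k * (2 * ((ar w : ℝ) + w.length)) ^ (k - 1) := add_le_add d1 d2
        _ = _ := by ring
    refine (Finset.sum_le_sum h3).trans ?_
    rw [Finset.sum_const, nsmul_eq_mul]
    have h4 : ((adm w).card : ℝ) ≤ 2 * w.length := by exact_mod_cast AA_le w
    have h5 : ((adm w).card : ℝ) ≤ 2 * ((ar w : ℝ) + w.length) := by linarith
    have h6 := add_pow_le hx0 (show (0 : ℝ) ≤ w.length by positivity) k
    have h7 : (2 * ((ar w : ℝ) + w.length)) ^ k =
        (2 * ((ar w : ℝ) + w.length)) * (2 * ((ar w : ℝ) + w.length)) ^ (k - 1) := by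
      obtain ⟨j, rfl⟩ : ∃ j, k = j + 1 := ⟨k - 1, by omega⟩
      rw [Nat.add_sub_cancel, pow_succ, mul_comm]
    unfold ph
    calc ((adm w).card : ℝ) * (3 * k * (2 * ((ar w : ℝ) + w.length)) ^ (k - 1))
        ≤ (2 * ((ar w : ℝ) + w.length)) * (3 * k * (2 * ((ar w : ℝ) + w.length)) ^ (k - 1)) := by
          gcongr
      _ = 3 * k * (2 * ((ar w : ℝ) + w.length)) ^ k := by rw [h7]; ring
      _ = 3 * k * 2 ^ k * ((ar w : ℝ) + w.length) ^ k := by rw [mul_pow]; ring
      _ ≤ 3 * k * 2 ^ k * (2 ^ (k - 1) * ((ar w : ℝ) ^ k + (w.length : ℝ) ^ k)) := by gcongr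
      _ = _ := by ring

theorem MK_eq (k N : ℕ) (hN : 2 ≤ N) : MK k N = (∑ w ∈ KP (2 * N - 1), (ar w : ℝ) ^ k) /
      ((KP (2 * N - 1)).card : ℝ) := by
  obtain ⟨c1, c2, c3⟩ := CONV_proof N hN
  unfold MK me
  rw [c1, c2]
  congr 1
  refine Finset.sum_congr rfl (fun w hw => ?_)
  have hl : w.length = 2 * N - 1 := (mem_SW.1 (Finset.mem_filter.1 hw).1).1
  have hl2 : w.length + 1 = 2 * N := by omega
  unfold ar
  rw [hl2]

theorem mean_eq (k N : ℕ) (hN : 2 ≤ N) :
    mm (ph k) (2 * N - 1) / ((KP (2 * N - 1)).card : ℝ) = MK k N + (2 * N - 1) ^ k := by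
  have hcard : ((KP (2 * N - 1)).card : ℝ) ≠ 0 := (card_KP_pos hN).ne'
  have hmm : mm (ph k) (2 * N - 1) = (∑ w ∈ KP (2 * N - 1), (ar w : ℝ) ^ k) +
      ((KP (2 * N - 1)).card : ℝ) * (2 * N - 1) ^ k := by
    unfold mm
    have : ∀ w ∈ KP (2 * N - 1), ph k w = (ar w : ℝ) ^ k + (2 * N - 1) ^ k := by
      intro w hw
      have hl : w.length = 2 * N - 1 := (mem_SW.1 (Finset.mem_filter.1 hw).1).1
      have hl2 : w.length + 1 = 2 * N := by omega
      unfold ph
      have h3 : (w.length : ℝ) = 2 * N - 1 := by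
        have : (w.length : ℝ) + 1 = 2 * N := by exact_mod_cast hl2
        linarith
      rw [h3]
    rw [Finset.sum_congr rfl this, Finset.sum_add_distrib, Finset.sum_const, nsmul_eq_mul]
  rw [hmm, MK_eq k N hN]
  field_simp

theorem MA_eq (N : ℕ) (hN : 2 ≤ N) : MA N = MK 1 N := by
  unfold MA MK
  simp only [pow_one]

theorem MK_ge (k N : ℕ) (hN : 2 ≤ N) : ((N : ℝ) / 2) ^ k ≤ MK k N := by
  have hcard := card_KP_pos hN
  have h1 : (MA N) ^ k ≤ MK k N := by
    rw [MA_eq N hN, MK_eq 1 N hN, MK_eq k N hN]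
    have h2 := Real.pow_arith_mean_le_arith_mean_pow (KP (2 * N - 1))
      (fun _ => 1 / ((KP (2 * N - 1)).card : ℝ)) (fun w => (ar w : ℝ))
      (fun _ _ => by positivity)
      (by rw [Finset.sum_const, nsmul_eq_mul]; field_simp)
      (fun _ _ => by positivity) k
    rw [← Finset.mul_sum, ← Finset.mul_sum] at h2
    simp only [pow_one]
    have e1 : (∑ w ∈ KP (2 * N - 1), (ar w : ℝ)) / ((KP (2 * N - 1)).card : ℝ) =
        1 / ((KP (2 * N - 1)).card : ℝ) * ∑ w ∈ KP (2 * N - 1), (ar w : ℝ) := by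
      field_simp
    have e2 : (∑ w ∈ KP (2 * N - 1), (ar w : ℝ) ^ k) / ((KP (2 * N - 1)).card : ℝ) =
        1 / ((KP (2 * N - 1)).card : ℝ) * ∑ w ∈ KP (2 * N - 1), (ar w : ℝ) ^ k := by
      field_simp
    rw [e1, e2]
    exact h2
  have h2 := f2a N hN
  exact (pow_le_pow_left₀ (by positivity) h2 k).trans h1

theorem moments (k : ℕ) : ∃ K : ℝ, ∀ N : ℕ, 2 ≤ N →
    |MK k (N + 1) / MK k N - 1| ≤ K * rN N := by
  rcases Nat.eq_zero_or_pos k with rfl | hk
  · refine ⟨0, fun N hN => ?_⟩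
    have h : ∀ N : ℕ, 2 ≤ N → MK 0 N = 1 := by
      intro N hN
      rw [MK_eq 0 N hN]
      simp only [pow_zero, Finset.sum_const, nsmul_eq_mul, mul_one]
      exact div_self (card_KP_pos hN).ne'
    rw [h N hN, h (N + 1) (by omega)]
    simp
  · obtain ⟨C, hC⟩ := pf0 (4 ^ k + 1) (by positivity) (2 * k) (3 * k * 2 ^ k * 2 ^ (k - 1)) (by positivity)
    refine ⟨(1 + 4 ^ k) * C + 8 * (4 * k * 6 ^ (k - 1)), fun N hN => ?_⟩
    have h1 := hC N (ph k) hN (fun m hm _ _ => nice k hk m hm)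
    rw [mean_eq k N hN] at h1
    have e1 := mean_eq k (N + 1) (by omega)
    have e2 : 2 * (N + 1) - 1 = 2 * N + 1 := by omega
    rw [e2] at e1
    rw [e1] at h1
    have hA := MK_ge k N hN
    have hN' : (2 : ℝ) ≤ N := by exact_mod_cast hN
    have hA0 : 0 < MK k N := lt_of_lt_of_le (by positivity) hA
    have hc0 : (0 : ℝ) ≤ (2 * (N : ℝ) - 1) ^ k := pow_nonneg (by linarith) k
    have hB0 : 0 < MK k N + (2 * (N : ℝ) - 1) ^ k := by linarith
    push_cast at h1
    set A := MK k N with hAdef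
    set A' := MK k (N + 1) with hA'def
    set c : ℝ := (2 * (N : ℝ) - 1) ^ k with hcdef
    set c' : ℝ := (2 * ((N : ℝ) + 1) - 1) ^ k with hc'def
    have hcc0 : c ≤ c' := by
      rw [hcdef, hc'def]
      apply pow_le_pow_left₀ (by linarith)
      linarith
    set δ : ℝ := (A' + c') / (A + c) - 1 with hδ
    have h3 : A' - A = (A + c) * δ - (c' - c) := by
      rw [hδ]
      field_simp
      ring
    have h4 : A' / A - 1 = (A + c) / A * δ - (c' - c) / A := by
      have : A' / A - 1 = (A' - A) / A := by field_simp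
      rw [this, h3]
      ring
    have h5 : (A + c) / A ≤ 1 + 4 ^ k := by
      rw [div_le_iff₀ hA0]
      have : c ≤ 4 ^ k * A := by
        calc c ≤ (2 * (N : ℝ)) ^ k := by
              rw [hcdef]
              apply pow_le_pow_left₀ (by linarith)
              linarith
          _ = 4 ^ k * ((N : ℝ) / 2) ^ k := by rw [← mul_pow]; congr 1; ring
          _ ≤ 4 ^ k * A := by gcongr
      linarith
    have h5' : 0 ≤ (A + c) / A := by positivity
    have h6 : (c' - c) / A ≤ 4 * k * 6 ^ (k - 1) * (1 / (N : ℝ)) := by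
      rw [div_le_iff₀ hA0]
      have g1 := abs_pow_sub_pow_le (2 * ((N : ℝ) + 1) - 1) (2 * (N : ℝ) - 1) k
      have g2 : |2 * ((N : ℝ) + 1) - 1 - (2 * (N : ℝ) - 1)| = 2 := by
        rw [show 2 * ((N : ℝ) + 1) - 1 - (2 * (N : ℝ) - 1) = 2 by ring]; norm_num
      have g3 : max |2 * ((N : ℝ) + 1) - 1| |2 * (N : ℝ) - 1| ≤ 6 * ((N : ℝ) / 2) := by
        rw [abs_of_nonneg (by linarith), abs_of_nonneg (by linarith)]
        apply max_le <;> linarith
      rw [g2] at g1
      have g4 : c' - c ≤ 2 * k * (6 * ((N : ℝ) / 2)) ^ (k - 1) := by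
        refine (le_abs_self _).trans (g1.trans ?_)
        gcongr
      refine g4.trans ?_
      have g5 : ((N : ℝ) / 2) ^ k = ((N : ℝ) / 2) * ((N : ℝ) / 2) ^ (k - 1) := by
        obtain ⟨j, rfl⟩ : ∃ j, k = j + 1 := ⟨k - 1, by omega⟩
        rw [Nat.add_sub_cancel, pow_succ, mul_comm]
      calc 2 * k * (6 * ((N : ℝ) / 2)) ^ (k - 1)
          = 4 * k * 6 ^ (k - 1) * (1 / (N : ℝ)) * (((N : ℝ) / 2) * ((N : ℝ) / 2) ^ (k - 1)) := by
            rw [mul_pow]
            field_simp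
            ring
        _ = 4 * k * 6 ^ (k - 1) * (1 / (N : ℝ)) * ((N : ℝ) / 2) ^ k := by rw [g5]
        _ ≤ _ := by gcongr
    have h7 := F2aux.inv_le N hN
    have h8 : 0 ≤ (c' - c) / A := div_nonneg (by linarith) hA0.le
    rw [h4]
    calc |(A + c) / A * δ - (c' - c) / A| ≤ |(A + c) / A * δ| + |(c' - c) / A| := abs_sub _ _
      _ = (A + c) / A * |δ| + (c' - c) / A := by rw [abs_mul, abs_of_nonneg h5', abs_of_nonneg h8]
      _ ≤ (1 + 4 ^ k) * (C * rN N) + 4 * k * 6 ^ (k - 1) * (8 * rN N) := by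
        apply add_le_add
        · exact mul_le_mul h5 h1 (abs_nonneg _) (by positivity)
        · refine h6.trans ?_
          gcongr
      _ = _ := by ring

end MOM

end

end Pool.Agent.H739K
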