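import Pool.Agent.H739K.MOM2

/-!
# All normalised moments of the area
-/

set_option autoImplicit false
set_option linter.unusedVariables false

namespace Pool.Agent.H739K

open Finset Pool.Agent.H976R2 Pool.Agent.H924P
open scoped Classical

noncomputable section

namespace MOM

/-- moments of the normalised area -/
def NK (k N : ℕ) : ℝ := me N (fun f => ((area (2 * N) f : ℝ) / MA N) ^ k)

theorem NK_eq (k N : ℕ) (hN : 2 ≤ N) : NK k N = MK k N / MA N ^ k := by
  obtain ⟨c1, c2, c3⟩ := CONV_proof N hN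
  unfold NK MK
  generalize MA N = c
  unfold me
  rw [c1, c1]
  simp_rw [div_pow]
  rw [← Finset.sum_div, div_right_comm]

theorem MK_pos (k N : ℕ) (hN : 2 ≤ N) : 0 < MK k N := by
  have hN' : (2 : ℝ) ≤ N := by exact_mod_cast hN
  exact lt_of_lt_of_le (by positivity) (MK_ge k N hN)

theorem nmoments (k : ℕ) : ∃ K : ℝ, ∀ N : ℕ, 2 ≤ N →
    |NK k (N + 1) / NK k N - 1| ≤ K * rN N := by
  obtain ⟨K1, h1⟩ := moments k
  obtain ⟨K2, h2⟩ := f2
  obtain ⟨B, hB0, hB⟩ := rN_bdd
  -- the reciprocal ratio of the means is bounded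
  obtain ⟨b, hb⟩ : ∃ b : ℝ, ∀ N : ℕ, MA N / MA (N + 1) ≤ b := by
    have ht : Filter.Tendsto (fun N : ℕ => MA (N + 1) / MA N) Filter.atTop (nhds 1) := by
      have h0 : Filter.Tendsto (fun m : ℕ => rN m) Filter.atTop (nhds 0) := F0_rt_tendsto
      have h3 : Filter.Tendsto (fun m : ℕ => K2 * rN m) Filter.atTop (nhds 0) := by
        simpa using h0.const_mul K2
      rw [tendsto_iff_norm_sub_tendsto_zero]
      refine squeeze_zero' (Filter.Eventually.of_forall fun _ => norm_nonneg _) ?_ h3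
      filter_upwards [Filter.eventually_ge_atTop 2] with N hN
      rw [Real.norm_eq_abs]
      exact h2 N hN
    have ht2 := ht.inv₀ one_ne_zero
    obtain ⟨b, hb⟩ := ht2.bddAbove_range
    refine ⟨b, fun N => ?_⟩
    have := hb ⟨N, rfl⟩
    simpa [inv_div] using this
  refine ⟨(|K1| + |K2| * k * (1 + |K2| * B) ^ (k - 1)) * |b| ^ k, fun N hN => ?_⟩
  have hA := MA_pos hN
  have hA' := MA_pos (show 2 ≤ N + 1 by omega)
  have hM := MK_pos k N hN
  have hM' := MK_pos k (N + 1) (by omega)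
  have hr0 : 0 ≤ rN N := F0_rN_nonneg N
  have g1 := h1 N hN
  have g2 := h2 N hN
  have g3 := hb N
  rw [NK_eq k N hN, NK_eq k (N + 1) (by omega)]
  set x := MK k (N + 1) / MK k N with hx
  set y := MA (N + 1) / MA N with hy
  have hy0 : 0 < y := by positivity
  have e : MK k (N + 1) / MA (N + 1) ^ k / (MK k N / MA N ^ k) - 1 = (x - y ^ k) * (MA N / MA (N + 1)) ^ k := by
    rw [hx, hy, div_pow, div_pow]
    field_simp
  rw [e, abs_mul]
  have g4 : |x - 1| ≤ |K1| * rN N := g1.trans (by gcongr; exact le_abs_self _)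
  have g5 : |y - 1| ≤ |K2| * rN N := g2.trans (by gcongr; exact le_abs_self _)
  have g6 : |y - 1| ≤ |K2| * B := g5.trans (by gcongr; exact hB N)
  have g7 : |y ^ k - 1| ≤ |K2| * k * (1 + |K2| * B) ^ (k - 1) * rN N := by
    have c1 := abs_pow_sub_pow_le y 1 k
    rw [one_pow] at c1
    have c2 : max |y| |(1 : ℝ)| ≤ 1 + |K2| * B := by
      rw [abs_of_pos hy0, abs_one]
      have h3 : 0 ≤ |K2| * B := by positivity
      apply max_le
      · have := (abs_le.1 g6).2; linarith
      · linarith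
    refine c1.trans ?_
    calc |y - 1| * k * max |y| |(1 : ℝ)| ^ (k - 1)
        ≤ (|K2| * rN N) * k * (1 + |K2| * B) ^ (k - 1) := by gcongr
      _ = _ := by ring
  have g8 : |x - y ^ k| ≤ (|K1| + |K2| * k * (1 + |K2| * B) ^ (k - 1)) * rN N := by
    have : x - y ^ k = (x - 1) - (y ^ k - 1) := by ring
    rw [this]
    refine (abs_sub _ _).trans ?_
    linarith
  have g9 : |(MA N / MA (N + 1)) ^ k| ≤ |b| ^ k := by
    rw [abs_pow]
    refine pow_le_pow_left₀ (abs_nonneg _) ?_ k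
    rw [abs_of_pos (by positivity)]
    exact g3.trans (le_abs_self _)
  calc |x - y ^ k| * |(MA N / MA (N + 1)) ^ k|
      ≤ ((|K1| + |K2| * k * (1 + |K2| * B) ^ (k - 1)) * rN N) * |b| ^ k := by
        apply mul_le_mul g8 g9 (abs_nonneg _)
        positivity
    _ = _ := by ring

/-- **all moments of the area, plain and normalised** -/
theorem all_moments (k : ℕ) : ∃ K : ℝ, ∀ N : ℕ, 2 ≤ N →
    |MK k (N + 1) / MK k N - 1| ≤ K * rN N ∧ |NK k (N + 1) / NK k N - 1| ≤ K * rN N := by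
  obtain ⟨K1, h1⟩ := moments k
  obtain ⟨K2, h2⟩ := nmoments k
  refine ⟨max K1 K2, fun N hN => ⟨(h1 N hN).trans ?_, (h2 N hN).trans ?_⟩⟩
  · exact mul_le_mul_of_nonneg_right (le_max_left _ _) (F0_rN_nonneg N)
  · exact mul_le_mul_of_nonneg_right (le_max_right _ _) (F0_rN_nonneg N)

end MOM

end

end Pool.Agent.H739K
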