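import Pool.Agent.H739K.SWR
import Pool.Agent.H976R2.Paths

/-!
# Consequences for walks: ratios of the counts, laws of the endpoint
-/

set_option autoImplicit false

namespace Pool.Agent.H739K

open Finset Pool.Agent.H976R2
open scoped Classical

namespace SWF

lemma niceW_of_inv (φ : List Dir → ℝ) (h : ∀ (w : List Dir) (i : ℕ) (e : Dir), i < w.length →
    φ (ins w i e) = φ w) (h1 : ∀ w, 1 ≤ φ w) (h2 : ∀ w, φ w ≤ 3) (m : ℕ) : NiceW 0 m φ where
  one_le := fun w _ _ _ => h1 w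
  le := fun w _ _ _ => (h2 w).trans (by
    have : (0 : ℝ) ≤ m := Nat.cast_nonneg m
    have h3 : (1 : ℝ) ≤ ((m : ℝ) + 5) ^ 3 := one_le_pow₀ (by linarith)
    linarith)
  lip := fun w _ _ _ => by
    rw [zero_mul]
    refine le_of_eq (Finset.sum_eq_zero (fun p hp => ?_))
    have hi := (mem_adm.mp (show (p.1, p.2) ∈ adm w from hp)).1
    rw [h w p.1 p.2 hi, sub_self, abs_zero]

lemma card_pos (n : ℕ) : (0 : ℝ) < ((SW n).card : ℝ) := SW_card_pos n

lemma mom_one (n : ℕ) : mom (fun _ => (1 : ℝ)) n = ((SW n).card : ℝ) := by simp [mom]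

lemma rt_nonneg (n : ℕ) : 0 ≤ rt n := Real.sqrt_nonneg _

lemma rt_pos {n : ℕ} (hn : 2 ≤ n) : 0 < rt n := by
  have hn' : (2 : ℝ) ≤ n := by exact_mod_cast hn
  have hl : 0 < Real.log n := Real.log_pos (by linarith)
  unfold rt
  positivity

theorem count : ∃ K : ℝ, ∀ n : ℕ, 2 ≤ n →
    |((SW (n + 2)).card : ℝ) / ((SW n).card : ℝ) - H981.mu ^ 2| ≤ K * rt n := by
  obtain ⟨C, hC⟩ := SWR.main 0 le_rfl
  have hmu0 : 0 < H981.mu := H981.mu_pos
  have h3 : ∀ n : ℕ, 3 ≤ n →
      |((SW (n + 2)).card : ℝ) / ((SW n).card : ℝ) - H981.mu ^ 2| ≤ (H981.mu ^ 2 * C) * rt n := by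
    intro n hn
    have h := hC n (fun _ => 1) hn (fun m _ => niceW_of_inv _ (fun _ _ _ _ => rfl)
      (fun _ => le_rfl) (fun _ => by norm_num) m)
    rw [mom_one, mom_one] at h
    have hc := card_pos n
    have e : ((SW (n + 2)).card : ℝ) / ((SW n).card : ℝ) - H981.mu ^ 2 =
        H981.mu ^ 2 * (((SW (n + 2)).card : ℝ) / (H981.mu ^ 2 * ((SW n).card : ℝ)) - 1) := by
      field_simp
    rw [e, abs_mul, abs_of_pos (show 0 < H981.mu ^ 2 by positivity), mul_assoc]
    gcongr
  have hr2 := rt_pos (n := 2) le_rfl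
  refine ⟨max (H981.mu ^ 2 * C)
    (|((SW (2 + 2)).card : ℝ) / ((SW 2).card : ℝ) - H981.mu ^ 2| / rt 2), fun n hn => ?_⟩
  rcases Nat.lt_or_ge n 3 with h | h
  · obtain rfl : n = 2 := by omega
    calc |((SW (2 + 2)).card : ℝ) / ((SW 2).card : ℝ) - H981.mu ^ 2|
        = (|((SW (2 + 2)).card : ℝ) / ((SW 2).card : ℝ) - H981.mu ^ 2| / rt 2) * rt 2 := by
          field_simp
      _ ≤ _ := mul_le_mul_of_nonneg_right (le_max_right _ _) hr2.le
  · exact (h3 n h).trans (mul_le_mul_of_nonneg_right (le_max_left _ _) (rt_nonneg n))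

/-- laws of the endpoint: uniformly over all functions bounded by one -/
theorem endpoint : ∃ K : ℝ, ∀ n : ℕ, 2 ≤ n → ∀ F : ℤ × ℤ → ℝ, (∀ x, |F x| ≤ 1) →
    |EE (n + 2) (fun w => F (wX w, wY w)) - EE n (fun w => F (wX w, wY w))| ≤ K * rt n := by
  obtain ⟨C, hC⟩ := SWR.main 0 le_rfl
  have hmu0 : 0 < H981.mu := H981.mu_pos
  have hr2 := rt_pos (n := 2) le_rfl
  obtain ⟨C', hC'⟩ : ∃ C', C' = max C 0 := ⟨_, rfl⟩
  have hC0 : 0 ≤ C' := by rw [hC']; exact le_max_right _ _
  have hCC : C ≤ C' := by rw [hC']; exact le_max_left _ _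
  -- trivial bound
  have htriv : ∀ n : ℕ, ∀ F : ℤ × ℤ → ℝ, (∀ x, |F x| ≤ 1) → |EE n (fun w => F (wX w, wY w))| ≤ 1 := by
    intro n F hF
    have hc := card_pos n
    unfold EE
    rw [abs_div, abs_of_pos hc, div_le_one hc]
    calc |∑ w ∈ SW n, F (wX w, wY w)| ≤ ∑ w ∈ SW n, |F (wX w, wY w)| := abs_sum_le_sum_abs _ _
      _ ≤ ∑ w ∈ SW n, (1 : ℝ) := Finset.sum_le_sum (fun w _ => hF _)
      _ = _ := by simp
  have h3 : ∀ n : ℕ, 3 ≤ n → ∀ F : ℤ × ℤ → ℝ, (∀ x, |F x| ≤ 1) →
      |EE (n + 2) (fun w => F (wX w, wY w)) - EE n (fun w => F (wX w, wY w))| ≤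
        (12 * C') * rt n := by
    intro n hn F hF
    rcases le_or_gt (1 / 2) (C' * rt n) with hbig | hsmall
    · have h1 := htriv (n + 2) F hF
      have h2 := htriv n F hF
      calc |EE (n + 2) (fun w => F (wX w, wY w)) - EE n (fun w => F (wX w, wY w))|
          ≤ |EE (n + 2) (fun w => F (wX w, wY w))| + |EE n (fun w => F (wX w, wY w))| := abs_sub _ _
        _ ≤ 2 := by linarith
        _ ≤ _ := by linarith
    · have hF' : ∀ x, -1 ≤ F x ∧ F x ≤ 1 := fun x => abs_le.mp (hF x)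
      have g1 := hC n (fun _ => 1) hn (fun m _ => niceW_of_inv _ (fun _ _ _ _ => rfl)
        (fun _ => le_rfl) (fun _ => by norm_num) m)
      have g2 := hC n (fun w => 2 + F (wX w, wY w)) hn (fun m _ => niceW_of_inv _
        (fun w i e hi => by simp only [wX_ins e hi, wY_ins e hi])
        (fun w => by have := (hF' (wX w, wY w)).1; linarith)
        (fun w => by have := (hF' (wX w, wY w)).2; linarith) m)
      rw [mom_one, mom_one] at g1
      have hc := card_pos n
      have hc2 := card_pos (n + 2)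
      have hm : ∀ k, mom (fun w => 2 + F (wX w, wY w)) k =
          ((SW k).card : ℝ) * (2 + EE k (fun w => F (wX w, wY w))) := by
        intro k
        have := card_pos k
        unfold mom EE
        rw [Finset.sum_add_distrib]
        simp only [Finset.sum_const, nsmul_eq_mul]
        field_simp
      rw [hm, hm] at g2
      have a1 := abs_le.mp (htriv n F hF)
      have a2 := abs_le.mp (htriv (n + 2) F hF)
      set e0 := EE n (fun w => F (wX w, wY w)) with he0
      set e2 := EE (n + 2) (fun w => F (wX w, wY w)) with he2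
      obtain ⟨r0, hr0⟩ : ∃ r0, r0 = ((SW (n + 2)).card : ℝ) / (H981.mu ^ 2 * ((SW n).card : ℝ)) :=
        ⟨_, rfl⟩
      have hq : ((SW (n + 2)).card : ℝ) * (2 + e2) / (H981.mu ^ 2 * (((SW n).card : ℝ) * (2 + e0))) =
          r0 * ((2 + e2) / (2 + e0)) := by
        have : 2 + e0 ≠ 0 := by linarith [a1.1]
        rw [hr0]; field_simp
      rw [hq] at g2
      rw [← hr0] at g1
      have b1 : |r0 - 1| ≤ C' * rt n := g1.trans (mul_le_mul_of_nonneg_right hCC (rt_nonneg n))
      have b2 : |r0 * ((2 + e2) / (2 + e0)) - 1| ≤ C' * rt n :=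
        g2.trans (mul_le_mul_of_nonneg_right hCC (rt_nonneg n))
      have hr0l : 1 / 2 ≤ r0 := by
        have := (abs_le.mp b1).1; linarith
      have hp : 0 < 2 + e0 := by linarith [a1.1]
      have hid : e2 - e0 = (2 + e0) / r0 * ((r0 * ((2 + e2) / (2 + e0)) - 1) - (r0 - 1)) := by
        have : r0 ≠ 0 := by linarith
        field_simp
        ring
      rw [hid, abs_mul]
      have hk : |(2 + e0) / r0| ≤ 6 := by
        rw [abs_of_pos (by positivity), div_le_iff₀ (by linarith)]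
        linarith [a1.2]
      calc |(2 + e0) / r0| * |(r0 * ((2 + e2) / (2 + e0)) - 1) - (r0 - 1)|
          ≤ 6 * (C' * rt n + C' * rt n) := by
            gcongr
            exact (abs_sub _ _).trans (add_le_add b2 b1)
        _ = (12 * C') * rt n := by ring
  refine ⟨max (12 * C') (2 / rt 2), fun n hn F hF => ?_⟩
  rcases Nat.lt_or_ge n 3 with h | h
  · obtain rfl : n = 2 := by omega
    have h1 := htriv (2 + 2) F hF
    have h2 := htriv 2 F hF
    calc |EE (2 + 2) (fun w => F (wX w, wY w)) - EE 2 (fun w => F (wX w, wY w))|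
        ≤ |EE (2 + 2) (fun w => F (wX w, wY w))| + |EE 2 (fun w => F (wX w, wY w))| := abs_sub _ _
      _ ≤ 2 := by linarith
      _ = 2 / rt 2 * rt 2 := by field_simp
      _ ≤ _ := mul_le_mul_of_nonneg_right (le_max_right _ _) hr2.le
  · exact (h3 n h F hF).trans (mul_le_mul_of_nonneg_right (le_max_left _ _) (rt_nonneg n))

end SWF

end Pool.Agent.H739K
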