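import Pool.Agent.H739K.RATIO
import Pool.Agent.H739K.RATE
import Pool.Agent.H976R2.KMom

/-!
# The ratio theorem with a rate for weighted sums over self-avoiding walks
-/

set_option autoImplicit false
set_option linter.unusedVariables false

namespace Pool.Agent.H739K

open Finset Pool.Agent.H976R2
open scoped Classical

/-- weights on walks that are nearly invariant under insertions, at the lengths `n, n+2, n+4` -/
structure NiceW (L : ℝ) (n : ℕ) (φ : List Dir → ℝ) : Prop where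
  one_le : ∀ w : List Dir, n ≤ w.length → w.length ≤ n + 4 → Saw w → 1 ≤ φ w
  le : ∀ w : List Dir, n ≤ w.length → w.length ≤ n + 4 → Saw w → φ w ≤ 100 * ((n : ℝ) + 5) ^ 3
  lip : ∀ w : List Dir, n ≤ w.length → w.length ≤ n + 2 → Saw w →
    ∑ p ∈ adm w, |φ (ins w p.1 p.2) - φ w| ≤ L * φ w

namespace SWR

open RATIO (transfer' bounded)

lemma card_le_mom' {L : ℝ} {n : ℕ} {φ : List Dir → ℝ} (h : NiceW L n φ) {m : ℕ} (h1 : n ≤ m)
    (h2 : m ≤ n + 4) : ((SW m).card : ℝ) ≤ mom φ m := by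
  unfold mom
  rw [show ((SW m).card : ℝ) = ∑ w ∈ SW m, (1 : ℝ) by simp]
  refine Finset.sum_le_sum (fun w hw => ?_)
  obtain ⟨hl, hs⟩ := mem_SW.mp hw
  exact h.one_le w (by omega) (by omega) hs

/-- words with few bumps are negligible -/
theorem few_small : ∃ D : ℝ, 0 < D ∧ ∀ n : ℕ, 2 ≤ n →
    100 * ((n : ℝ) + 5) ^ 3 * ((few (n + 2)).card : ℝ) ≤ D / n * ((SW n).card : ℝ) := by
  obtain ⟨C, hC, h1⟩ := Few.few_card
  obtain ⟨c, hc, h2⟩ := Low.SW_card_lower
  have hr0 : (0 : ℝ) < 2.428 / 2.43 := by norm_num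
  have hr1 : (2.428 / 2.43 : ℝ) < 1 := by norm_num
  obtain ⟨B, hB0, hB⟩ := bounded 0 le_rfl (2.428 / 2.43) hr0 hr1
  refine ⟨100 * 64 * C * 2.428 ^ 2 * B / c, by positivity, fun n hn => ?_⟩
  have hn' : (2 : ℝ) ≤ n := by exact_mod_cast hn
  have h3 := h1 (n + 2)
  have h4 := h2 n
  have h5 := hB n
  rw [zero_mul, Real.exp_zero, mul_one, div_pow, ← mul_div_assoc, div_le_iff₀ (by positivity)] at h5
  have h6 : ((n : ℝ) + 5) ^ 3 ≤ 64 * (n : ℝ) ^ 3 := by
    have : (n : ℝ) + 5 ≤ 4 * n := by linarith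
    calc ((n : ℝ) + 5) ^ 3 ≤ (4 * (n : ℝ)) ^ 3 := by gcongr
      _ = 64 * (n : ℝ) ^ 3 := by ring
  rw [div_mul_eq_mul_div, le_div_iff₀ (by linarith)]
  calc 100 * ((n : ℝ) + 5) ^ 3 * ((few (n + 2)).card : ℝ) * n
      ≤ 100 * (64 * (n : ℝ) ^ 3) * (C * 2.428 ^ (n + 2)) * n := by gcongr
    _ = 100 * 64 * C * 2.428 ^ 2 * ((n : ℝ) ^ 4 * 2.428 ^ n) := by ring
    _ ≤ 100 * 64 * C * 2.428 ^ 2 * (B * 2.43 ^ n) := by gcongr
    _ = 100 * 64 * C * 2.428 ^ 2 * B / c * (c * 2.43 ^ n) := by field_simp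
    _ ≤ _ := by gcongr

/-- first step: the total weight -/
theorem step1 (L : ℝ) (hL : 0 ≤ L) : ∃ D : ℝ, 0 < D ∧
    ∀ (n : ℕ) (φ : List Dir → ℝ) (m : ℕ), 2 ≤ n → NiceW L n φ → (m = n ∨ m = n + 2) →
    |mom φ (m + 2) - ∑ w ∈ SW m, φ w * RR w| ≤ D / m * mom φ m := by
  obtain ⟨D, hD, hfew⟩ := few_small
  refine ⟨D + 50000000 + 2000 * L, by positivity, fun n φ m hn hφ hm => ?_⟩
  have hm3 : 2 ≤ m := by omega
  have hm' : (2 : ℝ) ≤ m := by exact_mod_cast hm3
  have h := transfer' m (by omega) φ φ (fun w => L * φ w) (by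
    intro w hw
    obtain ⟨hl, hs⟩ := mem_SW.mp hw
    exact hφ.lip w (by omega) (by omega) hs)
  have hmom : ∀ k, ∑ w ∈ SW k, φ w = mom φ k := fun k => rfl
  rw [hmom] at h
  refine h.trans ?_
  have hPn : ∀ w ∈ SW m, 0 ≤ φ w := fun w hw => by
    obtain ⟨hl, hs⟩ := mem_SW.mp hw
    have := hφ.one_le w (by omega) (by omega) hs
    linarith
  have h1 : ∑ w ∈ SW m, (2000 / (m : ℝ) * (L * φ w) + 50000000 / (m : ℝ) * |φ w|) =
      (2000 * L + 50000000) / m * mom φ m := by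
    rw [← hmom m, Finset.mul_sum]
    refine Finset.sum_congr rfl (fun w hw => ?_)
    rw [abs_of_nonneg (hPn w hw)]; ring
  have h2 : ∑ w' ∈ few (m + 2), |φ w'| ≤ D / m * mom φ m := by
    calc ∑ w' ∈ few (m + 2), |φ w'| ≤ ∑ w' ∈ few (m + 2), 100 * ((m : ℝ) + 5) ^ 3 := by
          refine Finset.sum_le_sum (fun w' hw' => ?_)
          have hw'' : w' ∈ SW (m + 2) := (Finset.mem_filter.mp hw').1
          obtain ⟨hl, hs⟩ := mem_SW.mp hw''
          have h0 := hφ.one_le w' (by omega) (by omega) hs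
          rw [abs_of_nonneg (by linarith)]
          refine (hφ.le w' (by omega) (by omega) hs).trans ?_
          have : (n : ℝ) ≤ m := by exact_mod_cast (by omega : n ≤ m)
          gcongr
      _ = 100 * ((m : ℝ) + 5) ^ 3 * ((few (m + 2)).card : ℝ) := by
          rw [Finset.sum_const, nsmul_eq_mul]; ring
      _ ≤ D / m * ((SW m).card : ℝ) := hfew m (by omega)
      _ ≤ D / m * mom φ m := by gcongr; exact card_le_mom' hφ (by omega) (by omega)
  rw [h1]
  calc (2000 * L + 50000000) / m * mom φ m + ∑ w' ∈ few (m + 2), |φ w'|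
      ≤ (2000 * L + 50000000) / m * mom φ m + D / m * mom φ m := by gcongr
    _ = (D + 50000000 + 2000 * L) / m * mom φ m := by ring

/-- second step -/
theorem step2 (L : ℝ) (hL : 0 ≤ L) : ∃ D : ℝ, 0 < D ∧
    ∀ (n : ℕ) (φ : List Dir → ℝ), 2 ≤ n → NiceW L n φ →
    |∑ w ∈ SW (n + 2), φ w * RR w - ∑ w ∈ SW n, φ w * RR w ^ 2| ≤ D / n * mom φ n := by
  obtain ⟨D, hD, hfew⟩ := few_small
  refine ⟨4000 * D + 4000 * 50000000 + 2000 * (4000 * L + 100000000), by positivity,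
    fun n φ hn hφ => ?_⟩
  have hn' : (2 : ℝ) ≤ n := by exact_mod_cast hn
  have hPn : ∀ m : ℕ, n ≤ m → m ≤ n + 4 → ∀ w ∈ SW m, 0 ≤ φ w := fun m h1 h2 w hw => by
    obtain ⟨hl, hs⟩ := mem_SW.mp hw
    have := hφ.one_le w (by omega) (by omega) hs
    linarith
  have hmom : ∀ k, ∑ w ∈ SW k, φ w = mom φ k := fun k => rfl
  have h := transfer' n (by omega) (fun w => φ w * RR w) (fun w => φ w * RR w)
    (fun w => (4000 * L + 100000000) * φ w) (by
    intro w hw
    obtain ⟨hl, hs⟩ := mem_SW.mp hw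
    have hP0 := hPn n le_rfl (by omega) w hw
    have h1 : ∑ p ∈ adm w, |φ (ins w p.1 p.2) * RR (ins w p.1 p.2) - φ w * RR w| ≤
        ∑ p ∈ adm w, (4000 * |φ (ins w p.1 p.2) - φ w| + φ w * (50000000 / (n : ℝ))) := by
      refine Finset.sum_le_sum (fun p hp => ?_)
      have hp' : (p.1, p.2) ∈ adm w := hp
      have hi := (mem_adm.mp hp').1
      have hR := RR_ins hs hp'
      rw [hl] at hR
      have hR2 := RR_le (w := ins w p.1 p.2) (by rw [length_ins p.2 hi]; omega)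
      have hR0 := RR_nonneg (ins w p.1 p.2)
      have e : φ (ins w p.1 p.2) * RR (ins w p.1 p.2) - φ w * RR w =
          RR (ins w p.1 p.2) * (φ (ins w p.1 p.2) - φ w) + φ w * (RR (ins w p.1 p.2) - RR w) := by
        ring
      rw [e]
      refine (abs_add_le _ _).trans ?_
      rw [abs_mul, abs_mul, abs_of_nonneg hR0, abs_of_nonneg hP0]
      gcongr
    refine h1.trans ?_
    rw [Finset.sum_add_distrib, ← Finset.mul_sum, Finset.sum_const, nsmul_eq_mul]
    have h2 := hφ.lip w (by omega) (by omega) hs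
    have h6 : ((adm w).card : ℝ) ≤ 2 * n := by
      have : (AA w : ℝ) ≤ 2 * w.length := by exact_mod_cast AA_le w
      rw [hl] at this
      exact this
    calc 4000 * ∑ p ∈ adm w, |φ (ins w p.1 p.2) - φ w| +
          ((adm w).card : ℝ) * (φ w * (50000000 / (n : ℝ)))
        ≤ 4000 * (L * φ w) + (2 * n) * (φ w * (50000000 / (n : ℝ))) := by gcongr
      _ = (4000 * L + 100000000) * φ w := by field_simp; ring)
  have e0 : ∑ w ∈ SW n, φ w * RR w * RR w = ∑ w ∈ SW n, φ w * RR w ^ 2 :=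
    Finset.sum_congr rfl (fun w _ => by ring)
  rw [e0] at h
  refine h.trans ?_
  have h1 : ∑ w ∈ SW n, (2000 / (n : ℝ) * ((4000 * L + 100000000) * φ w) +
      50000000 / (n : ℝ) * |φ w * RR w|) ≤
      (4000 * 50000000 + 2000 * (4000 * L + 100000000)) / (n : ℝ) * mom φ n := by
    rw [← hmom n, Finset.mul_sum]
    refine Finset.sum_le_sum (fun w hw => ?_)
    have h0 := hPn n le_rfl (by omega) w hw
    rw [abs_mul, abs_of_nonneg h0, abs_of_nonneg (RR_nonneg w)]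
    have hR := RR_le (w := w) (by rw [(mem_SW.mp hw).1]; omega)
    calc 2000 / (n : ℝ) * ((4000 * L + 100000000) * φ w) + 50000000 / (n : ℝ) * (φ w * RR w)
        ≤ 2000 / (n : ℝ) * ((4000 * L + 100000000) * φ w) +
          50000000 / (n : ℝ) * (φ w * 4000) := by gcongr
      _ = (4000 * 50000000 + 2000 * (4000 * L + 100000000)) / (n : ℝ) * φ w := by ring
  have h2 : ∑ w' ∈ few (n + 2), |φ w' * RR w'| ≤ 4000 * (D / n) * mom φ n := by
    calc ∑ w' ∈ few (n + 2), |φ w' * RR w'| ≤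
          ∑ w' ∈ few (n + 2), 4000 * (100 * ((n : ℝ) + 5) ^ 3) := by
          refine Finset.sum_le_sum (fun w' hw' => ?_)
          have hw'' : w' ∈ SW (n + 2) := (Finset.mem_filter.mp hw').1
          obtain ⟨hl, hs⟩ := mem_SW.mp hw''
          have h0 := hPn (n + 2) (by omega) (by omega) w' hw''
          rw [abs_mul, abs_of_nonneg h0, abs_of_nonneg (RR_nonneg w')]
          have hR := RR_le (w := w') (by rw [hl]; omega)
          have h3 : φ w' ≤ 100 * ((n : ℝ) + 5) ^ 3 := hφ.le w' (by omega) (by omega) hs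
          calc φ w' * RR w' ≤ (100 * ((n : ℝ) + 5) ^ 3) * 4000 := by
                gcongr
                exact RR_nonneg w'
            _ = 4000 * (100 * ((n : ℝ) + 5) ^ 3) := by ring
      _ = 4000 * (100 * ((n : ℝ) + 5) ^ 3 * ((few (n + 2)).card : ℝ)) := by
          rw [Finset.sum_const, nsmul_eq_mul]; ring
      _ ≤ 4000 * (D / n * ((SW n).card : ℝ)) := by gcongr 4000 * ?_; exact hfew n (by omega)
      _ ≤ 4000 * (D / n * mom φ n) := by gcongr; exact card_le_mom' hφ le_rfl (by omega)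
      _ = _ := by ring
  calc _ ≤ (4000 * 50000000 + 2000 * (4000 * L + 100000000)) / (n : ℝ) * mom φ n +
          4000 * (D / n) * mom φ n := by gcongr
    _ = _ := by ring

theorem ratio (L : ℝ) (hL : 0 ≤ L) : ∃ D : ℝ, 0 ≤ D ∧ ∀ (n : ℕ) (φ : List Dir → ℝ), 2 ≤ n →
    NiceW L n φ → mom φ (n + 2) ^ 2 ≤ mom φ n * mom φ (n + 4) + D / n * mom φ n ^ 2 := by
  obtain ⟨D1, hD1, h1⟩ := step1 L hL
  obtain ⟨D2, hD2, h2⟩ := step2 L hL
  refine ⟨D1 * (4000 + D1) + D2 + 8000 * D1 + D1 ^ 2, by positivity, fun n φ hn hφ => ?_⟩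
  have hn' : (2 : ℝ) ≤ n := by exact_mod_cast hn
  have hn0 : (0 : ℝ) < n := by linarith
  have hPn : ∀ w ∈ SW n, 0 ≤ φ w := fun w hw => by
    obtain ⟨hl, hs⟩ := mem_SW.mp hw
    have := hφ.one_le w (by omega) (by omega) hs
    linarith
  have hM0 : 0 ≤ mom φ n := Finset.sum_nonneg hPn
  have hM2 : 0 ≤ mom φ (n + 2) :=
    le_trans (by positivity) (card_le_mom' hφ (show n ≤ n + 2 by omega) (by omega))
  have hM4 : 0 ≤ mom φ (n + 4) :=
    le_trans (by positivity) (card_le_mom' hφ (show n ≤ n + 4 by omega) (by omega))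
  set S1 := ∑ w ∈ SW n, φ w * RR w with hS1
  set S2 := ∑ w ∈ SW n, φ w * RR w ^ 2 with hS2
  have hS1le : S1 ≤ 4000 * mom φ n := by
    unfold mom
    rw [Finset.mul_sum]
    refine Finset.sum_le_sum (fun w hw => ?_)
    have h0 := hPn w hw
    have hR := RR_le (w := w) (by rw [(mem_SW.mp hw).1]; omega)
    nlinarith
  have hS10 : 0 ≤ S1 := Finset.sum_nonneg (fun w hw => mul_nonneg (hPn w hw) (RR_nonneg w))
  have g1 := h1 n φ n hn hφ (Or.inl rfl)
  have g3 := h1 n φ (n + 2) hn hφ (Or.inr rfl)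
  have g2 := h2 n φ hn hφ
  have e24 : n + 2 + 2 = n + 4 := by ring
  rw [e24] at g3
  have hd : D1 / n ≤ D1 := div_le_self hD1.le (by linarith)
  have hdn : 0 ≤ D1 / n := by positivity
  have k1 : mom φ (n + 2) ≤ S1 + D1 / n * mom φ n := by
    have := (abs_le.mp g1).2; linarith
  have k1' : mom φ (n + 2) ≤ (4000 + D1) * mom φ n := by
    have : D1 / n * mom φ n ≤ D1 * mom φ n := by gcongr
    linarith
  have k4' : |mom φ (n + 4) - S2| ≤ (D1 * (4000 + D1) + D2) / n * mom φ n := by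
    have g4 : D1 / ((n + 2 : ℕ) : ℝ) * mom φ (n + 2) ≤ D1 / n * ((4000 + D1) * mom φ n) := by
      gcongr
      push_cast; linarith
    calc |mom φ (n + 4) - S2|
        ≤ |mom φ (n + 4) - ∑ w ∈ SW (n + 2), φ w * RR w| +
          |∑ w ∈ SW (n + 2), φ w * RR w - S2| := abs_sub_le _ _ _
      _ ≤ D1 / n * ((4000 + D1) * mom φ n) + D2 / n * mom φ n := by linarith
      _ = _ := by ring
  have hcs : S1 ^ 2 ≤ mom φ n * S2 := by
    have := Finset.sum_mul_sq_le_sq_mul_sq (SW n) (fun w => Real.sqrt (φ w))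
      (fun w => Real.sqrt (φ w) * RR w)
    have e1 : ∑ w ∈ SW n, Real.sqrt (φ w) * (Real.sqrt (φ w) * RR w) = S1 := by
      refine Finset.sum_congr rfl (fun w hw => ?_)
      rw [← mul_assoc, Real.mul_self_sqrt (hPn w hw)]
    have e2 : ∑ w ∈ SW n, Real.sqrt (φ w) ^ 2 = mom φ n := by
      refine Finset.sum_congr rfl (fun w hw => ?_)
      rw [Real.sq_sqrt (hPn w hw)]
    have e3 : ∑ w ∈ SW n, (Real.sqrt (φ w) * RR w) ^ 2 = S2 := by
      refine Finset.sum_congr rfl (fun w hw => ?_)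
      rw [mul_pow, Real.sq_sqrt (hPn w hw)]
    rw [e1, e2, e3] at this
    exact this
  have k2 : mom φ (n + 2) ^ 2 ≤ (S1 + D1 / n * mom φ n) ^ 2 := by
    gcongr
  have k3 : (S1 + D1 / n * mom φ n) ^ 2 ≤ mom φ n * S2 + (8000 * D1 + D1 ^ 2) / n * mom φ n ^ 2 := by
    have e : (S1 + D1 / n * mom φ n) ^ 2 = S1 ^ 2 + 2 * S1 * (D1 / n * mom φ n) +
        (D1 / n) * (D1 / n) * mom φ n ^ 2 := by ring
    have i1 : 2 * S1 * (D1 / n * mom φ n) ≤ 2 * (4000 * mom φ n) * (D1 / n * mom φ n) := by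
      gcongr
    have i2 : (D1 / n) * (D1 / n) * mom φ n ^ 2 ≤ (D1 / n) * D1 * mom φ n ^ 2 := by gcongr
    have e2 : (8000 * D1 + D1 ^ 2) / n * mom φ n ^ 2 = 2 * (4000 * mom φ n) * (D1 / n * mom φ n) +
        (D1 / n) * D1 * mom φ n ^ 2 := by ring
    rw [e, e2]
    linarith
  have k4 : mom φ n * S2 ≤ mom φ n * mom φ (n + 4) +
      (D1 * (4000 + D1) + D2) / n * mom φ n ^ 2 := by
    have : S2 ≤ mom φ (n + 4) + (D1 * (4000 + D1) + D2) / n * mom φ n := by
      have := (abs_le.mp k4').1; linarith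
    calc mom φ n * S2 ≤ mom φ n * (mom φ (n + 4) + (D1 * (4000 + D1) + D2) / n * mom φ n) := by
          gcongr
      _ = _ := by ring
  have e5 : (D1 * (4000 + D1) + D2 + 8000 * D1 + D1 ^ 2) / n * mom φ n ^ 2 =
      (D1 * (4000 + D1) + D2) / n * mom φ n ^ 2 + (8000 * D1 + D1 ^ 2) / n * mom φ n ^ 2 := by ring
  rw [e5]
  linarith

lemma card_eq_cr' (n : ℕ) : ((SW n).card : ℝ) = H981.cr' n := by
  rw [← ncard_saw n, H981.cr'_eq]
  unfold H981.C
  rw [← Nat.card_coe_set_eq]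
  rfl

lemma poly_le_exp : ∃ K : ℝ, 0 ≤ K ∧ ∀ m : ℕ, 2 ≤ m →
    100 * ((m : ℝ) + 5) ^ 3 ≤ Real.exp (K * (Real.log m) ^ 9) := by
  have hl2 : 0 < Real.log 2 := Real.log_pos (by norm_num)
  refine ⟨21 / Real.log 2 ^ 8, by positivity, fun m hm => ?_⟩
  have hm' : (2 : ℝ) ≤ m := by exact_mod_cast hm
  have hlm : Real.log 2 ≤ Real.log m := Real.log_le_log (by norm_num) hm'
  have h1 : 100 * ((m : ℝ) + 5) ^ 3 ≤ (m : ℝ) ^ 21 := by
    have h2 : (m : ℝ) + 5 ≤ 4 * m := by linarith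
    have h3 : (2 : ℝ) ^ 18 ≤ (m : ℝ) ^ 18 := pow_le_pow_left₀ (by norm_num) hm' 18
    calc 100 * ((m : ℝ) + 5) ^ 3 ≤ 100 * (4 * m) ^ 3 := by gcongr
      _ = 6400 * (m : ℝ) ^ 3 := by ring
      _ ≤ (2 : ℝ) ^ 18 * (m : ℝ) ^ 3 := by gcongr; norm_num
      _ ≤ (m : ℝ) ^ 18 * (m : ℝ) ^ 3 := by gcongr
      _ = (m : ℝ) ^ 21 := by ring
  refine h1.trans ?_
  have h4 : (m : ℝ) ^ 21 = Real.exp (21 * Real.log m) := by
    rw [mul_comm, Real.exp_mul, Real.exp_log (by linarith)]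
    norm_cast
  rw [h4]
  apply Real.exp_le_exp.mpr
  rw [div_mul_eq_mul_div, le_div_iff₀ (by positivity)]
  calc 21 * Real.log m * Real.log 2 ^ 8 ≤ 21 * Real.log m * Real.log m ^ 8 := by
        have : 0 ≤ Real.log m := by linarith
        gcongr
    _ = 21 * Real.log m ^ 9 := by ring

/-- **the ratio theorem with a rate for weighted sums over walks, uniform in the weight** -/
theorem main (L : ℝ) (hL : 0 ≤ L) : ∃ C : ℝ, ∀ (n : ℕ) (φ : List Dir → ℝ), 3 ≤ n →
    (∀ m : ℕ, 2 ≤ m → NiceW L m φ) →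
    |mom φ (n + 2) / (H981.mu ^ 2 * mom φ n) - 1| ≤ C * rt n := by
  obtain ⟨D, hD, hratio⟩ := ratio L hL
  obtain ⟨K1, hK1, hup⟩ := H981.cr'_upper9
  obtain ⟨K2, hK2, hpoly⟩ := poly_le_exp
  have hmu1 : 1 ≤ H981.mu := H981.one_le_mu
  have hmu0 : 0 < H981.mu := H981.mu_pos
  obtain ⟨C, hC⟩ := RATE_proof (K1 + K2) D (by positivity) hD
  refine ⟨C, fun n φ hn hnice => ?_⟩
  have hcard : ∀ m : ℕ, 2 ≤ m → ((SW m).card : ℝ) ≤ mom φ m ∧
      mom φ m ≤ 100 * ((m : ℝ) + 5) ^ 3 * ((SW m).card : ℝ) := by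
    intro m hm
    have hN := hnice m hm
    refine ⟨card_le_mom' hN le_rfl (by omega), ?_⟩
    unfold mom
    have : 100 * ((m : ℝ) + 5) ^ 3 * ((SW m).card : ℝ) = ∑ w ∈ SW m, 100 * ((m : ℝ) + 5) ^ 3 := by
      rw [Finset.sum_const, nsmul_eq_mul]; ring
    rw [this]
    refine Finset.sum_le_sum fun w hw => ?_
    obtain ⟨hl, hs⟩ := mem_SW.mp hw
    exact hN.le w (by omega) (by omega) hs
  have key := hC n (fun m => mom φ m / H981.mu ^ m) hn ?_ ?_
  · have e1 : mom φ (n + 2) / (H981.mu ^ 2 * mom φ n) - 1 =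
        (fun m => mom φ m / H981.mu ^ m) (n + 2) / (fun m => mom φ m / H981.mu ^ m) n - 1 := by
      have hp : (0 : ℝ) < H981.mu ^ n := by positivity
      simp only
      rw [pow_add]
      by_cases h0 : mom φ n = 0
      · rw [h0]; simp
      · field_simp
    rw [e1]
    exact key
  · intro m hm1 hm2 hm3
    have h2m : 2 ≤ m := by omega
    obtain ⟨c1, c2⟩ := hcard m h2m
    have hp : (0 : ℝ) < H981.mu ^ m := by positivity
    have hlog : 0 ≤ Real.log (m : ℝ) := Real.log_natCast_nonneg m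
    have d1 : H981.mu ^ m ≤ ((SW m).card : ℝ) := by rw [card_eq_cr']; exact H981.mu_pow_le m
    have d2 : ((SW m).card : ℝ) ≤ H981.mu ^ m * Real.exp (K1 * Real.log m ^ 9) := by
      rw [card_eq_cr']; exact hup m h2m
    constructor
    · rw [le_div_iff₀ hp]
      have e1 : Real.exp (-((K1 + K2) * (Real.log m) ^ 9)) ≤ 1 := by
        rw [Real.exp_le_one_iff]
        have : 0 ≤ (K1 + K2) * (Real.log m) ^ 9 := by positivity
        linarith
      calc Real.exp (-((K1 + K2) * (Real.log m) ^ 9)) * H981.mu ^ m ≤ 1 * H981.mu ^ m := by gcongr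
        _ = H981.mu ^ m := one_mul _
        _ ≤ _ := d1.trans c1
    · rw [div_le_iff₀ hp]
      have e2 := hpoly m h2m
      calc mom φ m ≤ 100 * ((m : ℝ) + 5) ^ 3 * ((SW m).card : ℝ) := c2
        _ ≤ Real.exp (K2 * Real.log m ^ 9) * (H981.mu ^ m * Real.exp (K1 * Real.log m ^ 9)) := by
            gcongr
        _ = Real.exp ((K1 + K2) * Real.log m ^ 9) * H981.mu ^ m := by
            rw [add_mul, Real.exp_add]; ring
  · intro m hm1 hm2 hm3
    have h2m : 2 ≤ m := by omega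
    have h := hratio m φ h2m (hnice m h2m)
    have hp : (0 : ℝ) < H981.mu ^ m := by positivity
    have hm0 : (0 : ℝ) < m := by exact_mod_cast (by omega : 0 < m)
    rw [div_pow, ← pow_mul]
    have e1 : H981.mu ^ ((m + 2) * 2) = H981.mu ^ m * H981.mu ^ (m + 4) := by
      rw [← pow_add]; congr 1; ring
    have e2 : H981.mu ^ ((m + 2) * 2) = H981.mu ^ 4 * (H981.mu ^ m) ^ 2 := by
      rw [← pow_mul, ← pow_add]; congr 1; ring
    have h4 : (D / H981.mu ^ 4) / m * (mom φ m / H981.mu ^ m) ^ 2 ≤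
        D / m * (mom φ m / H981.mu ^ m) ^ 2 := by
      apply mul_le_mul_of_nonneg_right _ (by positivity)
      apply div_le_div_of_nonneg_right _ hm0.le
      exact div_le_self hD (one_le_pow₀ hmu1)
    have h3 : mom φ m / H981.mu ^ m * (mom φ (m + 4) / H981.mu ^ (m + 4)) +
        (D / H981.mu ^ 4) / m * (mom φ m / H981.mu ^ m) ^ 2 =
        (mom φ m * mom φ (m + 4) + D / m * mom φ m ^ 2) / H981.mu ^ ((m + 2) * 2) := by
      rw [add_div]
      congr 1
      · rw [e1]; field_simp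
      · rw [e2]; field_simp
    calc mom φ (m + 2) ^ 2 / H981.mu ^ ((m + 2) * 2)
        ≤ (mom φ m * mom φ (m + 4) + D / m * mom φ m ^ 2) / H981.mu ^ ((m + 2) * 2) :=
          div_le_div_of_nonneg_right h (by positivity)
      _ = _ := h3.symm
      _ ≤ _ := by linarith

end SWR

end Pool.Agent.H739K
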